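import Mathlib

/-!
# The robber locating game with no-backtrack: definitions and the robber lemma

`answers`, `probe`, `Legal`, `Located`, `Locatable`, `WinsWithin` are the notions of the game.
`not_locatable_of_family`: a nonempty family of position sets, each of which allows the robber to
answer every probe and to get into a set of the family again, shows that a graph is not
locatable.
-/

set_option autoImplicit false

namespace Pool.Agent.RobberConfined

open SimpleGraph

section Game

variable {V : Type*} (G : SimpleGraph V)

/-- The answers heard by the cop in the first `t` rounds when she follows the strategy `σ`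
(the next probe as a function of the list of all earlier answers) and the robber walks along `x`:
in round `t + 1` she probes `σ (answers so far)` and hears the distance from `x t` to the probe. -/
noncomputable def answers (σ : List ℕ∞ → V) (x : ℕ → V) : ℕ → List ℕ∞
  | 0 => []
  | t + 1 => answers σ x t ++ [G.edist (x t) (σ (answers σ x t))]

/-- The vertex probed in round `t + 1`. -/
noncomputable def probe (σ : List ℕ∞ → V) (x : ℕ → V) (t : ℕ) : V := σ (answers G σ x t)

/-- The walk `x 0, …, x T` is legal: in each round the robber stays or moves to a neighbour, and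
does not move to the vertex just probed. -/
def Legal (σ : List ℕ∞ → V) (x : ℕ → V) (T : ℕ) : Prop :=
  ∀ t < T, (x (t + 1) = x t ∨ G.Adj (x t) (x (t + 1))) ∧ x (t + 1) ≠ probe G σ x t

/-- The robber walking along `x` is located in round `t + 1`: every legal walk giving the same
answers in rounds `1, …, t + 1` is at the vertex `x t` when probed in round `t + 1`. -/
def Located (σ : List ℕ∞ → V) (x : ℕ → V) (t : ℕ) : Prop :=
  ∀ y : ℕ → V, Legal G σ y t → answers G σ y (t + 1) = answers G σ x (t + 1) → y t = x t

/-- `G` is locatable: some strategy of the cop locates the robber within a bounded number of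
rounds, whatever he does. -/
def Locatable : Prop :=
  ∃ (σ : List ℕ∞ → V) (T : ℕ), ∀ x : ℕ → V, Legal G σ x T → ∃ t ≤ T, Located G σ x t

/-- The robber has a winning strategy on `G` that stays in the vertex set `S`: against every
strategy of the cop (which he knows) he has an infinite legal walk inside `S` along which he is
never located.  Distances, and possible positions for being located, are those of `G`. -/
def WinsWithin (S : Set V) : Prop :=
  ∀ σ : List ℕ∞ → V, ∃ x : ℕ → V,
    (∀ t, x t ∈ S) ∧ (∀ T, Legal G σ x T) ∧ ∀ t, ¬ Located G σ x t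

end Game

section Basic

variable {V : Type*} {G : SimpleGraph V}

theorem answers_congr {σ : List ℕ∞ → V} {x y : ℕ → V} :
    ∀ {t : ℕ}, (∀ s < t, x s = y s) → answers G σ x t = answers G σ y t
  | 0, _ => rfl
  | t + 1, h => by
    have h1 : answers G σ x t = answers G σ y t := answers_congr fun s hs => h s (by omega)
    simp only [answers, h1, h t (by omega)]

theorem legal_congr {σ : List ℕ∞ → V} {x y : ℕ → V} {t : ℕ} (h : ∀ s ≤ t, x s = y s)
    (hx : Legal G σ x t) : Legal G σ y t := by
  intro s hs
  have h1 := hx s hs
  unfold probe at h1 ⊢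
  rw [h s (by omega), h (s + 1) (by omega), answers_congr (fun u hu => h u (by omega))] at h1
  exact h1

theorem located_congr {σ : List ℕ∞ → V} {x y : ℕ → V} {t : ℕ} (h : ∀ s ≤ t, x s = y s)
    (hx : Located G σ x t) : Located G σ y t := by
  intro z hz hz2
  rw [← h t le_rfl]
  refine hx z hz ?_
  rw [hz2]
  exact (answers_congr fun s hs => h s (by omega)).symm

/-- A family of position sets that is closed under the robber's options shows that the graph is
not locatable. -/
theorem not_locatable_of_family (F : Set (Set V)) (hne : F.Nonempty)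
    (hF : ∀ X ∈ F, ∀ p : V, ∃ Y ⊆ X, (∀ y ∈ Y, ∀ z ∈ Y, G.edist y p = G.edist z p) ∧
      Y.Nontrivial ∧ ∃ X' ∈ F, ∀ z ∈ X', z ≠ p ∧ ∃ y ∈ Y, z = y ∨ G.Adj y z) :
    ¬ Locatable G := by
  classical
  rintro ⟨σ, T, hσ⟩
  have key : ∀ t : ℕ, ∃ L : List ℕ∞, ∃ X ∈ F, ∀ z ∈ X, ∃ x : ℕ → V, Legal G σ x t ∧
      answers G σ x t = L ∧ x t = z ∧ ∀ s < t, ¬ Located G σ x s := by
    intro t
    induction t with
    | zero =>
      obtain ⟨X, hX⟩ := hne
      refine ⟨[], X, hX, fun z _ => ⟨fun _ => z, ?_, rfl, rfl, ?_⟩⟩
      · intro s hs; omega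
      · intro s hs; omega
    | succ t ih =>
      obtain ⟨L, X, hX, hall⟩ := ih
      obtain ⟨Y, hYX, hYd, ⟨y1, hy1, y2, hy2, hne12⟩, X', hX', hmove⟩ := hF X hX (σ L)
      refine ⟨L ++ [G.edist y1 (σ L)], X', hX', ?_⟩
      intro z hz
      obtain ⟨hzp, y, hyY, hzy⟩ := hmove z hz
      obtain ⟨x, hxl, hxa, hxt, hxn⟩ := hall y (hYX hyY)
      set x' : ℕ → V := Function.update x (t + 1) z with hx'
      have hagree : ∀ s ≤ t, x s = x' s := by
        intro s hs
        rw [hx', Function.update_of_ne (by omega)]
      have hx't : x' (t + 1) = z := by rw [hx', Function.update_self]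
      have hans : answers G σ x' t = L := by
        rw [← hxa]; exact (answers_congr fun s hs => hagree s (by omega)).symm
      have hans1 : answers G σ x' (t + 1) = L ++ [G.edist y1 (σ L)] := by
        simp only [answers, hans]
        rw [← hagree t le_rfl, hxt, hYd y hyY y1 hy1]
      refine ⟨x', ?_, hans1, hx't, ?_⟩
      · intro s hs
        rcases Nat.lt_succ_iff_lt_or_eq.mp hs with h | h
        · exact legal_congr hagree hxl s h
        · subst h
          unfold probe
          rw [hans, hx't, ← hagree s le_rfl, hxt]
          exact ⟨hzy, hzp⟩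
      · intro s hs hloc
        rcases Nat.lt_succ_iff_lt_or_eq.mp hs with h | h
        · exact hxn s h (located_congr (fun u hu => (hagree u (by omega)).symm) hloc)
        · subst h
          -- another position in `Y`
          obtain ⟨y', hy', hyy'⟩ : ∃ y' ∈ Y, y' ≠ y := by
            by_cases h : y1 = y
            · exact ⟨y2, hy2, fun h2 => hne12 (h.trans h2.symm)⟩
            · exact ⟨y1, hy1, h⟩
          obtain ⟨w, hwl, hwa, hwt, -⟩ := hall y' (hYX hy')
          have h3 := hloc w hwl (by
            rw [hans1]; simp only [answers, hwa, hwt]; rw [hYd y' hy' y1 hy1])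
          rw [hwt, ← hagree s le_rfl, hxt] at h3
          exact hyy' h3
  obtain ⟨L, X, hX, hall⟩ := key (T + 1)
  obtain ⟨Y, hYX, -, ⟨y1, hy1, -⟩, -⟩ := hF X hX (σ L)
  obtain ⟨x, hxl, -, -, hxn⟩ := hall y1 (hYX hy1)
  obtain ⟨t, ht, hloc⟩ := hσ x (fun s hs => hxl s (by omega))
  exact hxn t (by omega) hloc

/-- The first vertex after `u` on a geodesic from `u` to `p`. -/
theorem exists_next {u p : V} (h : G.Reachable u p) (hne : u ≠ p) :
    ∃ w, G.Adj u w ∧ G.dist w p + 1 = G.dist u p ∧ G.Reachable w p := by
  obtain ⟨q, hq⟩ := h.exists_walk_length_eq_dist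
  cases q with
  | nil => exact absurd rfl hne
  | cons hadj q =>
    rename_i w
    refine ⟨w, hadj, ?_, q.reachable⟩
    have h1 : G.dist w p ≤ q.length := G.dist_le q
    rw [Walk.length_cons] at hq
    have h2 : G.dist u p ≤ G.dist w p + 1 := by
      obtain ⟨q', hq'⟩ := q.reachable.exists_walk_length_eq_dist
      have := G.dist_le (Walk.cons hadj q')
      rw [Walk.length_cons] at this
      omega
    omega

theorem dist_adj_le {u w p : V} (h : G.Reachable w p) (hadj : G.Adj u w) :
    G.dist u p ≤ G.dist w p + 1 := by
  obtain ⟨q', hq'⟩ := h.exists_walk_length_eq_dist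
  have := G.dist_le (Walk.cons hadj q')
  rw [Walk.length_cons] at this
  omega

end Basic

end Pool.Agent.RobberConfined
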