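import Pool.Agent.RobberConfined.Defs

/-!
# Every graph containing `H` is non-locatable

`H` is the graph with vertices `0, ..., 7` and edges 01, 05, 07, 12, 13, 15, 16, 24, 26, 34, 35.

A certificate (`Cert`) consists of a graph on `0, ..., n - 1` (`E`), a list of pairs known to be
non-adjacent (`non`), possibly the information that the neighbours of `5` are `0, 1, 3` (`t5`), or
that every neighbour of `6` is `1` or a neighbour of `1` (`g61`), a family of position sets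
(`fam`), and for every set `X` of the family and every `b` (the probe is the vertex `b`, or for
`b = n` a vertex outside the list) a decision tree (`tab`) showing that, whatever the distances
from the probe are, two or more vertices of `X` have the same distance to the probe and the
closed neighbourhood of these vertices, without `b`, contains a set of the family.
`cert_sound`: a graph containing a copy of such a configuration is not locatable.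

`forced`: if one of nine further pairs of vertices of `H` is adjacent, or if `5` has a neighbour
outside `H`, a certificate applies.  Otherwise the neighbours of `5` are `0, 1, 3`.  If `6` has a
neighbour different from `1` and not adjacent to `1`, this is a vertex `8` outside `H` and one of
three certificates applies.  Otherwise the last certificate applies.
-/

set_option autoImplicit false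

namespace Pool.Agent.RobberConfined

open SimpleGraph

section Checker

theorem beq_iff {a b : ℕ} : Nat.beq a b = true ↔ a = b :=
  ⟨Nat.eq_of_beq_eq_true, fun h => by rw [h]; exact Nat.beq_refl b⟩

/-- value of `j` in an environment -/
def look : List (ℕ × ℕ) → ℕ → ℕ
  | [], _ => 0
  | e :: r, j => bif Nat.beq e.1 j then e.2 else look r j

/-- is the pair `a, c` in the list (in either order)? -/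
def ad (E : List (ℕ × ℕ)) (a c : ℕ) : Bool :=
  E.any fun e => (Nat.beq e.1 a && Nat.beq e.2 c) || (Nat.beq e.1 c && Nat.beq e.2 a)

abbrev Con := ℕ × ℕ × ℕ
abbrev Stp := ℕ × List Con × List (List ℕ)

structure Cert where
  n : ℕ
  E : List (ℕ × ℕ)
  non : List (ℕ × ℕ)
  t5 : Bool
  g61 : Bool
  fam : List (List ℕ)
  tab : List (ℕ × List ℕ × ℕ × List Stp)

/-- test of a constraint in an environment -/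
def okc (env : List (ℕ × ℕ)) : Con → Bool
  | (k, a, c) =>
    match k with
    | 0 => Nat.ble (look env a) (look env c + 1) && Nat.ble (look env c) (look env a + 1)
    | 1 => Nat.beq (look env c) (look env a + 1)
    | 2 => Nat.ble (look env a + 2) (look env c)
    | 3 => Nat.ble (look env a + 1) (look env c)
    | 4 => Nat.beq (look env 5) (look env 0 + 1) || Nat.beq (look env 5) (look env 1 + 1) ||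
        Nat.beq (look env 5) (look env 3 + 1)
    | _ => Nat.ble (look env 1) (look env 6)

/-- meaning of a constraint for a function `D` -/
def Holds (D : ℕ → ℕ) : Con → Prop
  | (k, a, c) =>
    match k with
    | 0 => D a ≤ D c + 1 ∧ D c ≤ D a + 1
    | 1 => D c = D a + 1
    | 2 => D a + 2 ≤ D c
    | 3 => D a + 1 ≤ D c
    | 4 => D 5 = D 0 + 1 ∨ D 5 = D 1 + 1 ∨ D 5 = D 3 + 1
    | _ => D 1 ≤ D 6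

def mem (l : List ℕ) (a : ℕ) : Bool := l.any fun b => Nat.beq a b

theorem mem_iff {l : List ℕ} {a : ℕ} : mem l a = true ↔ a ∈ l := by
  unfold mem
  simp [List.any_eq_true]

/-- all vertices used by a constraint are available -/
def scopedCon (keys : List ℕ) : Con → Bool
  | (k, a, c) =>
    match k with
    | 0 => mem keys a && mem keys c
    | 1 => mem keys a && mem keys c
    | 2 => mem keys a && mem keys c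
    | 3 => mem keys a && mem keys c
    | 4 => mem keys 0 && mem keys 1 && mem keys 3 && mem keys 5
    | _ => mem keys 1 && mem keys 6

def scopedSt : List Stp → List ℕ → Bool
  | [], _ => true
  | (i, cs, Ys) :: st, keys =>
    !(mem keys i) && cs.all (scopedCon (i :: keys)) && Ys.all (fun Y => Y.all (mem (i :: keys))) &&
      scopedSt st (i :: keys)

def mono (env : List (ℕ × ℕ)) : List ℕ → Bool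
  | [] => false
  | y :: ys => ys.all fun z => Nat.beq (look env z) (look env y)

def cand : List ℕ := [16, 17, 18, 19, 20, 21, 22, 23, 24]

def run : List Stp → List (ℕ × ℕ) → Bool
  | [], _ => false
  | (i, cs, Ys) :: st, env =>
    cand.all fun v => !(cs.all (okc ((i, v) :: env))) || Ys.any (mono ((i, v) :: env)) ||
      run st ((i, v) :: env)

theorem okc_of_holds {D : ℕ → ℕ} {env : List (ℕ × ℕ)} {keys : List ℕ}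
    (h : ∀ j ∈ keys, look env j = D j) {con : Con} (hs : scopedCon keys con = true)
    (hh : Holds D con) : okc env con = true := by
  obtain ⟨k, a, c⟩ := con
  rcases k with _ | _ | _ | _ | _ | k <;>
    simp only [scopedCon, Bool.and_eq_true, mem_iff] at hs <;>
    simp only [Holds] at hh
  · simp only [okc, h _ hs.1, h _ hs.2, Bool.and_eq_true, Nat.ble_eq]; exact hh
  · simp only [okc, h _ hs.1, h _ hs.2, beq_iff]; exact hh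
  · simp only [okc, h _ hs.1, h _ hs.2, Nat.ble_eq]; exact hh
  · simp only [okc, h _ hs.1, h _ hs.2, Nat.ble_eq]; exact hh
  · simp only [okc, h _ hs.1.1.1, h _ hs.1.1.2, h _ hs.1.2, h _ hs.2, Bool.or_eq_true,
      beq_iff]
    tauto
  · simp only [okc, h _ hs.1, h _ hs.2, Nat.ble_eq]; exact hh

theorem run_sound (D : ℕ → ℕ) : ∀ (st : List Stp) (env : List (ℕ × ℕ)) (keys : List ℕ),
    (∀ j ∈ keys, look env j = D j) → scopedSt st keys = true →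
    (∀ s ∈ st, D s.1 ∈ cand ∧ ∀ con ∈ s.2.1, Holds D con) → run st env = true →
    ∃ s ∈ st, ∃ Y ∈ s.2.2, ∀ y ∈ Y, ∀ z ∈ Y, D y = D z
  | [], _, _, _, _, _, h => by simp [run] at h
  | (i, cs, Ys) :: st, env, keys, hk, hsc, hst, h => by
    simp only [scopedSt, Bool.and_eq_true, Bool.not_eq_true', List.all_eq_true] at hsc
    obtain ⟨⟨⟨hi, hcs⟩, hYs⟩, hsc'⟩ := hsc
    have hin : i ∉ keys := by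
      intro hmem
      rw [← mem_iff] at hmem
      rw [hmem] at hi
      exact absurd hi (by decide)
    have h0 := hst (i, cs, Ys) (List.mem_cons_self)
    simp only [run, List.all_eq_true] at h
    have h1 := h (D i) h0.1
    have hk' : ∀ j ∈ i :: keys, look ((i, D i) :: env) j = D j := by
      intro j hj
      by_cases hij : i = j
      · subst hij
        simp [look]
      · have hj' : j ∈ keys := by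
          rcases List.mem_cons.mp hj with h | h
          · exact absurd h.symm hij
          · exact h
        have hb : Nat.beq i j = false := by
          rw [Bool.eq_false_iff]
          intro hb
          exact hij (Nat.eq_of_beq_eq_true hb)
        simp only [look, hb, cond_false]
        exact hk j hj'
    have hcs' : (cs.all (okc ((i, D i) :: env))) = true := by
      rw [List.all_eq_true]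
      intro con hcon
      exact okc_of_holds hk' (hcs con hcon) (h0.2 con hcon)
    rw [hcs'] at h1
    simp only [Bool.not_true, Bool.false_or, Bool.or_eq_true] at h1
    rcases h1 with h1 | h1
    · rw [List.any_eq_true] at h1
      obtain ⟨Y, hY, hm⟩ := h1
      refine ⟨(i, cs, Ys), List.mem_cons_self, Y, hY, ?_⟩
      have hYk := hYs Y hY
      cases Y with
      | nil => intro y hy; simp at hy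
      | cons y0 ys =>
        have hval : ∀ y ∈ y0 :: ys, D y = D y0 := by
          intro y hy
          rcases List.mem_cons.mp hy with h | h
          · rw [h]
          · simp only [mono, List.all_eq_true] at hm
            have h2 := Nat.eq_of_beq_eq_true (hm y h)
            rw [hk' y (mem_iff.mp (hYk y hy)), hk' y0 (mem_iff.mp (hYk y0 List.mem_cons_self))] at h2
            exact h2
        intro y hy z hz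
        rw [hval y hy, hval z hz]
    · obtain ⟨s, hs, Y, hY, hh⟩ := run_sound D st ((i, D i) :: env) (i :: keys) hk' hsc'
        (fun s hs => hst s (List.mem_cons_of_mem _ hs)) h1
      exact ⟨s, List.mem_cons_of_mem _ hs, Y, hY, hh⟩

/-- a constraint is justified when the probe is the vertex `b` (`b = n`: no vertex of the list) -/
def valid (c : Cert) (b : ℕ) : Con → Bool
  | (k, a, d) =>
    match k with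
    | 0 => ad c.E a d
    | 1 => Nat.beq a b && Nat.blt b c.n && ad c.E a d
    | 2 => Nat.beq a b && Nat.blt b c.n && Nat.blt d c.n && !(Nat.beq a d) && ad c.non a d
    | 3 => Nat.beq a b && Nat.blt b c.n && Nat.blt d c.n && !(Nat.beq a d)
    | 4 => c.t5 && !(Nat.beq b 5)
    | _ => c.g61 && !(Nat.beq b 6)

def goodY (c : Cert) (b : ℕ) (X : List ℕ) : List ℕ → Bool
  | y0 :: y1 :: ys => !(Nat.beq y0 y1) && (y0 :: y1 :: ys).all (mem X) &&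
      c.fam.any fun X' => X'.all fun x =>
        !(Nat.beq x b) && (y0 :: y1 :: ys).any fun y => Nat.beq x y || ad c.E y x
  | _ => false

def chkX (c : Cert) (b : ℕ) (X : List ℕ) (r : ℕ) (st : List Stp) : Bool :=
  Nat.blt r c.n &&
  st.all (fun s => Nat.blt s.1 c.n && s.2.1.all (valid c b) && s.2.2.all (goodY c b X)) &&
  scopedSt st [r] && run st [(r, 20)]

def diam2 (c : Cert) : Bool :=
  (List.range c.n).all fun i => Nat.beq i 1 || ad c.E i 1 ||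
    (List.range c.n).any fun m => ad c.E i m && ad c.E m 1

def Cert.check (c : Cert) : Bool :=
  Nat.blt 6 c.n && diam2 c &&
  c.E.all (fun e => Nat.blt e.1 c.n && Nat.blt e.2 c.n) &&
  !(c.fam.isEmpty) &&
  c.fam.all (fun X => X.all (fun x => Nat.blt x c.n) &&
    match X with
    | x0 :: x1 :: _ => !(Nat.beq x0 x1)
    | _ => false) &&
  (List.range (c.n + 1)).all fun b => c.fam.all fun X => c.tab.any fun e =>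
    Nat.beq e.1 b && e.2.1 == X && chkX c b X e.2.2.1 e.2.2.2

end Checker

section Soundness

variable {V : Type*} {G : SimpleGraph V}

theorem ad_iff {E : List (ℕ × ℕ)} {a d : ℕ} (h : ad E a d = true) :
    (a, d) ∈ E ∨ (d, a) ∈ E := by
  simp only [ad, List.any_eq_true, Bool.or_eq_true, Bool.and_eq_true, beq_iff] at h
  obtain ⟨⟨x, y⟩, he, h | h⟩ := h
  · left; rw [← h.1, ← h.2]; exact he
  · right; rw [← h.1, ← h.2]; exact he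

theorem blt_iff {a b : ℕ} : Nat.blt a b = true ↔ a < b := by
  unfold Nat.blt
  rw [Nat.ble_eq]
  exact Iff.rfl

theorem not_eq_true' {b : Bool} : (!b) = true ↔ ¬ (b = true) := by cases b <;> decide

theorem cert_sound (c : Cert) (hc : c.check = true) (φ : ℕ → V)
    (hinj : ∀ i < c.n, ∀ j < c.n, φ i = φ j → i = j)
    (hE : ∀ e ∈ c.E, G.Adj (φ e.1) (φ e.2))
    (hnon : ∀ e ∈ c.non, ¬ G.Adj (φ e.1) (φ e.2))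
    (ht5 : c.t5 = true → ∀ w, G.Adj (φ 5) w → w = φ 0 ∨ w = φ 1 ∨ w = φ 3)
    (hg : c.g61 = true → ∀ w, G.Adj (φ 6) w → w = φ 1 ∨ G.Adj (φ 1) w) :
    ¬ Locatable G := by
  classical
  simp only [Cert.check, Bool.and_eq_true] at hc
  obtain ⟨⟨⟨⟨⟨hn, hdiam⟩, hEn⟩, hfam0⟩, hfam⟩, htab⟩ := hc
  rw [blt_iff] at hn
  have hadj : ∀ a d, ad c.E a d = true → G.Adj (φ a) (φ d) := by
    intro a d h
    rcases ad_iff h with h | h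
    · exact hE _ h
    · exact (hE _ h).symm
  have hnadj : ∀ a d, ad c.non a d = true → ¬ G.Adj (φ a) (φ d) := by
    intro a d h
    rcases ad_iff h with h | h
    · exact hnon _ h
    · exact fun h2 => hnon _ h h2.symm
  have hfamlt : ∀ X ∈ c.fam, (∀ x ∈ X, x < c.n) ∧ ∃ x0 ∈ X, ∃ x1 ∈ X, x0 ≠ x1 := by
    intro X hX
    have h := List.all_eq_true.mp hfam X hX
    rw [Bool.and_eq_true] at h
    refine ⟨fun x hx => blt_iff.mp (List.all_eq_true.mp h.1 x hx), ?_⟩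
    rcases X with _ | ⟨x0, _ | ⟨x1, xs⟩⟩
    · simp at h
    · simp at h
    · refine ⟨x0, by simp, x1, by simp, ?_⟩
      have h2 := h.2
      simp only [not_eq_true', beq_iff] at h2
      exact h2
  -- reachability inside the list
  have hreach : ∀ i < c.n, G.Reachable (φ i) (φ 1) := by
    intro i hi
    have h := List.all_eq_true.mp hdiam i (List.mem_range.mpr hi)
    simp only [Bool.or_eq_true, beq_iff, List.any_eq_true, Bool.and_eq_true] at h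
    rcases h with (h | h) | ⟨m, -, h1, h2⟩
    · rw [h]
    · exact (hadj _ _ h).reachable
    · exact (hadj _ _ h1).reachable.trans (hadj _ _ h2).reachable
  refine not_locatable_of_family {S | ∃ X ∈ c.fam, S = {z | ∃ x ∈ X, z = φ x}} ?_ ?_
  · rcases hf : c.fam with _ | ⟨X, Xs⟩
    · rw [hf] at hfam0; simp at hfam0
    · exact ⟨_, X, by simp, rfl⟩
  rintro _ ⟨X, hX, rfl⟩ p
  obtain ⟨hXlt, x0, hx0, x1, hx1, hx01⟩ := hfamlt X hX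
  by_cases hp : G.Reachable (φ 1) p
  swap
  · -- the probe lies in another component
    have htop : ∀ i < c.n, G.edist (φ i) p = ⊤ := by
      intro i hi
      exact SimpleGraph.edist_eq_top_of_not_reachable fun h => hp ((hreach i hi).symm.trans h)
    refine ⟨{z | ∃ x ∈ X, z = φ x}, le_rfl, ?_, ?_, _, ⟨X, hX, rfl⟩, ?_⟩
    · rintro _ ⟨x, hx, rfl⟩ _ ⟨y, hy, rfl⟩
      rw [htop x (hXlt x hx), htop y (hXlt y hy)]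
    · exact ⟨φ x0, ⟨x0, hx0, rfl⟩, φ x1, ⟨x1, hx1, rfl⟩, fun h =>
        hx01 (hinj _ (hXlt _ hx0) _ (hXlt _ hx1) h)⟩
    · rintro _ ⟨x, hx, rfl⟩
      refine ⟨?_, φ x, ⟨x, hx, rfl⟩, Or.inl rfl⟩
      intro h
      exact hp (h ▸ (hreach x (hXlt x hx)).symm)
  have hr : ∀ i < c.n, G.Reachable (φ i) p := fun i hi => (hreach i hi).trans hp
  set D : ℕ → ℕ := fun i => G.dist (φ i) p with hD
  have hDadj : ∀ a d, d < c.n → G.Adj (φ a) (φ d) → D a ≤ D d + 1 := by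
    intro a d hd h
    exact dist_adj_le (hr d hd) h
  obtain ⟨b, hbn, hb1, hb2⟩ : ∃ b, b ≤ c.n ∧ (b < c.n → p = φ b) ∧ ∀ i < c.n, p = φ i → i = b := by
    by_cases h : ∃ i < c.n, p = φ i
    · obtain ⟨i, hi, hpi⟩ := h
      exact ⟨i, hi.le, fun _ => hpi, fun j hj hpj => hinj _ hj _ hi (hpj.symm.trans hpi)⟩
    · refine ⟨c.n, le_rfl, fun h => absurd h (lt_irrefl _), fun i hi hpi => absurd ⟨i, hi, hpi⟩ h⟩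
  have htab' := List.all_eq_true.mp (List.all_eq_true.mp htab b
    (List.mem_range.mpr (by omega))) X hX
  rw [List.any_eq_true] at htab'
  obtain ⟨⟨b', X', r, st⟩, -, hrow⟩ := htab'
  simp only [Bool.and_eq_true] at hrow
  have hchk := hrow.2
  simp only [chkX, Bool.and_eq_true] at hchk
  obtain ⟨⟨⟨hrn, hst⟩, hsc⟩, hrun⟩ := hchk
  rw [blt_iff] at hrn
  have hEn' : ∀ a d, ad c.E a d = true → a < c.n ∧ d < c.n := by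
    intro a d h
    rcases ad_iff h with h | h
    · have := List.all_eq_true.mp hEn _ h
      simp only [Bool.and_eq_true, blt_iff] at this
      exact this
    · have := List.all_eq_true.mp hEn _ h
      simp only [Bool.and_eq_true, blt_iff] at this
      exact ⟨this.2, this.1⟩
  -- all distances are within 2 of that of vertex 1
  have hnear : ∀ i < c.n, D i ≤ D 1 + 2 ∧ D 1 ≤ D i + 2 := by
    intro i hi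
    have h := List.all_eq_true.mp hdiam i (List.mem_range.mpr hi)
    simp only [Bool.or_eq_true, beq_iff, List.any_eq_true, Bool.and_eq_true] at h
    have h1n : 1 < c.n := by omega
    rcases h with (h | h) | ⟨m, -, h1, h2⟩
    · rw [h]; omega
    · have := hDadj _ _ h1n (hadj _ _ h)
      have := hDadj _ _ hi (hadj _ _ h).symm
      omega
    · have hm := (hEn' _ _ h1).2
      have := hDadj _ _ hm (hadj _ _ h1)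
      have := hDadj _ _ hi (hadj _ _ h1).symm
      have := hDadj _ _ h1n (hadj _ _ h2)
      have := hDadj _ _ hm (hadj _ _ h2).symm
      omega
  set D' : ℕ → ℕ := fun i => D i + 20 - D r with hD'
  have hD'eq : ∀ i < c.n, D' i + D r = D i + 20 := by
    intro i hi
    have h1 := hnear i hi
    have h2 := hnear r hrn
    simp only [hD']
    omega
  have hcand : ∀ i < c.n, D' i ∈ cand := by
    intro i hi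
    have h1 := hnear i hi
    have h2 := hnear r hrn
    have h3 := hD'eq i hi
    have h4 : 16 ≤ D' i ∧ D' i ≤ 24 := by omega
    obtain ⟨h4, h5⟩ := h4
    generalize D' i = v at h4 h5 ⊢
    interval_cases v <;> decide
  have hholds : ∀ con, valid c b con = true → Holds D' con := by
    rintro ⟨k, a, d⟩ hv
    rcases k with _ | _ | _ | _ | _ | k
    · simp only [valid] at hv
      have h1 := hEn' _ _ hv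
      have h2 := hDadj _ _ h1.2 (hadj _ _ hv)
      have h3 := hDadj _ _ h1.1 (hadj _ _ hv).symm
      have h4 := hD'eq _ h1.1
      have h5 := hD'eq _ h1.2
      show D' a ≤ D' d + 1 ∧ D' d ≤ D' a + 1
      omega
    · simp only [valid, Bool.and_eq_true, beq_iff, blt_iff] at hv
      obtain ⟨⟨hab, hbn'⟩, hv⟩ := hv
      subst hab
      have hpa := hb1 hbn'
      have h1 := hEn' _ _ hv
      have hDa : D a = 0 := by simp only [hD]; rw [hpa]; exact SimpleGraph.dist_self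
      have hDd : D d = 1 := by
        simp only [hD]; rw [hpa]; exact SimpleGraph.dist_eq_one_iff_adj.mpr (hadj _ _ hv).symm
      have h4 := hD'eq _ h1.1
      have h5 := hD'eq _ h1.2
      show D' d = D' a + 1
      omega
    · simp only [valid, Bool.and_eq_true, beq_iff, blt_iff, not_eq_true'] at hv
      obtain ⟨⟨⟨⟨hab, hbn'⟩, hdn⟩, hne⟩, hv⟩ := hv
      subst hab
      have hpa := hb1 hbn'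
      have hDa : D a = 0 := by simp only [hD]; rw [hpa]; exact SimpleGraph.dist_self
      have hDd : 2 ≤ D d := by
        have h1 : D d ≠ 0 := by
          intro h0
          have h2 := (hr d hdn).dist_eq_zero_iff.mp h0
          exact hne (hinj _ hbn' _ hdn (hpa.symm.trans h2.symm))
        have h2 : D d ≠ 1 := by
          intro h0
          have h3 := SimpleGraph.dist_eq_one_iff_adj.mp h0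
          rw [hpa] at h3
          exact hnadj _ _ hv h3.symm
        omega
      have h4 := hD'eq _ hbn'
      have h5 := hD'eq _ hdn
      show D' a + 2 ≤ D' d
      omega
    · simp only [valid, Bool.and_eq_true, beq_iff, blt_iff, not_eq_true'] at hv
      obtain ⟨⟨⟨hab, hbn'⟩, hdn⟩, hne⟩ := hv
      subst hab
      have hpa := hb1 hbn'
      have hDa : D a = 0 := by simp only [hD]; rw [hpa]; exact SimpleGraph.dist_self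
      have hDd : 1 ≤ D d := by
        have h1 : D d ≠ 0 := by
          intro h0
          have h2 := (hr d hdn).dist_eq_zero_iff.mp h0
          exact hne (hinj _ hbn' _ hdn (hpa.symm.trans h2.symm))
        omega
      have h4 := hD'eq _ hbn'
      have h5 := hD'eq _ hdn
      show D' a + 1 ≤ D' d
      omega
    · simp only [valid, Bool.and_eq_true, not_eq_true', beq_iff] at hv
      have hne : φ 5 ≠ p := fun h => hv.2 (hb2 5 (by omega) h.symm).symm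
      obtain ⟨w, hw, hw1, -⟩ := exists_next (hr 5 (by omega)) hne
      have h0 := hD'eq 0 (by omega)
      have h1 := hD'eq 1 (by omega)
      have h3 := hD'eq 3 (by omega)
      have h5 := hD'eq 5 (by omega)
      show D' 5 = D' 0 + 1 ∨ D' 5 = D' 1 + 1 ∨ D' 5 = D' 3 + 1
      rcases ht5 hv.1 w hw with h | h | h
      · left
        have : D 0 + 1 = D 5 := by simp only [hD]; rw [← h]; exact hw1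
        omega
      · right; left
        have : D 1 + 1 = D 5 := by simp only [hD]; rw [← h]; exact hw1
        omega
      · right; right
        have : D 3 + 1 = D 5 := by simp only [hD]; rw [← h]; exact hw1
        omega
    · simp only [valid, Bool.and_eq_true, not_eq_true', beq_iff] at hv
      have hne : φ 6 ≠ p := fun h => hv.2 (hb2 6 (by omega) h.symm).symm
      obtain ⟨w, hw, hw1, hwr⟩ := exists_next (hr 6 (by omega)) hne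
      have h1 := hD'eq 1 (by omega)
      have h6 := hD'eq 6 (by omega)
      show D' 1 ≤ D' 6
      rcases hg hv.1 w hw with h | h
      · have : D 1 + 1 = D 6 := by simp only [hD]; rw [← h]; exact hw1
        omega
      · have h2 : D 1 ≤ G.dist w p + 1 := dist_adj_le hwr h
        have : G.dist w p + 1 = D 6 := hw1
        omega
  obtain ⟨s, hs, Y, hY, hYD⟩ := run_sound D' st [(r, 20)] [r] (by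
      intro j hj
      rw [List.mem_singleton] at hj
      subst hj
      have h1 := hD'eq j hrn
      have h2 : D' j = 20 := by omega
      rw [h2]
      simp [look]) hsc (by
      intro s hs
      have h := List.all_eq_true.mp hst s hs
      simp only [Bool.and_eq_true, blt_iff, List.all_eq_true] at h
      exact ⟨hcand _ h.1.1, fun con hcon => hholds con (h.1.2 con hcon)⟩) hrun
  have hgood : goodY c b X Y = true := by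
    have h := List.all_eq_true.mp hst s hs
    simp only [Bool.and_eq_true, List.all_eq_true] at h
    exact h.2 Y hY
  rcases Y with _ | ⟨y0, _ | ⟨y1, ys⟩⟩
  · simp [goodY] at hgood
  · simp [goodY] at hgood
  simp only [goodY, Bool.and_eq_true, not_eq_true', beq_iff] at hgood
  obtain ⟨⟨hy01, hYX⟩, hX''⟩ := hgood
  rw [List.all_eq_true] at hYX
  rw [List.any_eq_true] at hX''
  obtain ⟨X'', hX''f, hmove⟩ := hX''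
  rw [List.all_eq_true] at hmove
  have hYX' : ∀ y ∈ y0 :: y1 :: ys, y ∈ X := fun y hy => mem_iff.mp (hYX y hy)
  refine ⟨{z | ∃ y ∈ y0 :: y1 :: ys, z = φ y}, ?_, ?_, ?_, _, ⟨X'', hX''f, rfl⟩, ?_⟩
  · rintro _ ⟨y, hy, rfl⟩
    exact ⟨y, hYX' y hy, rfl⟩
  · rintro _ ⟨y, hy, rfl⟩ _ ⟨z, hz, rfl⟩
    have hyn := hXlt y (hYX' y hy)
    have hzn := hXlt z (hYX' z hz)
    have h1 := hYD y hy z hz
    have h2 := hD'eq y hyn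
    have h3 := hD'eq z hzn
    have h4 : G.dist (φ y) p = G.dist (φ z) p := by
      show D y = D z
      omega
    rw [← (hr y hyn).coe_dist_eq_edist, ← (hr z hzn).coe_dist_eq_edist, h4]
  · exact ⟨φ y0, ⟨y0, by simp, rfl⟩, φ y1, ⟨y1, by simp, rfl⟩, fun h =>
      hy01 (hinj _ (hXlt _ (hYX' _ (by simp))) _ (hXlt _ (hYX' _ (by simp))) h)⟩
  · rintro _ ⟨x, hx, rfl⟩
    have h := hmove x hx
    simp only [Bool.and_eq_true, not_eq_true', beq_iff, List.any_eq_true, Bool.or_eq_true] at h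
    obtain ⟨hxb, y, hy, hyx⟩ := h
    have hxn := (hfamlt X'' hX''f).1 x hx
    refine ⟨fun h => hxb (hb2 x hxn h.symm), φ y, ⟨y, hy, rfl⟩, ?_⟩
    rcases hyx with h | h
    · left; rw [h]
    · right; exact hadj _ _ h

end Soundness

section Certs

def c25 : Cert where
  n := 8
  E := [(0, 1), (0, 5), (0, 7), (1, 2), (1, 3), (1, 5), (1, 6), (2, 4), (2, 6), (3, 4), (3, 5), (2, 5)]
  non := []
  t5 := false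
  g61 := false
  fam := [[0, 2, 3, 4], [1, 2, 5], [1, 3, 5], [1, 2, 6], [2, 4, 5, 6]]
  tab := [
    (0, [0, 2, 3, 4], 0, [(5, [(1, 0, 5)], []), (2, [(3, 0, 2), (0, 5, 2)], [[0, 2]]), (3, [(3, 0, 3), (0, 5, 3)], [[0, 3], [2, 3]]), (4, [(3, 0, 4), (0, 2, 4), (0, 3, 4)], [[0, 4], [2, 4], [3, 4]])]),
    (0, [1, 2, 5], 0, [(1, [(1, 0, 1)], []), (5, [(1, 0, 5), (0, 1, 5)], [[1, 5]])]),
    (0, [1, 3, 5], 0, [(1, [(1, 0, 1)], []), (5, [(1, 0, 5), (0, 1, 5)], [[1, 5]])]),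
    (0, [1, 2, 6], 1, [(2, [(0, 1, 2)], [[1, 2]]), (6, [(0, 1, 6), (0, 2, 6)], [[1, 6], [2, 6]])]),
    (0, [2, 4, 5, 6], 2, [(4, [(0, 2, 4)], [[2, 4]]), (5, [(0, 2, 5)], [[2, 5], [4, 5]]), (6, [(0, 2, 6)], [[2, 6], [4, 6], [5, 6]])]),
    (1, [0, 2, 3, 4], 1, [(2, [(1, 1, 2)], []), (3, [(1, 1, 3)], [[2, 3]])]),
    (1, [1, 2, 5], 1, [(2, [(1, 1, 2)], [[1, 2]]), (5, [(1, 1, 5), (0, 2, 5)], [[2, 5]])]),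
    (1, [1, 3, 5], 1, [(3, [(1, 1, 3)], [[1, 3]]), (5, [(1, 1, 5), (0, 3, 5)], [[3, 5]])]),
    (1, [1, 2, 6], 1, [(2, [(1, 1, 2)], [[1, 2]]), (6, [(1, 1, 6), (0, 2, 6)], [[2, 6]])]),
    (1, [2, 4, 5, 6], 1, [(2, [(1, 1, 2)], []), (6, [(1, 1, 6), (0, 2, 6)], [[2, 6]])]),
    (2, [0, 2, 3, 4], 2, [(4, [(1, 2, 4)], [[2, 4]]), (5, [(1, 2, 5)], []), (3, [(3, 2, 3), (0, 4, 3), (0, 5, 3)], [[2, 3], [3, 4]]), (0, [(3, 2, 0), (0, 5, 0)], [[0, 3], [0, 4]])]),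
    (2, [1, 2, 5], 1, [(2, [(1, 2, 1)], [[1, 2]]), (5, [(0, 1, 5), (1, 2, 5)], [[1, 5], [2, 5]])]),
    (2, [1, 3, 5], 1, [(2, [(1, 2, 1)], []), (5, [(0, 1, 5), (1, 2, 5)], [[1, 5]])]),
    (2, [1, 2, 6], 1, [(2, [(1, 2, 1)], [[1, 2]]), (6, [(0, 1, 6), (1, 2, 6)], [[1, 6]])]),
    (2, [2, 4, 5, 6], 2, [(5, [(1, 2, 5)], [[2, 5]]), (6, [(1, 2, 6)], [[5, 6]])]),
    (3, [0, 2, 3, 4], 3, [(4, [(1, 3, 4)], [[3, 4]]), (5, [(1, 3, 5)], []), (2, [(3, 3, 2), (0, 4, 2), (0, 5, 2)], [[2, 3], [2, 4]]), (0, [(3, 3, 0), (0, 5, 0)], [[0, 2], [0, 4]])]),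
    (3, [1, 2, 5], 1, [(3, [(1, 3, 1)], []), (5, [(0, 1, 5), (1, 3, 5)], [[1, 5]])]),
    (3, [1, 3, 5], 1, [(3, [(1, 3, 1)], [[1, 3]]), (5, [(0, 1, 5), (1, 3, 5)], [[1, 5], [3, 5]])]),
    (3, [1, 2, 6], 1, [(2, [(0, 1, 2)], [[1, 2]]), (6, [(0, 1, 6), (0, 2, 6)], [[1, 6], [2, 6]])]),
    (3, [2, 4, 5, 6], 3, [(4, [(1, 3, 4)], []), (5, [(1, 3, 5)], [[4, 5]])]),
    (4, [0, 2, 3, 4], 2, [(4, [(1, 4, 2)], [[2, 4]]), (3, [(1, 4, 3)], [[2, 3], [3, 4]])]),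
    (4, [1, 2, 5], 1, [(2, [(0, 1, 2)], [[1, 2]]), (5, [(0, 1, 5), (0, 2, 5)], [[1, 5], [2, 5]])]),
    (4, [1, 3, 5], 1, [(3, [(0, 1, 3)], [[1, 3]]), (5, [(0, 1, 5), (0, 3, 5)], [[1, 5], [3, 5]])]),
    (4, [1, 2, 6], 1, [(2, [(0, 1, 2)], [[1, 2]]), (6, [(0, 1, 6), (0, 2, 6)], [[1, 6], [2, 6]])]),
    (4, [2, 4, 5, 6], 2, [(4, [(1, 4, 2)], [[2, 4]]), (5, [(0, 2, 5), (3, 4, 5)], [[2, 5], [4, 5]]), (6, [(0, 2, 6), (3, 4, 6)], [[2, 6], [4, 6], [5, 6]])]),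
    (5, [0, 2, 3, 4], 2, [(5, [(1, 5, 2)], []), (3, [(1, 5, 3)], [[2, 3]])]),
    (5, [1, 2, 5], 1, [(5, [(1, 5, 1)], [[1, 5]]), (2, [(0, 1, 2), (1, 5, 2)], [[1, 2], [2, 5]])]),
    (5, [1, 3, 5], 1, [(5, [(1, 5, 1)], [[1, 5]]), (3, [(0, 1, 3), (1, 5, 3)], [[1, 3], [3, 5]])]),
    (5, [1, 2, 6], 1, [(5, [(1, 5, 1)], []), (2, [(0, 1, 2), (1, 5, 2)], [[1, 2]])]),
    (5, [2, 4, 5, 6], 2, [(5, [(1, 5, 2)], [[2, 5]]), (4, [(0, 2, 4), (3, 5, 4)], [[2, 4], [4, 5]]), (6, [(0, 2, 6), (3, 5, 6)], [[2, 6], [4, 6], [5, 6]])]),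
    (6, [0, 2, 3, 4], 2, [(6, [(1, 6, 2)], []), (4, [(0, 2, 4), (3, 6, 4)], [[2, 4]]), (3, [(3, 6, 3), (0, 4, 3)], [[2, 3], [3, 4]]), (5, [(0, 2, 5), (3, 6, 5), (0, 3, 5)], []), (0, [(3, 6, 0), (0, 5, 0)], [[0, 2], [0, 3], [0, 4]])]),
    (6, [1, 2, 5], 1, [(6, [(1, 6, 1)], []), (2, [(0, 1, 2), (1, 6, 2)], [[1, 2]])]),
    (6, [1, 3, 5], 1, [(3, [(0, 1, 3)], [[1, 3]]), (5, [(0, 1, 5), (0, 3, 5)], [[1, 5], [3, 5]])]),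
    (6, [1, 2, 6], 1, [(6, [(1, 6, 1)], [[1, 6]]), (2, [(0, 1, 2), (1, 6, 2)], [[1, 2], [2, 6]])]),
    (6, [2, 4, 5, 6], 2, [(6, [(1, 6, 2)], [[2, 6]]), (5, [(0, 2, 5), (3, 6, 5)], [[2, 5], [5, 6]]), (4, [(0, 2, 4), (3, 6, 4)], [[2, 4], [4, 5]])]),
    (7, [0, 2, 3, 4], 2, [(4, [(0, 2, 4)], [[2, 4]]), (3, [(0, 4, 3)], [[2, 3], [3, 4]]), (5, [(0, 2, 5), (0, 3, 5)], []), (0, [(0, 5, 0)], [[0, 2], [0, 3], [0, 4]])]),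
    (7, [1, 2, 5], 1, [(2, [(0, 1, 2)], [[1, 2]]), (5, [(0, 1, 5), (0, 2, 5)], [[1, 5], [2, 5]])]),
    (7, [1, 3, 5], 1, [(3, [(0, 1, 3)], [[1, 3]]), (5, [(0, 1, 5), (0, 3, 5)], [[1, 5], [3, 5]])]),
    (7, [1, 2, 6], 1, [(2, [(0, 1, 2)], [[1, 2]]), (6, [(0, 1, 6), (0, 2, 6)], [[1, 6], [2, 6]])]),
    (7, [2, 4, 5, 6], 2, [(4, [(0, 2, 4)], [[2, 4]]), (5, [(0, 2, 5)], [[2, 5], [4, 5]]), (6, [(0, 2, 6)], [[2, 6], [4, 6], [5, 6]])]),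
    (8, [0, 2, 3, 4], 2, [(4, [(0, 2, 4)], [[2, 4]]), (3, [(0, 4, 3)], [[2, 3], [3, 4]]), (5, [(0, 2, 5), (0, 3, 5)], []), (0, [(0, 5, 0)], [[0, 2], [0, 3], [0, 4]])]),
    (8, [1, 2, 5], 1, [(2, [(0, 1, 2)], [[1, 2]]), (5, [(0, 1, 5), (0, 2, 5)], [[1, 5], [2, 5]])]),
    (8, [1, 3, 5], 1, [(3, [(0, 1, 3)], [[1, 3]]), (5, [(0, 1, 5), (0, 3, 5)], [[1, 5], [3, 5]])]),
    (8, [1, 2, 6], 1, [(2, [(0, 1, 2)], [[1, 2]]), (6, [(0, 1, 6), (0, 2, 6)], [[1, 6], [2, 6]])]),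
    (8, [2, 4, 5, 6], 2, [(4, [(0, 2, 4)], [[2, 4]]), (5, [(0, 2, 5)], [[2, 5], [4, 5]]), (6, [(0, 2, 6)], [[2, 6], [4, 6], [5, 6]])])]

def c45 : Cert where
  n := 8
  E := [(0, 1), (0, 5), (0, 7), (1, 2), (1, 3), (1, 5), (1, 6), (2, 4), (2, 6), (3, 4), (3, 5), (4, 5)]
  non := []
  t5 := false
  g61 := false
  fam := [[1, 2, 3, 4], [0, 1, 5], [1, 3, 5], [3, 4, 5], [0, 1, 3, 6]]
  tab := [
    (0, [1, 2, 3, 4], 1, [(2, [(0, 1, 2)], [[1, 2]]), (3, [(0, 1, 3)], [[1, 3], [2, 3]]), (4, [(0, 2, 4), (0, 3, 4)], [[1, 4], [2, 4], [3, 4]])]),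
    (0, [0, 1, 5], 0, [(1, [(1, 0, 1)], [[0, 1]]), (5, [(1, 0, 5), (0, 1, 5)], [[0, 5], [1, 5]])]),
    (0, [1, 3, 5], 0, [(1, [(1, 0, 1)], []), (5, [(1, 0, 5), (0, 1, 5)], [[1, 5]])]),
    (0, [3, 4, 5], 3, [(4, [(0, 3, 4)], [[3, 4]]), (5, [(0, 3, 5), (0, 4, 5)], [[3, 5], [4, 5]])]),
    (0, [0, 1, 3, 6], 0, [(1, [(1, 0, 1)], [[0, 1]]), (3, [(3, 0, 3), (0, 1, 3)], [[0, 3], [1, 3]]), (6, [(3, 0, 6), (0, 1, 6)], [[1, 6], [3, 6]])]),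
    (1, [1, 2, 3, 4], 1, [(2, [(1, 1, 2)], [[1, 2]]), (3, [(1, 1, 3)], [[1, 3], [2, 3]])]),
    (1, [0, 1, 5], 0, [(1, [(1, 1, 0)], []), (5, [(0, 0, 5), (1, 1, 5)], [[0, 5], [1, 5]])]),
    (1, [1, 3, 5], 1, [(3, [(1, 1, 3)], [[1, 3]]), (5, [(1, 1, 5), (0, 3, 5)], [[1, 5], [3, 5]])]),
    (1, [3, 4, 5], 1, [(3, [(1, 1, 3)], []), (5, [(1, 1, 5), (0, 3, 5)], [[3, 5]])]),
    (1, [0, 1, 3, 6], 1, [(3, [(1, 1, 3)], [[1, 3]]), (6, [(1, 1, 6)], [[3, 6]])]),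
    (2, [1, 2, 3, 4], 1, [(2, [(1, 2, 1)], [[1, 2]]), (4, [(1, 2, 4)], [[1, 4], [2, 4]])]),
    (2, [0, 1, 5], 0, [(1, [(0, 0, 1)], [[0, 1]]), (5, [(0, 0, 5), (0, 1, 5)], [[0, 5], [1, 5]])]),
    (2, [1, 3, 5], 1, [(3, [(0, 1, 3)], [[1, 3]]), (5, [(0, 1, 5), (0, 3, 5)], [[1, 5], [3, 5]])]),
    (2, [3, 4, 5], 3, [(4, [(0, 3, 4)], [[3, 4]]), (5, [(0, 3, 5), (0, 4, 5)], [[3, 5], [4, 5]])]),
    (2, [0, 1, 3, 6], 1, [(2, [(1, 2, 1)], []), (6, [(0, 1, 6), (1, 2, 6)], [[1, 6]])]),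
    (3, [1, 2, 3, 4], 1, [(3, [(1, 3, 1)], [[1, 3]]), (4, [(1, 3, 4)], [[1, 4]])]),
    (3, [0, 1, 5], 1, [(3, [(1, 3, 1)], []), (5, [(0, 1, 5), (1, 3, 5)], [[1, 5]])]),
    (3, [1, 3, 5], 1, [(3, [(1, 3, 1)], [[1, 3]]), (5, [(0, 1, 5), (1, 3, 5)], [[1, 5], [3, 5]])]),
    (3, [3, 4, 5], 3, [(5, [(1, 3, 5)], [[3, 5]]), (4, [(1, 3, 4), (0, 5, 4)], [[4, 5]])]),
    (3, [0, 1, 3, 6], 1, [(3, [(1, 3, 1)], [[1, 3]]), (0, [(0, 1, 0), (3, 3, 0)], [[0, 1], [0, 3]]), (6, [(0, 1, 6), (3, 3, 6)], [[0, 6], [1, 6]])]),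
    (4, [1, 2, 3, 4], 2, [(4, [(1, 4, 2)], [[2, 4]]), (3, [(1, 4, 3)], [[2, 3], [3, 4]])]),
    (4, [0, 1, 5], 0, [(1, [(0, 0, 1)], [[0, 1]]), (5, [(0, 0, 5), (0, 1, 5)], [[0, 5], [1, 5]])]),
    (4, [1, 3, 5], 3, [(4, [(1, 4, 3)], []), (5, [(0, 3, 5), (1, 4, 5)], [[3, 5]])]),
    (4, [3, 4, 5], 3, [(4, [(1, 4, 3)], [[3, 4]]), (5, [(0, 3, 5), (1, 4, 5)], [[3, 5], [4, 5]])]),
    (4, [0, 1, 3, 6], 3, [(4, [(1, 4, 3)], []), (1, [(0, 3, 1), (3, 4, 1)], [[1, 3]]), (0, [(3, 4, 0), (0, 1, 0)], [[0, 1], [0, 3]]), (6, [(3, 4, 6), (0, 1, 6)], [[0, 6], [1, 6], [3, 6]])]),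
    (5, [1, 2, 3, 4], 3, [(5, [(1, 5, 3)], []), (4, [(0, 3, 4), (1, 5, 4)], [[3, 4]])]),
    (5, [0, 1, 5], 0, [(5, [(1, 5, 0)], []), (1, [(0, 0, 1), (1, 5, 1)], [[0, 1], [1, 5]])]),
    (5, [1, 3, 5], 1, [(5, [(1, 5, 1)], [[1, 5]]), (3, [(0, 1, 3), (1, 5, 3)], [[1, 3]])]),
    (5, [3, 4, 5], 3, [(5, [(1, 5, 3)], []), (4, [(0, 3, 4), (1, 5, 4)], [[3, 4], [4, 5]])]),
    (5, [0, 1, 3, 6], 1, [(5, [(1, 5, 1)], []), (3, [(0, 1, 3), (1, 5, 3)], [[1, 3]])]),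
    (6, [1, 2, 3, 4], 1, [(6, [(1, 6, 1)], []), (2, [(0, 1, 2), (1, 6, 2)], [[1, 2]])]),
    (6, [0, 1, 5], 0, [(1, [(0, 0, 1)], [[0, 1]]), (5, [(0, 0, 5), (0, 1, 5)], [[0, 5], [1, 5]])]),
    (6, [1, 3, 5], 1, [(3, [(0, 1, 3)], [[1, 3]]), (5, [(0, 1, 5), (0, 3, 5)], [[1, 5], [3, 5]])]),
    (6, [3, 4, 5], 3, [(4, [(0, 3, 4)], [[3, 4]]), (5, [(0, 3, 5), (0, 4, 5)], [[3, 5], [4, 5]])]),
    (6, [0, 1, 3, 6], 1, [(6, [(1, 6, 1)], [[1, 6]]), (0, [(0, 1, 0), (3, 6, 0)], [[0, 1], [0, 6]]), (3, [(0, 1, 3), (3, 6, 3)], [[0, 3], [1, 3], [3, 6]])]),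
    (7, [1, 2, 3, 4], 1, [(2, [(0, 1, 2)], [[1, 2]]), (3, [(0, 1, 3)], [[1, 3], [2, 3]]), (4, [(0, 2, 4), (0, 3, 4)], [[1, 4], [2, 4], [3, 4]])]),
    (7, [0, 1, 5], 0, [(1, [(0, 0, 1)], [[0, 1]]), (5, [(0, 0, 5), (0, 1, 5)], [[0, 5], [1, 5]])]),
    (7, [1, 3, 5], 1, [(3, [(0, 1, 3)], [[1, 3]]), (5, [(0, 1, 5), (0, 3, 5)], [[1, 5], [3, 5]])]),
    (7, [3, 4, 5], 3, [(4, [(0, 3, 4)], [[3, 4]]), (5, [(0, 3, 5), (0, 4, 5)], [[3, 5], [4, 5]])]),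
    (7, [0, 1, 3, 6], 0, [(7, [(1, 7, 0)], []), (1, [(0, 0, 1), (3, 7, 1)], [[0, 1]]), (3, [(3, 7, 3), (0, 1, 3)], [[0, 3], [1, 3]]), (6, [(3, 7, 6), (0, 1, 6)], [[0, 6], [1, 6], [3, 6]])]),
    (8, [1, 2, 3, 4], 1, [(2, [(0, 1, 2)], [[1, 2]]), (3, [(0, 1, 3)], [[1, 3], [2, 3]]), (4, [(0, 2, 4), (0, 3, 4)], [[1, 4], [2, 4], [3, 4]])]),
    (8, [0, 1, 5], 0, [(1, [(0, 0, 1)], [[0, 1]]), (5, [(0, 0, 5), (0, 1, 5)], [[0, 5], [1, 5]])]),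
    (8, [1, 3, 5], 1, [(3, [(0, 1, 3)], [[1, 3]]), (5, [(0, 1, 5), (0, 3, 5)], [[1, 5], [3, 5]])]),
    (8, [3, 4, 5], 3, [(4, [(0, 3, 4)], [[3, 4]]), (5, [(0, 3, 5), (0, 4, 5)], [[3, 5], [4, 5]])]),
    (8, [0, 1, 3, 6], 0, [(1, [(0, 0, 1)], [[0, 1]]), (3, [(0, 1, 3)], [[0, 3], [1, 3]]), (6, [(0, 1, 6)], [[0, 6], [1, 6], [3, 6]])])]

def c56 : Cert where
  n := 8
  E := [(0, 1), (0, 5), (0, 7), (1, 2), (1, 3), (1, 5), (1, 6), (2, 4), (2, 6), (3, 4), (3, 5), (5, 6)]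
  non := []
  t5 := false
  g61 := false
  fam := [[0, 1, 5], [1, 3, 5], [1, 2, 6], [0, 3, 5, 6], [2, 4, 5, 6]]
  tab := [
    (0, [0, 1, 5], 0, [(1, [(1, 0, 1)], [[0, 1]]), (5, [(1, 0, 5), (0, 1, 5)], [[0, 5], [1, 5]])]),
    (0, [1, 3, 5], 0, [(1, [(1, 0, 1)], []), (5, [(1, 0, 5), (0, 1, 5)], [[1, 5]])]),
    (0, [1, 2, 6], 1, [(2, [(0, 1, 2)], [[1, 2]]), (6, [(0, 1, 6), (0, 2, 6)], [[1, 6], [2, 6]])]),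
    (0, [0, 3, 5, 6], 0, [(5, [(1, 0, 5)], [[0, 5]]), (3, [(3, 0, 3), (0, 5, 3)], [[0, 3], [3, 5]]), (6, [(3, 0, 6), (0, 5, 6)], [[0, 6], [3, 6], [5, 6]])]),
    (0, [2, 4, 5, 6], 0, [(1, [(1, 0, 1)], []), (5, [(1, 0, 5), (0, 1, 5)], []), (6, [(3, 0, 6), (0, 1, 6), (0, 5, 6)], [[5, 6]]), (2, [(3, 0, 2), (0, 1, 2), (0, 6, 2)], [[2, 5], [2, 6]])]),
    (1, [0, 1, 5], 0, [(1, [(1, 1, 0)], [[0, 1]]), (5, [(0, 0, 5), (1, 1, 5)], [[0, 5], [1, 5]])]),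
    (1, [1, 3, 5], 1, [(3, [(1, 1, 3)], [[1, 3]]), (5, [(1, 1, 5), (0, 3, 5)], [[1, 5], [3, 5]])]),
    (1, [1, 2, 6], 1, [(2, [(1, 1, 2)], [[1, 2]]), (6, [(1, 1, 6), (0, 2, 6)], [[1, 6], [2, 6]])]),
    (1, [0, 3, 5, 6], 1, [(5, [(1, 1, 5)], []), (6, [(1, 1, 6), (0, 5, 6)], [[5, 6]])]),
    (1, [2, 4, 5, 6], 1, [(5, [(1, 1, 5)], []), (6, [(1, 1, 6), (0, 5, 6)], [[5, 6]])]),
    (2, [0, 1, 5], 0, [(1, [(0, 0, 1)], [[0, 1]]), (5, [(0, 0, 5), (0, 1, 5)], [[0, 5], [1, 5]])]),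
    (2, [1, 3, 5], 1, [(3, [(0, 1, 3)], [[1, 3]]), (5, [(0, 1, 5), (0, 3, 5)], [[1, 5], [3, 5]])]),
    (2, [1, 2, 6], 1, [(2, [(1, 2, 1)], [[1, 2]]), (6, [(0, 1, 6), (1, 2, 6)], [[1, 6]])]),
    (2, [0, 3, 5, 6], 2, [(6, [(1, 2, 6)], []), (5, [(3, 2, 5), (0, 6, 5)], [[5, 6]]), (0, [(3, 2, 0), (0, 5, 0)], [[0, 5], [0, 6]]), (3, [(3, 2, 3), (0, 5, 3)], [[0, 3], [3, 5], [3, 6]])]),
    (2, [2, 4, 5, 6], 2, [(4, [(1, 2, 4)], []), (6, [(1, 2, 6)], [[4, 6]])]),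
    (3, [0, 1, 5], 1, [(3, [(1, 3, 1)], []), (5, [(0, 1, 5), (1, 3, 5)], [[1, 5]])]),
    (3, [1, 3, 5], 1, [(3, [(1, 3, 1)], [[1, 3]]), (5, [(0, 1, 5), (1, 3, 5)], [[1, 5], [3, 5]])]),
    (3, [1, 2, 6], 1, [(2, [(0, 1, 2)], [[1, 2]]), (6, [(0, 1, 6), (0, 2, 6)], [[1, 6], [2, 6]])]),
    (3, [0, 3, 5, 6], 3, [(5, [(1, 3, 5)], [[3, 5]]), (0, [(3, 3, 0), (0, 5, 0)], [[0, 3], [0, 5]]), (6, [(3, 3, 6), (0, 5, 6)], [[0, 6], [3, 6], [5, 6]])]),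
    (3, [2, 4, 5, 6], 3, [(4, [(1, 3, 4)], []), (5, [(1, 3, 5)], [[4, 5]])]),
    (4, [0, 1, 5], 0, [(1, [(0, 0, 1)], [[0, 1]]), (5, [(0, 0, 5), (0, 1, 5)], [[0, 5], [1, 5]])]),
    (4, [1, 3, 5], 1, [(3, [(0, 1, 3)], [[1, 3]]), (5, [(0, 1, 5), (0, 3, 5)], [[1, 5], [3, 5]])]),
    (4, [1, 2, 6], 1, [(2, [(0, 1, 2)], [[1, 2]]), (6, [(0, 1, 6), (0, 2, 6)], [[1, 6], [2, 6]])]),
    (4, [0, 3, 5, 6], 3, [(4, [(1, 4, 3)], []), (5, [(0, 3, 5), (3, 4, 5)], [[3, 5]]), (0, [(3, 4, 0), (0, 5, 0)], [[0, 3], [0, 5]]), (6, [(3, 4, 6), (0, 5, 6)], [[0, 6], [3, 6], [5, 6]])]),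
    (4, [2, 4, 5, 6], 2, [(4, [(1, 4, 2)], [[2, 4]]), (3, [(1, 4, 3)], []), (5, [(3, 4, 5), (0, 3, 5)], [[2, 5], [4, 5]]), (6, [(0, 2, 6), (3, 4, 6), (0, 5, 6)], [[2, 6], [4, 6], [5, 6]])]),
    (5, [0, 1, 5], 0, [(5, [(1, 5, 0)], []), (1, [(0, 0, 1), (1, 5, 1)], [[0, 1], [1, 5]])]),
    (5, [1, 3, 5], 1, [(5, [(1, 5, 1)], [[1, 5]]), (3, [(0, 1, 3), (1, 5, 3)], [[1, 3]])]),
    (5, [1, 2, 6], 1, [(5, [(1, 5, 1)], []), (6, [(0, 1, 6), (1, 5, 6)], [[1, 6]])]),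
    (5, [0, 3, 5, 6], 3, [(5, [(1, 5, 3)], []), (6, [(1, 5, 6)], [[3, 6], [5, 6]])]),
    (5, [2, 4, 5, 6], 3, [(5, [(1, 5, 3)], []), (6, [(1, 5, 6)], [[5, 6]]), (2, [(3, 5, 2), (0, 6, 2)], [[2, 5], [2, 6]]), (4, [(0, 3, 4), (3, 5, 4), (0, 2, 4)], [[2, 4], [4, 5], [4, 6]])]),
    (6, [0, 1, 5], 1, [(6, [(1, 6, 1)], []), (5, [(0, 1, 5), (1, 6, 5)], [[1, 5]])]),
    (6, [1, 3, 5], 1, [(6, [(1, 6, 1)], []), (5, [(0, 1, 5), (1, 6, 5)], [[1, 5]])]),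
    (6, [1, 2, 6], 1, [(6, [(1, 6, 1)], [[1, 6]]), (2, [(0, 1, 2), (1, 6, 2)], [[1, 2]])]),
    (6, [0, 3, 5, 6], 5, [(6, [(1, 6, 5)], [[5, 6]]), (0, [(0, 5, 0), (3, 6, 0)], [[0, 5], [0, 6]]), (3, [(0, 5, 3), (3, 6, 3)], [[0, 3], [3, 5], [3, 6]])]),
    (6, [2, 4, 5, 6], 2, [(6, [(1, 6, 2)], []), (5, [(1, 6, 5)], [[2, 5], [5, 6]])]),
    (7, [0, 1, 5], 0, [(1, [(0, 0, 1)], [[0, 1]]), (5, [(0, 0, 5), (0, 1, 5)], [[0, 5], [1, 5]])]),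
    (7, [1, 3, 5], 1, [(3, [(0, 1, 3)], [[1, 3]]), (5, [(0, 1, 5), (0, 3, 5)], [[1, 5], [3, 5]])]),
    (7, [1, 2, 6], 1, [(2, [(0, 1, 2)], [[1, 2]]), (6, [(0, 1, 6), (0, 2, 6)], [[1, 6], [2, 6]])]),
    (7, [0, 3, 5, 6], 0, [(7, [(1, 7, 0)], []), (5, [(0, 0, 5), (3, 7, 5)], [[0, 5]]), (3, [(3, 7, 3), (0, 5, 3)], [[0, 3], [3, 5]]), (6, [(3, 7, 6), (0, 5, 6)], [[0, 6], [3, 6], [5, 6]])]),
    (7, [2, 4, 5, 6], 2, [(4, [(0, 2, 4)], [[2, 4]]), (6, [(0, 2, 6)], [[2, 6], [4, 6]]), (5, [(0, 6, 5)], [[2, 5], [4, 5], [5, 6]]), (3, [(0, 4, 3), (0, 5, 3)], [])]),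
    (8, [0, 1, 5], 0, [(1, [(0, 0, 1)], [[0, 1]]), (5, [(0, 0, 5), (0, 1, 5)], [[0, 5], [1, 5]])]),
    (8, [1, 3, 5], 1, [(3, [(0, 1, 3)], [[1, 3]]), (5, [(0, 1, 5), (0, 3, 5)], [[1, 5], [3, 5]])]),
    (8, [1, 2, 6], 1, [(2, [(0, 1, 2)], [[1, 2]]), (6, [(0, 1, 6), (0, 2, 6)], [[1, 6], [2, 6]])]),
    (8, [0, 3, 5, 6], 0, [(5, [(0, 0, 5)], [[0, 5]]), (3, [(0, 5, 3)], [[0, 3], [3, 5]]), (6, [(0, 5, 6)], [[0, 6], [3, 6], [5, 6]])]),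
    (8, [2, 4, 5, 6], 2, [(4, [(0, 2, 4)], [[2, 4]]), (6, [(0, 2, 6)], [[2, 6], [4, 6]]), (5, [(0, 6, 5)], [[2, 5], [4, 5], [5, 6]]), (3, [(0, 4, 3), (0, 5, 3)], [])])]

def c57 : Cert where
  n := 8
  E := [(0, 1), (0, 5), (0, 7), (1, 2), (1, 3), (1, 5), (1, 6), (2, 4), (2, 6), (3, 4), (3, 5), (5, 7)]
  non := []
  t5 := false
  g61 := false
  fam := [[1, 2, 3, 4], [0, 1, 5], [1, 3, 5], [3, 4, 5, 6], [0, 1, 3, 7], [0, 1, 2, 4, 7], [0, 3, 5, 7], [0, 2, 4, 5, 7]]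
  tab := [
    (0, [1, 2, 3, 4], 1, [(2, [(0, 1, 2)], [[1, 2]]), (3, [(0, 1, 3)], [[1, 3], [2, 3]]), (4, [(0, 2, 4), (0, 3, 4)], [[1, 4], [2, 4], [3, 4]])]),
    (0, [0, 1, 5], 0, [(1, [(1, 0, 1)], [[0, 1]]), (5, [(1, 0, 5), (0, 1, 5)], [[0, 5], [1, 5]])]),
    (0, [1, 3, 5], 0, [(1, [(1, 0, 1)], []), (5, [(1, 0, 5), (0, 1, 5)], [[1, 5]])]),
    (0, [3, 4, 5, 6], 0, [(1, [(1, 0, 1)], []), (5, [(1, 0, 5), (0, 1, 5)], []), (3, [(3, 0, 3), (0, 1, 3), (0, 5, 3)], [[3, 5]]), (6, [(3, 0, 6), (0, 1, 6)], [[3, 6], [5, 6]])]),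
    (0, [0, 1, 3, 7], 0, [(1, [(1, 0, 1)], [[0, 1]]), (7, [(1, 0, 7)], [[1, 7]])]),
    (0, [0, 1, 2, 4, 7], 0, [(1, [(1, 0, 1)], [[0, 1]]), (7, [(1, 0, 7)], [[1, 7]])]),
    (0, [0, 3, 5, 7], 0, [(5, [(1, 0, 5)], [[0, 5]]), (7, [(1, 0, 7), (0, 5, 7)], [[5, 7]])]),
    (0, [0, 2, 4, 5, 7], 0, [(5, [(1, 0, 5)], [[0, 5]]), (7, [(1, 0, 7), (0, 5, 7)], [[5, 7]])]),
    (1, [1, 2, 3, 4], 1, [(2, [(1, 1, 2)], [[1, 2]]), (3, [(1, 1, 3)], [[1, 3], [2, 3]])]),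
    (1, [0, 1, 5], 0, [(1, [(1, 1, 0)], [[0, 1]]), (5, [(0, 0, 5), (1, 1, 5)], [[0, 5], [1, 5]])]),
    (1, [1, 3, 5], 1, [(3, [(1, 1, 3)], [[1, 3]]), (5, [(1, 1, 5), (0, 3, 5)], [[1, 5], [3, 5]])]),
    (1, [3, 4, 5, 6], 1, [(5, [(1, 1, 5)], []), (6, [(1, 1, 6)], [[5, 6]])]),
    (1, [0, 1, 3, 7], 0, [(1, [(1, 1, 0)], [[0, 1]]), (3, [(1, 1, 3)], [[0, 3], [1, 3]])]),
    (1, [0, 1, 2, 4, 7], 0, [(1, [(1, 1, 0)], [[0, 1]]), (2, [(1, 1, 2)], [[0, 2], [1, 2]])]),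
    (1, [0, 3, 5, 7], 1, [(3, [(1, 1, 3)], []), (5, [(1, 1, 5), (0, 3, 5)], [[3, 5]])]),
    (1, [0, 2, 4, 5, 7], 1, [(2, [(1, 1, 2)], []), (5, [(1, 1, 5)], [[2, 5]])]),
    (2, [1, 2, 3, 4], 1, [(2, [(1, 2, 1)], [[1, 2]]), (4, [(1, 2, 4)], [[1, 4]])]),
    (2, [0, 1, 5], 0, [(1, [(0, 0, 1)], [[0, 1]]), (5, [(0, 0, 5), (0, 1, 5)], [[0, 5], [1, 5]])]),
    (2, [1, 3, 5], 1, [(3, [(0, 1, 3)], [[1, 3]]), (5, [(0, 1, 5), (0, 3, 5)], [[1, 5], [3, 5]])]),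
    (2, [3, 4, 5, 6], 1, [(2, [(1, 2, 1)], []), (6, [(0, 1, 6), (1, 2, 6)], []), (3, [(0, 1, 3), (3, 2, 3)], [[3, 6]]), (5, [(0, 1, 5), (3, 2, 5), (0, 3, 5)], [[3, 5], [5, 6]])]),
    (2, [0, 1, 3, 7], 1, [(2, [(1, 2, 1)], []), (0, [(0, 1, 0), (3, 2, 0)], [[0, 1]]), (3, [(0, 1, 3), (3, 2, 3)], [[0, 3], [1, 3]])]),
    (2, [0, 1, 2, 4, 7], 1, [(2, [(1, 2, 1)], [[1, 2]]), (4, [(1, 2, 4)], [[1, 4]])]),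
    (2, [0, 3, 5, 7], 0, [(5, [(0, 0, 5)], [[0, 5]]), (7, [(0, 0, 7), (0, 5, 7)], [[0, 7], [5, 7]])]),
    (2, [0, 2, 4, 5, 7], 0, [(5, [(0, 0, 5)], [[0, 5]]), (7, [(0, 0, 7), (0, 5, 7)], [[0, 7], [5, 7]])]),
    (3, [1, 2, 3, 4], 1, [(3, [(1, 3, 1)], [[1, 3]]), (4, [(1, 3, 4)], [[1, 4]])]),
    (3, [0, 1, 5], 1, [(3, [(1, 3, 1)], []), (5, [(0, 1, 5), (1, 3, 5)], [[1, 5]])]),
    (3, [1, 3, 5], 1, [(3, [(1, 3, 1)], [[1, 3]]), (5, [(0, 1, 5), (1, 3, 5)], [[1, 5], [3, 5]])]),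
    (3, [3, 4, 5, 6], 3, [(5, [(1, 3, 5)], [[3, 5]]), (4, [(1, 3, 4)], [[4, 5]])]),
    (3, [0, 1, 3, 7], 1, [(3, [(1, 3, 1)], [[1, 3]]), (5, [(0, 1, 5), (1, 3, 5)], []), (0, [(0, 1, 0), (3, 3, 0), (0, 5, 0)], [[0, 1], [0, 3]]), (7, [(3, 3, 7), (0, 5, 7), (0, 0, 7)], [[0, 7], [1, 7], [3, 7]])]),
    (3, [0, 1, 2, 4, 7], 1, [(3, [(1, 3, 1)], []), (4, [(1, 3, 4)], [[1, 4]])]),
    (3, [0, 3, 5, 7], 0, [(5, [(0, 0, 5)], [[0, 5]]), (7, [(0, 0, 7), (0, 5, 7)], [[0, 7], [5, 7]])]),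
    (3, [0, 2, 4, 5, 7], 3, [(4, [(1, 3, 4)], []), (5, [(1, 3, 5)], [[4, 5]])]),
    (4, [1, 2, 3, 4], 2, [(4, [(1, 4, 2)], []), (3, [(1, 4, 3)], [[2, 3], [3, 4]])]),
    (4, [0, 1, 5], 0, [(1, [(0, 0, 1)], [[0, 1]]), (5, [(0, 0, 5), (0, 1, 5)], [[0, 5], [1, 5]])]),
    (4, [1, 3, 5], 1, [(3, [(0, 1, 3)], [[1, 3]]), (5, [(0, 1, 5), (0, 3, 5)], [[1, 5], [3, 5]])]),
    (4, [3, 4, 5, 6], 2, [(4, [(1, 4, 2)], []), (3, [(1, 4, 3)], [[3, 4]]), (5, [(3, 4, 5), (0, 3, 5)], [[3, 5], [4, 5]]), (6, [(0, 2, 6), (3, 4, 6)], [[3, 6], [5, 6]])]),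
    (4, [0, 1, 3, 7], 3, [(4, [(1, 4, 3)], []), (1, [(0, 3, 1), (3, 4, 1)], [[1, 3]]), (5, [(0, 3, 5), (3, 4, 5), (0, 1, 5)], []), (0, [(3, 4, 0), (0, 1, 0), (0, 5, 0)], [[0, 1], [0, 3]]), (7, [(3, 4, 7), (0, 5, 7), (0, 0, 7)], [[0, 7], [1, 7], [3, 7]])]),
    (4, [0, 1, 2, 4, 7], 2, [(4, [(1, 4, 2)], []), (3, [(1, 4, 3)], []), (1, [(0, 2, 1), (3, 4, 1), (0, 3, 1)], [[1, 2], [1, 4]]), (5, [(3, 4, 5), (0, 3, 5), (0, 1, 5)], []), (0, [(3, 4, 0), (0, 1, 0), (0, 5, 0)], [[0, 1], [0, 2], [0, 4]]), (7, [(3, 4, 7), (0, 5, 7), (0, 0, 7)], [[0, 7], [1, 7], [2, 7], [4, 7]])]),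
    (4, [0, 3, 5, 7], 0, [(5, [(0, 0, 5)], [[0, 5]]), (7, [(0, 0, 7), (0, 5, 7)], [[0, 7], [5, 7]])]),
    (4, [0, 2, 4, 5, 7], 0, [(5, [(0, 0, 5)], [[0, 5]]), (7, [(0, 0, 7), (0, 5, 7)], [[0, 7], [5, 7]])]),
    (5, [1, 2, 3, 4], 1, [(5, [(1, 5, 1)], []), (3, [(0, 1, 3), (1, 5, 3)], [[1, 3]])]),
    (5, [0, 1, 5], 0, [(5, [(1, 5, 0)], [[0, 5]]), (1, [(0, 0, 1), (1, 5, 1)], [[0, 1], [1, 5]])]),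
    (5, [1, 3, 5], 1, [(5, [(1, 5, 1)], [[1, 5]]), (3, [(0, 1, 3), (1, 5, 3)], [[1, 3], [3, 5]])]),
    (5, [3, 4, 5, 6], 1, [(5, [(1, 5, 1)], []), (3, [(0, 1, 3), (1, 5, 3)], [[3, 5]]), (4, [(3, 5, 4), (0, 3, 4)], [[3, 4], [4, 5]]), (6, [(0, 1, 6), (3, 5, 6)], [[3, 6], [4, 6], [5, 6]])]),
    (5, [0, 1, 3, 7], 3, [(5, [(1, 5, 3)], []), (7, [(1, 5, 7)], [[3, 7]])]),
    (5, [0, 1, 2, 4, 7], 1, [(5, [(1, 5, 1)], []), (7, [(1, 5, 7)], [[1, 7]])]),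
    (5, [0, 3, 5, 7], 3, [(5, [(1, 5, 3)], [[3, 5]]), (7, [(1, 5, 7)], [[3, 7], [5, 7]])]),
    (5, [0, 2, 4, 5, 7], 0, [(5, [(1, 5, 0)], [[0, 5]]), (1, [(0, 0, 1), (1, 5, 1)], []), (3, [(1, 5, 3), (0, 1, 3)], []), (2, [(3, 5, 2), (0, 1, 2)], [[0, 2], [2, 5]]), (4, [(3, 5, 4), (0, 3, 4), (0, 2, 4)], [[0, 4], [2, 4], [4, 5]])]),
    (6, [1, 2, 3, 4], 1, [(6, [(1, 6, 1)], []), (2, [(0, 1, 2), (1, 6, 2)], [[1, 2]])]),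
    (6, [0, 1, 5], 0, [(1, [(0, 0, 1)], [[0, 1]]), (5, [(0, 0, 5), (0, 1, 5)], [[0, 5], [1, 5]])]),
    (6, [1, 3, 5], 1, [(3, [(0, 1, 3)], [[1, 3]]), (5, [(0, 1, 5), (0, 3, 5)], [[1, 5], [3, 5]])]),
    (6, [3, 4, 5, 6], 1, [(6, [(1, 6, 1)], []), (2, [(0, 1, 2), (1, 6, 2)], []), (3, [(0, 1, 3), (3, 6, 3)], [[3, 6]]), (4, [(3, 6, 4), (0, 2, 4), (0, 3, 4)], [[3, 4], [4, 6]]), (5, [(0, 1, 5), (3, 6, 5), (0, 3, 5)], [[3, 5], [4, 5], [5, 6]])]),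
    (6, [0, 1, 3, 7], 1, [(6, [(1, 6, 1)], []), (0, [(0, 1, 0), (3, 6, 0)], [[0, 1]]), (3, [(0, 1, 3), (3, 6, 3)], [[0, 3], [1, 3]])]),
    (6, [0, 1, 2, 4, 7], 1, [(6, [(1, 6, 1)], []), (2, [(0, 1, 2), (1, 6, 2)], [[1, 2]])]),
    (6, [0, 3, 5, 7], 0, [(5, [(0, 0, 5)], [[0, 5]]), (7, [(0, 0, 7), (0, 5, 7)], [[0, 7], [5, 7]])]),
    (6, [0, 2, 4, 5, 7], 0, [(5, [(0, 0, 5)], [[0, 5]]), (7, [(0, 0, 7), (0, 5, 7)], [[0, 7], [5, 7]])]),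
    (7, [1, 2, 3, 4], 1, [(2, [(0, 1, 2)], [[1, 2]]), (3, [(0, 1, 3)], [[1, 3], [2, 3]]), (4, [(0, 2, 4), (0, 3, 4)], [[1, 4], [2, 4], [3, 4]])]),
    (7, [0, 1, 5], 0, [(7, [(1, 7, 0)], []), (5, [(0, 0, 5), (1, 7, 5)], [[0, 5]])]),
    (7, [1, 3, 5], 1, [(3, [(0, 1, 3)], [[1, 3]]), (5, [(0, 1, 5), (0, 3, 5)], [[1, 5], [3, 5]])]),
    (7, [3, 4, 5, 6], 5, [(7, [(1, 7, 5)], []), (3, [(0, 5, 3), (3, 7, 3)], [[3, 5]]), (1, [(0, 5, 1), (3, 7, 1), (0, 3, 1)], []), (4, [(3, 7, 4), (0, 3, 4)], [[3, 4], [4, 5]]), (6, [(3, 7, 6), (0, 1, 6)], [[3, 6], [4, 6], [5, 6]])]),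
    (7, [0, 1, 3, 7], 0, [(7, [(1, 7, 0)], [[0, 7]]), (5, [(0, 0, 5), (1, 7, 5)], []), (1, [(0, 0, 1), (3, 7, 1), (0, 5, 1)], [[0, 1], [1, 7]]), (3, [(3, 7, 3), (0, 5, 3), (0, 1, 3)], [[0, 3], [1, 3], [3, 7]])]),
    (7, [0, 1, 2, 4, 7], 0, [(7, [(1, 7, 0)], [[0, 7]]), (5, [(0, 0, 5), (1, 7, 5)], []), (1, [(0, 0, 1), (3, 7, 1), (0, 5, 1)], [[0, 1], [1, 7]]), (3, [(3, 7, 3), (0, 5, 3), (0, 1, 3)], []), (2, [(3, 7, 2), (0, 1, 2)], [[0, 2], [1, 2], [2, 7]]), (4, [(3, 7, 4), (0, 3, 4), (0, 2, 4)], [[0, 4], [1, 4], [2, 4]])]),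
    (7, [0, 3, 5, 7], 0, [(7, [(1, 7, 0)], [[0, 7]]), (5, [(0, 0, 5), (1, 7, 5)], [[0, 5], [5, 7]])]),
    (7, [0, 2, 4, 5, 7], 0, [(7, [(1, 7, 0)], [[0, 7]]), (5, [(0, 0, 5), (1, 7, 5)], [[0, 5], [5, 7]])]),
    (8, [1, 2, 3, 4], 1, [(2, [(0, 1, 2)], [[1, 2]]), (3, [(0, 1, 3)], [[1, 3], [2, 3]]), (4, [(0, 2, 4), (0, 3, 4)], [[1, 4], [2, 4], [3, 4]])]),
    (8, [0, 1, 5], 0, [(1, [(0, 0, 1)], [[0, 1]]), (5, [(0, 0, 5), (0, 1, 5)], [[0, 5], [1, 5]])]),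
    (8, [1, 3, 5], 1, [(3, [(0, 1, 3)], [[1, 3]]), (5, [(0, 1, 5), (0, 3, 5)], [[1, 5], [3, 5]])]),
    (8, [3, 4, 5, 6], 3, [(4, [(0, 3, 4)], [[3, 4]]), (5, [(0, 3, 5)], [[3, 5], [4, 5]]), (1, [(0, 3, 1), (0, 5, 1)], []), (2, [(0, 4, 2), (0, 1, 2)], []), (6, [(0, 1, 6), (0, 2, 6)], [[3, 6], [4, 6], [5, 6]])]),
    (8, [0, 1, 3, 7], 0, [(1, [(0, 0, 1)], [[0, 1]]), (5, [(0, 0, 5), (0, 1, 5)], []), (3, [(0, 1, 3), (0, 5, 3)], [[0, 3], [1, 3]]), (7, [(0, 0, 7), (0, 5, 7)], [[0, 7], [1, 7], [3, 7]])]),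
    (8, [0, 1, 2, 4, 7], 4, [(2, [(0, 4, 2)], [[2, 4]]), (1, [(0, 2, 1)], [[1, 2], [1, 4]]), (3, [(0, 4, 3), (0, 1, 3)], []), (5, [(0, 1, 5), (0, 3, 5)], []), (0, [(0, 1, 0), (0, 5, 0)], [[0, 1], [0, 2], [0, 4]]), (7, [(0, 5, 7), (0, 0, 7)], [[0, 7], [1, 7], [2, 7], [4, 7]])]),
    (8, [0, 3, 5, 7], 0, [(5, [(0, 0, 5)], [[0, 5]]), (7, [(0, 0, 7), (0, 5, 7)], [[0, 7], [5, 7]])]),
    (8, [0, 2, 4, 5, 7], 0, [(5, [(0, 0, 5)], [[0, 5]]), (7, [(0, 0, 7), (0, 5, 7)], [[0, 7], [5, 7]])])]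

def c17 : Cert where
  n := 8
  E := [(0, 1), (0, 5), (0, 7), (1, 2), (1, 3), (1, 5), (1, 6), (2, 4), (2, 6), (3, 4), (3, 5), (1, 7)]
  non := []
  t5 := false
  g61 := false
  fam := [[1, 2, 3, 4], [0, 1, 5], [1, 3, 5, 6], [3, 4, 5, 6], [0, 1, 2, 7], [0, 1, 3, 7], [0, 3, 5, 7], [1, 3, 5, 7], [0, 2, 4, 5, 7]]
  tab := [
    (0, [1, 2, 3, 4], 1, [(2, [(0, 1, 2)], [[1, 2]]), (3, [(0, 1, 3)], [[1, 3], [2, 3]]), (4, [(0, 2, 4), (0, 3, 4)], [[1, 4], [2, 4], [3, 4]])]),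
    (0, [0, 1, 5], 0, [(1, [(1, 0, 1)], [[0, 1]]), (5, [(1, 0, 5), (0, 1, 5)], [[0, 5], [1, 5]])]),
    (0, [1, 3, 5, 6], 0, [(1, [(1, 0, 1)], []), (5, [(1, 0, 5), (0, 1, 5)], [[1, 5]])]),
    (0, [3, 4, 5, 6], 0, [(1, [(1, 0, 1)], []), (5, [(1, 0, 5), (0, 1, 5)], []), (3, [(3, 0, 3), (0, 1, 3), (0, 5, 3)], []), (4, [(3, 0, 4), (0, 3, 4)], [[3, 4], [4, 5]]), (6, [(3, 0, 6), (0, 1, 6)], [[3, 6], [4, 6], [5, 6]])]),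
    (0, [0, 1, 2, 7], 0, [(1, [(1, 0, 1)], [[0, 1]]), (7, [(1, 0, 7), (0, 1, 7)], [[1, 7]])]),
    (0, [0, 1, 3, 7], 0, [(1, [(1, 0, 1)], [[0, 1]]), (7, [(1, 0, 7), (0, 1, 7)], [[1, 7]])]),
    (0, [0, 3, 5, 7], 0, [(5, [(1, 0, 5)], [[0, 5]]), (7, [(1, 0, 7)], [[5, 7]])]),
    (0, [1, 3, 5, 7], 0, [(5, [(1, 0, 5)], []), (7, [(1, 0, 7)], [[5, 7]])]),
    (0, [0, 2, 4, 5, 7], 0, [(5, [(1, 0, 5)], [[0, 5]]), (7, [(1, 0, 7)], [[5, 7]])]),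
    (1, [1, 2, 3, 4], 1, [(2, [(1, 1, 2)], [[1, 2]]), (3, [(1, 1, 3)], [[1, 3], [2, 3]])]),
    (1, [0, 1, 5], 0, [(1, [(1, 1, 0)], [[0, 1]]), (5, [(0, 0, 5), (1, 1, 5)], [[0, 5], [1, 5]])]),
    (1, [1, 3, 5, 6], 1, [(3, [(1, 1, 3)], [[1, 3]]), (6, [(1, 1, 6)], [[1, 6], [3, 6]])]),
    (1, [3, 4, 5, 6], 1, [(3, [(1, 1, 3)], []), (6, [(1, 1, 6)], [[3, 6]])]),
    (1, [0, 1, 2, 7], 0, [(1, [(1, 1, 0)], [[0, 1]]), (2, [(1, 1, 2)], [[0, 2], [1, 2]])]),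
    (1, [0, 1, 3, 7], 1, [(3, [(1, 1, 3)], [[1, 3]]), (7, [(1, 1, 7)], [[1, 7], [3, 7]])]),
    (1, [0, 3, 5, 7], 1, [(5, [(1, 1, 5)], []), (7, [(1, 1, 7)], [[5, 7]])]),
    (1, [1, 3, 5, 7], 1, [(5, [(1, 1, 5)], [[1, 5]]), (7, [(1, 1, 7)], [[1, 7], [5, 7]])]),
    (1, [0, 2, 4, 5, 7], 1, [(5, [(1, 1, 5)], []), (7, [(1, 1, 7)], [[5, 7]])]),
    (2, [1, 2, 3, 4], 1, [(2, [(1, 2, 1)], [[1, 2]]), (4, [(1, 2, 4)], [[1, 4]])]),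
    (2, [0, 1, 5], 0, [(1, [(0, 0, 1)], [[0, 1]]), (5, [(0, 0, 5), (0, 1, 5)], [[0, 5], [1, 5]])]),
    (2, [1, 3, 5, 6], 1, [(2, [(1, 2, 1)], []), (6, [(0, 1, 6), (1, 2, 6)], [[1, 6]])]),
    (2, [3, 4, 5, 6], 1, [(2, [(1, 2, 1)], []), (6, [(0, 1, 6), (1, 2, 6)], []), (3, [(0, 1, 3), (3, 2, 3)], [[3, 6]]), (5, [(0, 1, 5), (3, 2, 5), (0, 3, 5)], [[3, 5], [5, 6]])]),
    (2, [0, 1, 2, 7], 0, [(1, [(0, 0, 1)], [[0, 1]]), (7, [(0, 0, 7), (0, 1, 7)], [[0, 7], [1, 7]])]),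
    (2, [0, 1, 3, 7], 0, [(1, [(0, 0, 1)], [[0, 1]]), (7, [(0, 0, 7), (0, 1, 7)], [[0, 7], [1, 7]])]),
    (2, [0, 3, 5, 7], 1, [(2, [(1, 2, 1)], []), (3, [(0, 1, 3), (3, 2, 3)], []), (5, [(0, 1, 5), (3, 2, 5), (0, 3, 5)], [[3, 5]]), (7, [(0, 1, 7), (3, 2, 7)], [[3, 7], [5, 7]])]),
    (2, [1, 3, 5, 7], 1, [(3, [(0, 1, 3)], [[1, 3]]), (5, [(0, 1, 5), (0, 3, 5)], [[1, 5], [3, 5]])]),
    (2, [0, 2, 4, 5, 7], 1, [(2, [(1, 2, 1)], []), (4, [(1, 2, 4)], []), (5, [(0, 1, 5), (3, 2, 5)], [[2, 5], [4, 5]]), (7, [(0, 1, 7), (3, 2, 7)], [[4, 7], [5, 7]])]),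
    (3, [1, 2, 3, 4], 1, [(3, [(1, 3, 1)], [[1, 3]]), (4, [(1, 3, 4)], [[1, 4]])]),
    (3, [0, 1, 5], 1, [(3, [(1, 3, 1)], []), (5, [(0, 1, 5), (1, 3, 5)], [[1, 5]])]),
    (3, [1, 3, 5, 6], 1, [(3, [(1, 3, 1)], [[1, 3]]), (5, [(0, 1, 5), (1, 3, 5)], [[1, 5], [3, 5]])]),
    (3, [3, 4, 5, 6], 3, [(5, [(1, 3, 5)], [[3, 5]]), (4, [(1, 3, 4)], [[4, 5]])]),
    (3, [0, 1, 2, 7], 0, [(1, [(0, 0, 1)], [[0, 1]]), (7, [(0, 0, 7), (0, 1, 7)], [[0, 7], [1, 7]])]),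
    (3, [0, 1, 3, 7], 0, [(1, [(0, 0, 1)], [[0, 1]]), (7, [(0, 0, 7), (0, 1, 7)], [[0, 7], [1, 7]])]),
    (3, [0, 3, 5, 7], 1, [(3, [(1, 3, 1)], []), (5, [(0, 1, 5), (1, 3, 5)], [[3, 5]]), (0, [(0, 1, 0), (3, 3, 0), (0, 5, 0)], [[0, 3], [0, 5]]), (7, [(0, 1, 7), (3, 3, 7), (0, 0, 7)], [[0, 7], [3, 7], [5, 7]])]),
    (3, [1, 3, 5, 7], 1, [(3, [(1, 3, 1)], [[1, 3]]), (5, [(0, 1, 5), (1, 3, 5)], [[1, 5], [3, 5]])]),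
    (3, [0, 2, 4, 5, 7], 3, [(4, [(1, 3, 4)], []), (5, [(1, 3, 5)], [[4, 5]])]),
    (4, [1, 2, 3, 4], 2, [(4, [(1, 4, 2)], []), (3, [(1, 4, 3)], [[2, 3]])]),
    (4, [0, 1, 5], 0, [(1, [(0, 0, 1)], [[0, 1]]), (5, [(0, 0, 5), (0, 1, 5)], [[0, 5], [1, 5]])]),
    (4, [1, 3, 5, 6], 1, [(3, [(0, 1, 3)], [[1, 3]]), (5, [(0, 1, 5), (0, 3, 5)], [[1, 5], [3, 5]])]),
    (4, [3, 4, 5, 6], 2, [(4, [(1, 4, 2)], []), (3, [(1, 4, 3)], []), (5, [(3, 4, 5), (0, 3, 5)], [[3, 5], [4, 5]]), (6, [(0, 2, 6), (3, 4, 6)], [[3, 6], [5, 6]])]),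
    (4, [0, 1, 2, 7], 0, [(1, [(0, 0, 1)], [[0, 1]]), (7, [(0, 0, 7), (0, 1, 7)], [[0, 7], [1, 7]])]),
    (4, [0, 1, 3, 7], 0, [(1, [(0, 0, 1)], [[0, 1]]), (7, [(0, 0, 7), (0, 1, 7)], [[0, 7], [1, 7]])]),
    (4, [0, 3, 5, 7], 3, [(4, [(1, 4, 3)], []), (5, [(0, 3, 5), (3, 4, 5)], [[3, 5]]), (1, [(0, 3, 1), (3, 4, 1), (0, 5, 1)], []), (0, [(3, 4, 0), (0, 5, 0), (0, 1, 0)], [[0, 3], [0, 5]]), (7, [(3, 4, 7), (0, 1, 7), (0, 0, 7)], [[0, 7], [3, 7], [5, 7]])]),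
    (4, [1, 3, 5, 7], 1, [(3, [(0, 1, 3)], [[1, 3]]), (5, [(0, 1, 5), (0, 3, 5)], [[1, 5], [3, 5]])]),
    (4, [0, 2, 4, 5, 7], 2, [(4, [(1, 4, 2)], []), (3, [(1, 4, 3)], []), (1, [(0, 2, 1), (3, 4, 1), (0, 3, 1)], []), (5, [(3, 4, 5), (0, 3, 5), (0, 1, 5)], [[2, 5], [4, 5]]), (0, [(3, 4, 0), (0, 1, 0), (0, 5, 0)], [[0, 2], [0, 4], [0, 5]]), (7, [(3, 4, 7), (0, 1, 7), (0, 0, 7)], [[0, 7], [2, 7], [4, 7], [5, 7]])]),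
    (5, [1, 2, 3, 4], 1, [(5, [(1, 5, 1)], []), (3, [(0, 1, 3), (1, 5, 3)], [[1, 3]])]),
    (5, [0, 1, 5], 0, [(5, [(1, 5, 0)], [[0, 5]]), (1, [(0, 0, 1), (1, 5, 1)], [[0, 1], [1, 5]])]),
    (5, [1, 3, 5, 6], 1, [(5, [(1, 5, 1)], [[1, 5]]), (3, [(0, 1, 3), (1, 5, 3)], [[1, 3]])]),
    (5, [3, 4, 5, 6], 1, [(5, [(1, 5, 1)], []), (3, [(0, 1, 3), (1, 5, 3)], []), (4, [(3, 5, 4), (0, 3, 4)], [[3, 4], [4, 5]]), (6, [(0, 1, 6), (3, 5, 6)], [[3, 6], [4, 6]])]),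
    (5, [0, 1, 2, 7], 0, [(5, [(1, 5, 0)], []), (1, [(0, 0, 1), (1, 5, 1)], [[0, 1]])]),
    (5, [0, 1, 3, 7], 1, [(5, [(1, 5, 1)], []), (3, [(0, 1, 3), (1, 5, 3)], [[1, 3]])]),
    (5, [0, 3, 5, 7], 0, [(5, [(1, 5, 0)], [[0, 5]]), (3, [(1, 5, 3)], [[0, 3]])]),
    (5, [1, 3, 5, 7], 1, [(5, [(1, 5, 1)], [[1, 5]]), (3, [(0, 1, 3), (1, 5, 3)], [[1, 3]])]),
    (5, [0, 2, 4, 5, 7], 1, [(5, [(1, 5, 1)], []), (3, [(0, 1, 3), (1, 5, 3)], []), (2, [(0, 1, 2), (3, 5, 2)], [[2, 5]]), (4, [(3, 5, 4), (0, 3, 4), (0, 2, 4)], [[2, 4], [4, 5]]), (7, [(0, 1, 7), (3, 5, 7)], [[2, 7], [4, 7], [5, 7]])]),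
    (6, [1, 2, 3, 4], 1, [(6, [(1, 6, 1)], []), (2, [(0, 1, 2), (1, 6, 2)], [[1, 2]])]),
    (6, [0, 1, 5], 0, [(1, [(0, 0, 1)], [[0, 1]]), (5, [(0, 0, 5), (0, 1, 5)], [[0, 5], [1, 5]])]),
    (6, [1, 3, 5, 6], 1, [(3, [(0, 1, 3)], [[1, 3]]), (5, [(0, 1, 5), (0, 3, 5)], [[1, 5], [3, 5]])]),
    (6, [3, 4, 5, 6], 1, [(6, [(1, 6, 1)], []), (2, [(0, 1, 2), (1, 6, 2)], []), (3, [(0, 1, 3), (3, 6, 3)], [[3, 6]]), (4, [(3, 6, 4), (0, 2, 4), (0, 3, 4)], [[3, 4], [4, 6]]), (5, [(0, 1, 5), (3, 6, 5), (0, 3, 5)], [[3, 5], [4, 5], [5, 6]])]),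
    (6, [0, 1, 2, 7], 1, [(6, [(1, 6, 1)], []), (2, [(0, 1, 2), (1, 6, 2)], [[1, 2]])]),
    (6, [0, 1, 3, 7], 0, [(1, [(0, 0, 1)], [[0, 1]]), (7, [(0, 0, 7), (0, 1, 7)], [[0, 7], [1, 7]])]),
    (6, [0, 3, 5, 7], 1, [(6, [(1, 6, 1)], []), (3, [(0, 1, 3), (3, 6, 3)], []), (5, [(0, 1, 5), (3, 6, 5), (0, 3, 5)], [[3, 5]]), (7, [(0, 1, 7), (3, 6, 7)], [[3, 7], [5, 7]])]),
    (6, [1, 3, 5, 7], 1, [(3, [(0, 1, 3)], [[1, 3]]), (5, [(0, 1, 5), (0, 3, 5)], [[1, 5], [3, 5]])]),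
    (6, [0, 2, 4, 5, 7], 1, [(6, [(1, 6, 1)], []), (2, [(0, 1, 2), (1, 6, 2)], []), (5, [(0, 1, 5), (3, 6, 5)], [[2, 5]]), (7, [(0, 1, 7), (3, 6, 7)], [[2, 7], [5, 7]])]),
    (7, [1, 2, 3, 4], 1, [(7, [(1, 7, 1)], []), (2, [(0, 1, 2), (3, 7, 2)], [[1, 2]]), (3, [(0, 1, 3), (3, 7, 3)], [[1, 3], [2, 3]])]),
    (7, [0, 1, 5], 0, [(7, [(1, 7, 0)], []), (1, [(0, 0, 1), (1, 7, 1)], [[0, 1]])]),
    (7, [1, 3, 5, 6], 1, [(3, [(0, 1, 3)], [[1, 3]]), (5, [(0, 1, 5), (0, 3, 5)], [[1, 5], [3, 5]])]),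
    (7, [3, 4, 5, 6], 1, [(7, [(1, 7, 1)], []), (3, [(0, 1, 3), (3, 7, 3)], []), (5, [(0, 1, 5), (3, 7, 5), (0, 3, 5)], [[3, 5]]), (6, [(0, 1, 6), (3, 7, 6)], [[3, 6], [5, 6]])]),
    (7, [0, 1, 2, 7], 0, [(7, [(1, 7, 0)], [[0, 7]]), (1, [(0, 0, 1), (1, 7, 1)], [[0, 1], [1, 7]])]),
    (7, [0, 1, 3, 7], 0, [(7, [(1, 7, 0)], [[0, 7]]), (1, [(0, 0, 1), (1, 7, 1)], [[0, 1], [1, 7]])]),
    (7, [0, 3, 5, 7], 0, [(7, [(1, 7, 0)], [[0, 7]]), (1, [(0, 0, 1), (1, 7, 1)], []), (5, [(0, 0, 5), (3, 7, 5), (0, 1, 5)], [[0, 5], [5, 7]]), (3, [(3, 7, 3), (0, 1, 3), (0, 5, 3)], [[0, 3], [3, 5], [3, 7]])]),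
    (7, [1, 3, 5, 7], 1, [(3, [(0, 1, 3)], [[1, 3]]), (5, [(0, 1, 5), (0, 3, 5)], [[1, 5], [3, 5]])]),
    (7, [0, 2, 4, 5, 7], 0, [(7, [(1, 7, 0)], [[0, 7]]), (1, [(0, 0, 1), (1, 7, 1)], []), (5, [(0, 0, 5), (3, 7, 5), (0, 1, 5)], [[0, 5], [5, 7]]), (2, [(3, 7, 2), (0, 1, 2)], [[0, 2], [2, 5]])]),
    (8, [1, 2, 3, 4], 1, [(2, [(0, 1, 2)], [[1, 2]]), (3, [(0, 1, 3)], [[1, 3], [2, 3]]), (4, [(0, 2, 4), (0, 3, 4)], [[1, 4], [2, 4], [3, 4]])]),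
    (8, [0, 1, 5], 0, [(1, [(0, 0, 1)], [[0, 1]]), (5, [(0, 0, 5), (0, 1, 5)], [[0, 5], [1, 5]])]),
    (8, [1, 3, 5, 6], 1, [(3, [(0, 1, 3)], [[1, 3]]), (5, [(0, 1, 5), (0, 3, 5)], [[1, 5], [3, 5]])]),
    (8, [3, 4, 5, 6], 3, [(4, [(0, 3, 4)], [[3, 4]]), (5, [(0, 3, 5)], [[3, 5], [4, 5]]), (1, [(0, 3, 1), (0, 5, 1)], []), (2, [(0, 4, 2), (0, 1, 2)], []), (6, [(0, 1, 6), (0, 2, 6)], [[3, 6], [4, 6], [5, 6]])]),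
    (8, [0, 1, 2, 7], 0, [(1, [(0, 0, 1)], [[0, 1]]), (7, [(0, 0, 7), (0, 1, 7)], [[0, 7], [1, 7]])]),
    (8, [0, 1, 3, 7], 0, [(1, [(0, 0, 1)], [[0, 1]]), (7, [(0, 0, 7), (0, 1, 7)], [[0, 7], [1, 7]])]),
    (8, [0, 3, 5, 7], 0, [(5, [(0, 0, 5)], [[0, 5]]), (1, [(0, 0, 1), (0, 5, 1)], []), (3, [(0, 5, 3), (0, 1, 3)], [[0, 3], [3, 5]]), (7, [(0, 0, 7), (0, 1, 7)], [[0, 7], [3, 7], [5, 7]])]),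
    (8, [1, 3, 5, 7], 1, [(3, [(0, 1, 3)], [[1, 3]]), (5, [(0, 1, 5), (0, 3, 5)], [[1, 5], [3, 5]])]),
    (8, [0, 2, 4, 5, 7], 0, [(5, [(0, 0, 5)], [[0, 5]]), (1, [(0, 0, 1), (0, 5, 1)], []), (7, [(0, 0, 7), (0, 1, 7)], [[0, 7], [5, 7]]), (2, [(0, 1, 2)], [[0, 2], [2, 5], [2, 7]])])]

def c23 : Cert where
  n := 8
  E := [(0, 1), (0, 5), (0, 7), (1, 2), (1, 3), (1, 5), (1, 6), (2, 4), (2, 6), (3, 4), (3, 5), (2, 3)]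
  non := []
  t5 := false
  g61 := false
  fam := [[2, 3, 4], [1, 3, 5], [1, 2, 6]]
  tab := [
    (0, [2, 3, 4], 2, [(3, [(0, 2, 3)], [[2, 3]]), (4, [(0, 2, 4), (0, 3, 4)], [[2, 4], [3, 4]])]),
    (0, [1, 3, 5], 0, [(1, [(1, 0, 1)], []), (5, [(1, 0, 5), (0, 1, 5)], [[1, 5]])]),
    (0, [1, 2, 6], 1, [(2, [(0, 1, 2)], [[1, 2]]), (6, [(0, 1, 6), (0, 2, 6)], [[1, 6], [2, 6]])]),
    (1, [2, 3, 4], 1, [(2, [(1, 1, 2)], []), (3, [(1, 1, 3), (0, 2, 3)], [[2, 3]])]),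
    (1, [1, 3, 5], 1, [(3, [(1, 1, 3)], [[1, 3]]), (5, [(1, 1, 5), (0, 3, 5)], [[3, 5]])]),
    (1, [1, 2, 6], 1, [(2, [(1, 1, 2)], [[1, 2]]), (6, [(1, 1, 6), (0, 2, 6)], [[2, 6]])]),
    (2, [2, 3, 4], 2, [(3, [(1, 2, 3)], [[2, 3]]), (4, [(1, 2, 4), (0, 3, 4)], [[3, 4]])]),
    (2, [1, 3, 5], 1, [(2, [(1, 2, 1)], []), (3, [(0, 1, 3), (1, 2, 3)], [[1, 3]])]),
    (2, [1, 2, 6], 1, [(2, [(1, 2, 1)], [[1, 2]]), (6, [(0, 1, 6), (1, 2, 6)], [[1, 6]])]),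
    (3, [2, 3, 4], 2, [(3, [(1, 3, 2)], [[2, 3]]), (4, [(0, 2, 4), (1, 3, 4)], [[2, 4]])]),
    (3, [1, 3, 5], 1, [(3, [(1, 3, 1)], [[1, 3]]), (5, [(0, 1, 5), (1, 3, 5)], [[1, 5]])]),
    (3, [1, 2, 6], 1, [(3, [(1, 3, 1)], []), (2, [(0, 1, 2), (1, 3, 2)], [[1, 2]])]),
    (4, [2, 3, 4], 2, [(4, [(1, 4, 2)], [[2, 4]]), (3, [(0, 2, 3), (1, 4, 3)], [[2, 3], [3, 4]])]),
    (4, [1, 3, 5], 1, [(3, [(0, 1, 3)], [[1, 3]]), (5, [(0, 1, 5), (0, 3, 5)], [[1, 5], [3, 5]])]),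
    (4, [1, 2, 6], 1, [(2, [(0, 1, 2)], [[1, 2]]), (6, [(0, 1, 6), (0, 2, 6)], [[1, 6], [2, 6]])]),
    (5, [2, 3, 4], 2, [(3, [(0, 2, 3)], [[2, 3]]), (4, [(0, 2, 4), (0, 3, 4)], [[2, 4], [3, 4]])]),
    (5, [1, 3, 5], 1, [(5, [(1, 5, 1)], [[1, 5]]), (3, [(0, 1, 3), (1, 5, 3)], [[1, 3], [3, 5]])]),
    (5, [1, 2, 6], 1, [(2, [(0, 1, 2)], [[1, 2]]), (6, [(0, 1, 6), (0, 2, 6)], [[1, 6], [2, 6]])]),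
    (6, [2, 3, 4], 2, [(3, [(0, 2, 3)], [[2, 3]]), (4, [(0, 2, 4), (0, 3, 4)], [[2, 4], [3, 4]])]),
    (6, [1, 3, 5], 1, [(3, [(0, 1, 3)], [[1, 3]]), (5, [(0, 1, 5), (0, 3, 5)], [[1, 5], [3, 5]])]),
    (6, [1, 2, 6], 1, [(6, [(1, 6, 1)], [[1, 6]]), (2, [(0, 1, 2), (1, 6, 2)], [[1, 2], [2, 6]])]),
    (7, [2, 3, 4], 2, [(3, [(0, 2, 3)], [[2, 3]]), (4, [(0, 2, 4), (0, 3, 4)], [[2, 4], [3, 4]])]),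
    (7, [1, 3, 5], 1, [(3, [(0, 1, 3)], [[1, 3]]), (5, [(0, 1, 5), (0, 3, 5)], [[1, 5], [3, 5]])]),
    (7, [1, 2, 6], 1, [(2, [(0, 1, 2)], [[1, 2]]), (6, [(0, 1, 6), (0, 2, 6)], [[1, 6], [2, 6]])]),
    (8, [2, 3, 4], 2, [(3, [(0, 2, 3)], [[2, 3]]), (4, [(0, 2, 4), (0, 3, 4)], [[2, 4], [3, 4]])]),
    (8, [1, 3, 5], 1, [(3, [(0, 1, 3)], [[1, 3]]), (5, [(0, 1, 5), (0, 3, 5)], [[1, 5], [3, 5]])]),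
    (8, [1, 2, 6], 1, [(2, [(0, 1, 2)], [[1, 2]]), (6, [(0, 1, 6), (0, 2, 6)], [[1, 6], [2, 6]])])]

def c37 : Cert where
  n := 8
  E := [(0, 1), (0, 5), (0, 7), (1, 2), (1, 3), (1, 5), (1, 6), (2, 4), (2, 6), (3, 4), (3, 5), (3, 7)]
  non := []
  t5 := false
  g61 := false
  fam := [[0, 1, 5], [1, 3, 5], [0, 2, 3, 7], [0, 1, 4, 7], [1, 3, 4, 7], [0, 3, 5, 7], [3, 4, 5, 7]]
  tab := [
    (0, [0, 1, 5], 0, [(1, [(1, 0, 1)], [[0, 1]]), (5, [(1, 0, 5), (0, 1, 5)], [[0, 5], [1, 5]])]),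
    (0, [1, 3, 5], 0, [(1, [(1, 0, 1)], []), (5, [(1, 0, 5), (0, 1, 5)], [[1, 5]])]),
    (0, [0, 2, 3, 7], 0, [(7, [(1, 0, 7)], [[0, 7]]), (1, [(1, 0, 1)], []), (3, [(3, 0, 3), (0, 7, 3), (0, 1, 3)], [[0, 3], [3, 7]]), (2, [(3, 0, 2), (0, 1, 2)], [[2, 3], [2, 7]])]),
    (0, [0, 1, 4, 7], 0, [(1, [(1, 0, 1)], [[0, 1]]), (7, [(1, 0, 7)], [[0, 7], [1, 7]])]),
    (0, [1, 3, 4, 7], 0, [(1, [(1, 0, 1)], []), (7, [(1, 0, 7)], [[1, 7]])]),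
    (0, [0, 3, 5, 7], 0, [(5, [(1, 0, 5)], [[0, 5]]), (7, [(1, 0, 7)], [[0, 7], [5, 7]])]),
    (0, [3, 4, 5, 7], 0, [(5, [(1, 0, 5)], []), (7, [(1, 0, 7)], [[5, 7]])]),
    (1, [0, 1, 5], 0, [(1, [(1, 1, 0)], [[0, 1]]), (5, [(0, 0, 5), (1, 1, 5)], [[0, 5]])]),
    (1, [1, 3, 5], 1, [(3, [(1, 1, 3)], [[1, 3]]), (5, [(1, 1, 5), (0, 3, 5)], [[3, 5]])]),
    (1, [0, 2, 3, 7], 1, [(2, [(1, 1, 2)], []), (3, [(1, 1, 3)], [[2, 3]])]),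
    (1, [0, 1, 4, 7], 0, [(1, [(1, 1, 0)], [[0, 1]]), (3, [(1, 1, 3)], []), (7, [(0, 0, 7), (3, 1, 7), (0, 3, 7)], [[0, 7], [1, 7]]), (4, [(3, 1, 4), (0, 3, 4)], [[0, 4], [4, 7]])]),
    (1, [1, 3, 4, 7], 1, [(3, [(1, 1, 3)], [[1, 3]]), (7, [(3, 1, 7), (0, 3, 7)], [[1, 7], [3, 7]]), (4, [(3, 1, 4), (0, 3, 4)], [[3, 4], [4, 7]])]),
    (1, [0, 3, 5, 7], 1, [(3, [(1, 1, 3)], []), (5, [(1, 1, 5), (0, 3, 5)], [[3, 5]])]),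
    (1, [3, 4, 5, 7], 1, [(3, [(1, 1, 3)], []), (5, [(1, 1, 5), (0, 3, 5)], [[3, 5]])]),
    (2, [0, 1, 5], 0, [(1, [(0, 0, 1)], [[0, 1]]), (5, [(0, 0, 5), (0, 1, 5)], [[0, 5], [1, 5]])]),
    (2, [1, 3, 5], 1, [(3, [(0, 1, 3)], [[1, 3]]), (5, [(0, 1, 5), (0, 3, 5)], [[1, 5], [3, 5]])]),
    (2, [0, 2, 3, 7], 1, [(2, [(1, 2, 1)], []), (0, [(0, 1, 0), (3, 2, 0)], [[0, 2]]), (3, [(0, 1, 3), (3, 2, 3)], [[0, 3], [2, 3]]), (7, [(3, 2, 7), (0, 0, 7), (0, 3, 7)], [[0, 7], [2, 7], [3, 7]])]),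
    (2, [0, 1, 4, 7], 1, [(2, [(1, 2, 1)], []), (4, [(1, 2, 4)], [[1, 4]])]),
    (2, [1, 3, 4, 7], 1, [(2, [(1, 2, 1)], []), (4, [(1, 2, 4)], [[1, 4]])]),
    (2, [0, 3, 5, 7], 0, [(5, [(0, 0, 5)], [[0, 5]]), (3, [(0, 5, 3)], [[0, 3], [3, 5]]), (7, [(0, 0, 7), (0, 3, 7)], [[0, 7], [3, 7], [5, 7]])]),
    (2, [3, 4, 5, 7], 1, [(2, [(1, 2, 1)], []), (4, [(1, 2, 4)], []), (3, [(0, 1, 3), (3, 2, 3), (0, 4, 3)], [[3, 4]]), (5, [(0, 1, 5), (3, 2, 5), (0, 3, 5)], [[3, 5], [4, 5]])]),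
    (3, [0, 1, 5], 1, [(3, [(1, 3, 1)], []), (5, [(0, 1, 5), (1, 3, 5)], [[1, 5]])]),
    (3, [1, 3, 5], 1, [(3, [(1, 3, 1)], [[1, 3]]), (5, [(0, 1, 5), (1, 3, 5)], [[1, 5], [3, 5]])]),
    (3, [0, 2, 3, 7], 3, [(7, [(1, 3, 7)], [[3, 7]]), (4, [(1, 3, 4)], []), (0, [(3, 3, 0), (0, 7, 0)], [[0, 3], [0, 7]]), (2, [(3, 3, 2), (0, 4, 2)], [[0, 2], [2, 7]])]),
    (3, [0, 1, 4, 7], 1, [(3, [(1, 3, 1)], []), (7, [(1, 3, 7)], [[1, 7]])]),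
    (3, [1, 3, 4, 7], 1, [(3, [(1, 3, 1)], [[1, 3]]), (7, [(1, 3, 7)], [[1, 7], [3, 7]])]),
    (3, [0, 3, 5, 7], 3, [(5, [(1, 3, 5)], [[3, 5]]), (7, [(1, 3, 7)], [[3, 7], [5, 7]])]),
    (3, [3, 4, 5, 7], 3, [(5, [(1, 3, 5)], [[3, 5]]), (7, [(1, 3, 7)], [[3, 7], [5, 7]])]),
    (4, [0, 1, 5], 0, [(1, [(0, 0, 1)], [[0, 1]]), (5, [(0, 0, 5), (0, 1, 5)], [[0, 5], [1, 5]])]),
    (4, [1, 3, 5], 1, [(3, [(0, 1, 3)], [[1, 3]]), (5, [(0, 1, 5), (0, 3, 5)], [[1, 5], [3, 5]])]),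
    (4, [0, 2, 3, 7], 2, [(4, [(1, 4, 2)], []), (3, [(1, 4, 3)], [[2, 3]])]),
    (4, [0, 1, 4, 7], 3, [(4, [(1, 4, 3)], []), (1, [(0, 3, 1), (3, 4, 1)], [[1, 4]]), (0, [(3, 4, 0), (0, 1, 0)], [[0, 1], [0, 4]]), (7, [(0, 3, 7), (3, 4, 7), (0, 0, 7)], [[0, 7], [1, 7], [4, 7]])]),
    (4, [1, 3, 4, 7], 3, [(4, [(1, 4, 3)], [[3, 4]]), (1, [(0, 3, 1), (3, 4, 1)], [[1, 3], [1, 4]]), (7, [(0, 3, 7), (3, 4, 7)], [[1, 7], [3, 7], [4, 7]])]),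
    (4, [0, 3, 5, 7], 3, [(4, [(1, 4, 3)], []), (5, [(0, 3, 5), (3, 4, 5)], [[3, 5]]), (7, [(0, 3, 7), (3, 4, 7)], [[3, 7], [5, 7]])]),
    (4, [3, 4, 5, 7], 3, [(4, [(1, 4, 3)], [[3, 4]]), (5, [(0, 3, 5), (3, 4, 5)], [[3, 5], [4, 5]]), (7, [(0, 3, 7), (3, 4, 7)], [[3, 7], [4, 7], [5, 7]])]),
    (5, [0, 1, 5], 0, [(5, [(1, 5, 0)], []), (1, [(0, 0, 1), (1, 5, 1)], [[0, 1]])]),
    (5, [1, 3, 5], 1, [(5, [(1, 5, 1)], []), (3, [(0, 1, 3), (1, 5, 3)], [[1, 3], [3, 5]])]),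
    (5, [0, 2, 3, 7], 0, [(5, [(1, 5, 0)], []), (3, [(1, 5, 3)], [[0, 3]])]),
    (5, [0, 1, 4, 7], 0, [(5, [(1, 5, 0)], []), (1, [(0, 0, 1), (1, 5, 1)], [[0, 1]])]),
    (5, [1, 3, 4, 7], 1, [(5, [(1, 5, 1)], []), (3, [(0, 1, 3), (1, 5, 3)], [[1, 3]])]),
    (5, [0, 3, 5, 7], 0, [(5, [(1, 5, 0)], []), (3, [(1, 5, 3)], [[0, 3], [3, 5]])]),
    (5, [3, 4, 5, 7], 3, [(5, [(1, 5, 3)], [[3, 5]]), (4, [(0, 3, 4), (3, 5, 4)], [[3, 4]]), (7, [(0, 3, 7), (3, 5, 7)], [[3, 7], [4, 7]])]),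
    (6, [0, 1, 5], 0, [(1, [(0, 0, 1)], [[0, 1]]), (5, [(0, 0, 5), (0, 1, 5)], [[0, 5], [1, 5]])]),
    (6, [1, 3, 5], 1, [(3, [(0, 1, 3)], [[1, 3]]), (5, [(0, 1, 5), (0, 3, 5)], [[1, 5], [3, 5]])]),
    (6, [0, 2, 3, 7], 1, [(6, [(1, 6, 1)], []), (2, [(0, 1, 2), (1, 6, 2)], []), (0, [(0, 1, 0), (3, 6, 0)], [[0, 2]]), (3, [(0, 1, 3), (3, 6, 3)], [[0, 3], [2, 3]])]),
    (6, [0, 1, 4, 7], 1, [(6, [(1, 6, 1)], []), (2, [(0, 1, 2), (1, 6, 2)], []), (0, [(0, 1, 0), (3, 6, 0)], [[0, 1]]), (4, [(3, 6, 4), (0, 2, 4)], [[0, 4], [1, 4]])]),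
    (6, [1, 3, 4, 7], 1, [(6, [(1, 6, 1)], []), (3, [(0, 1, 3), (3, 6, 3)], [[1, 3]]), (4, [(3, 6, 4), (0, 3, 4)], [[1, 4], [3, 4]]), (7, [(3, 6, 7), (0, 3, 7)], [[1, 7], [3, 7], [4, 7]])]),
    (6, [0, 3, 5, 7], 0, [(5, [(0, 0, 5)], [[0, 5]]), (3, [(0, 5, 3)], [[0, 3], [3, 5]]), (7, [(0, 0, 7), (0, 3, 7)], [[0, 7], [3, 7], [5, 7]])]),
    (6, [3, 4, 5, 7], 3, [(4, [(0, 3, 4)], [[3, 4]]), (5, [(0, 3, 5)], [[3, 5], [4, 5]]), (7, [(0, 3, 7)], [[3, 7], [4, 7], [5, 7]])]),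
    (7, [0, 1, 5], 0, [(1, [(0, 0, 1)], [[0, 1]]), (5, [(0, 0, 5), (0, 1, 5)], [[0, 5], [1, 5]])]),
    (7, [1, 3, 5], 1, [(3, [(0, 1, 3)], [[1, 3]]), (5, [(0, 1, 5), (0, 3, 5)], [[1, 5], [3, 5]])]),
    (7, [0, 2, 3, 7], 0, [(7, [(1, 7, 0)], [[0, 7]]), (3, [(1, 7, 3)], [[0, 3], [3, 7]])]),
    (7, [0, 1, 4, 7], 0, [(7, [(1, 7, 0)], [[0, 7]]), (3, [(1, 7, 3)], []), (1, [(0, 0, 1), (3, 7, 1), (0, 3, 1)], [[0, 1], [1, 7]]), (4, [(3, 7, 4), (0, 3, 4)], [[0, 4], [1, 4]])]),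
    (7, [1, 3, 4, 7], 3, [(7, [(1, 7, 3)], [[3, 7]]), (1, [(0, 3, 1), (3, 7, 1)], [[1, 3], [1, 7]]), (4, [(0, 3, 4), (3, 7, 4)], [[1, 4], [3, 4]])]),
    (7, [0, 3, 5, 7], 0, [(7, [(1, 7, 0)], [[0, 7]]), (3, [(1, 7, 3)], [[0, 3], [3, 7]])]),
    (7, [3, 4, 5, 7], 3, [(7, [(1, 7, 3)], [[3, 7]]), (5, [(0, 3, 5), (3, 7, 5)], [[3, 5], [5, 7]]), (4, [(0, 3, 4), (3, 7, 4)], [[3, 4], [4, 5]])]),
    (8, [0, 1, 5], 0, [(1, [(0, 0, 1)], [[0, 1]]), (5, [(0, 0, 5), (0, 1, 5)], [[0, 5], [1, 5]])]),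
    (8, [1, 3, 5], 1, [(3, [(0, 1, 3)], [[1, 3]]), (5, [(0, 1, 5), (0, 3, 5)], [[1, 5], [3, 5]])]),
    (8, [0, 2, 3, 7], 0, [(7, [(0, 0, 7)], [[0, 7]]), (3, [(0, 7, 3)], [[0, 3], [3, 7]]), (1, [(0, 0, 1), (0, 3, 1)], []), (2, [(0, 1, 2)], [[0, 2], [2, 3], [2, 7]])]),
    (8, [0, 1, 4, 7], 0, [(1, [(0, 0, 1)], [[0, 1]]), (7, [(0, 0, 7)], [[0, 7], [1, 7]]), (3, [(0, 1, 3), (0, 7, 3)], []), (4, [(0, 3, 4)], [[0, 4], [1, 4], [4, 7]])]),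
    (8, [1, 3, 4, 7], 1, [(3, [(0, 1, 3)], [[1, 3]]), (4, [(0, 3, 4)], [[1, 4], [3, 4]]), (7, [(0, 3, 7)], [[1, 7], [3, 7], [4, 7]])]),
    (8, [0, 3, 5, 7], 0, [(5, [(0, 0, 5)], [[0, 5]]), (3, [(0, 5, 3)], [[0, 3], [3, 5]]), (7, [(0, 0, 7), (0, 3, 7)], [[0, 7], [3, 7], [5, 7]])]),
    (8, [3, 4, 5, 7], 3, [(4, [(0, 3, 4)], [[3, 4]]), (5, [(0, 3, 5)], [[3, 5], [4, 5]]), (7, [(0, 3, 7)], [[3, 7], [4, 7], [5, 7]])])]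

def c46 : Cert where
  n := 8
  E := [(0, 1), (0, 5), (0, 7), (1, 2), (1, 3), (1, 5), (1, 6), (2, 4), (2, 6), (3, 4), (3, 5), (4, 6)]
  non := []
  t5 := false
  g61 := false
  fam := [[1, 2, 3, 4], [1, 2, 6], [2, 4, 6], [1, 3, 4, 6]]
  tab := [
    (0, [1, 2, 3, 4], 1, [(2, [(0, 1, 2)], [[1, 2]]), (3, [(0, 1, 3)], [[1, 3], [2, 3]]), (4, [(0, 2, 4), (0, 3, 4)], [[1, 4], [2, 4], [3, 4]])]),
    (0, [1, 2, 6], 1, [(2, [(0, 1, 2)], [[1, 2]]), (6, [(0, 1, 6), (0, 2, 6)], [[1, 6], [2, 6]])]),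
    (0, [2, 4, 6], 2, [(4, [(0, 2, 4)], [[2, 4]]), (6, [(0, 2, 6), (0, 4, 6)], [[2, 6], [4, 6]])]),
    (0, [1, 3, 4, 6], 1, [(3, [(0, 1, 3)], [[1, 3]]), (4, [(0, 3, 4)], [[1, 4], [3, 4]]), (6, [(0, 1, 6), (0, 4, 6)], [[1, 6], [3, 6], [4, 6]])]),
    (1, [1, 2, 3, 4], 1, [(2, [(1, 1, 2)], [[1, 2]]), (3, [(1, 1, 3)], [[1, 3], [2, 3]])]),
    (1, [1, 2, 6], 1, [(2, [(1, 1, 2)], [[1, 2]]), (6, [(1, 1, 6), (0, 2, 6)], [[1, 6], [2, 6]])]),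
    (1, [2, 4, 6], 1, [(2, [(1, 1, 2)], []), (6, [(1, 1, 6), (0, 2, 6)], [[2, 6]])]),
    (1, [1, 3, 4, 6], 1, [(3, [(1, 1, 3)], [[1, 3]]), (6, [(1, 1, 6)], [[1, 6], [3, 6]])]),
    (2, [1, 2, 3, 4], 1, [(2, [(1, 2, 1)], [[1, 2]]), (4, [(1, 2, 4)], [[1, 4], [2, 4]])]),
    (2, [1, 2, 6], 1, [(2, [(1, 2, 1)], [[1, 2]]), (6, [(0, 1, 6), (1, 2, 6)], [[1, 6]])]),
    (2, [2, 4, 6], 2, [(4, [(1, 2, 4)], [[2, 4]]), (6, [(1, 2, 6), (0, 4, 6)], [[4, 6]])]),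
    (2, [1, 3, 4, 6], 2, [(4, [(1, 2, 4)], []), (6, [(1, 2, 6), (0, 4, 6)], [[4, 6]])]),
    (3, [1, 2, 3, 4], 1, [(3, [(1, 3, 1)], [[1, 3]]), (4, [(1, 3, 4)], [[1, 4], [3, 4]])]),
    (3, [1, 2, 6], 1, [(2, [(0, 1, 2)], [[1, 2]]), (6, [(0, 1, 6), (0, 2, 6)], [[1, 6], [2, 6]])]),
    (3, [2, 4, 6], 2, [(4, [(0, 2, 4)], [[2, 4]]), (6, [(0, 2, 6), (0, 4, 6)], [[2, 6], [4, 6]])]),
    (3, [1, 3, 4, 6], 1, [(3, [(1, 3, 1)], [[1, 3]]), (4, [(1, 3, 4)], [[1, 4], [3, 4]])]),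
    (4, [1, 2, 3, 4], 2, [(4, [(1, 4, 2)], [[2, 4]]), (3, [(1, 4, 3)], [[2, 3], [3, 4]])]),
    (4, [1, 2, 6], 2, [(4, [(1, 4, 2)], []), (6, [(0, 2, 6), (1, 4, 6)], [[2, 6]])]),
    (4, [2, 4, 6], 2, [(4, [(1, 4, 2)], [[2, 4]]), (6, [(0, 2, 6), (1, 4, 6)], [[2, 6], [4, 6]])]),
    (4, [1, 3, 4, 6], 3, [(4, [(1, 4, 3)], [[3, 4]]), (6, [(1, 4, 6)], [[3, 6], [4, 6]])]),
    (5, [1, 2, 3, 4], 1, [(5, [(1, 5, 1)], []), (3, [(0, 1, 3), (1, 5, 3)], [[1, 3]])]),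
    (5, [1, 2, 6], 1, [(2, [(0, 1, 2)], [[1, 2]]), (6, [(0, 1, 6), (0, 2, 6)], [[1, 6], [2, 6]])]),
    (5, [2, 4, 6], 2, [(4, [(0, 2, 4)], [[2, 4]]), (6, [(0, 2, 6), (0, 4, 6)], [[2, 6], [4, 6]])]),
    (5, [1, 3, 4, 6], 1, [(5, [(1, 5, 1)], []), (3, [(0, 1, 3), (1, 5, 3)], [[1, 3]])]),
    (6, [1, 2, 3, 4], 2, [(6, [(1, 6, 2)], []), (4, [(0, 2, 4), (1, 6, 4)], [[2, 4]])]),
    (6, [1, 2, 6], 1, [(6, [(1, 6, 1)], [[1, 6]]), (2, [(0, 1, 2), (1, 6, 2)], [[1, 2]])]),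
    (6, [2, 4, 6], 2, [(6, [(1, 6, 2)], []), (4, [(0, 2, 4), (1, 6, 4)], [[2, 4], [4, 6]])]),
    (6, [1, 3, 4, 6], 1, [(6, [(1, 6, 1)], [[1, 6]]), (4, [(1, 6, 4)], [[1, 4], [4, 6]])]),
    (7, [1, 2, 3, 4], 1, [(2, [(0, 1, 2)], [[1, 2]]), (3, [(0, 1, 3)], [[1, 3], [2, 3]]), (4, [(0, 2, 4), (0, 3, 4)], [[1, 4], [2, 4], [3, 4]])]),
    (7, [1, 2, 6], 1, [(2, [(0, 1, 2)], [[1, 2]]), (6, [(0, 1, 6), (0, 2, 6)], [[1, 6], [2, 6]])]),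
    (7, [2, 4, 6], 2, [(4, [(0, 2, 4)], [[2, 4]]), (6, [(0, 2, 6), (0, 4, 6)], [[2, 6], [4, 6]])]),
    (7, [1, 3, 4, 6], 1, [(3, [(0, 1, 3)], [[1, 3]]), (4, [(0, 3, 4)], [[1, 4], [3, 4]]), (6, [(0, 1, 6), (0, 4, 6)], [[1, 6], [3, 6], [4, 6]])]),
    (8, [1, 2, 3, 4], 1, [(2, [(0, 1, 2)], [[1, 2]]), (3, [(0, 1, 3)], [[1, 3], [2, 3]]), (4, [(0, 2, 4), (0, 3, 4)], [[1, 4], [2, 4], [3, 4]])]),
    (8, [1, 2, 6], 1, [(2, [(0, 1, 2)], [[1, 2]]), (6, [(0, 1, 6), (0, 2, 6)], [[1, 6], [2, 6]])]),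
    (8, [2, 4, 6], 2, [(4, [(0, 2, 4)], [[2, 4]]), (6, [(0, 2, 6), (0, 4, 6)], [[2, 6], [4, 6]])]),
    (8, [1, 3, 4, 6], 1, [(3, [(0, 1, 3)], [[1, 3]]), (4, [(0, 3, 4)], [[1, 4], [3, 4]]), (6, [(0, 1, 6), (0, 4, 6)], [[1, 6], [3, 6], [4, 6]])])]

def c67 : Cert where
  n := 8
  E := [(0, 1), (0, 5), (0, 7), (1, 2), (1, 3), (1, 5), (1, 6), (2, 4), (2, 6), (3, 4), (3, 5), (6, 7)]
  non := []
  t5 := false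
  g61 := false
  fam := [[1, 2, 3, 4], [0, 1, 2, 5], [0, 1, 3, 5], [1, 3, 5, 6], [3, 4, 5, 6], [0, 1, 3, 4, 7], [0, 2, 5, 7], [0, 3, 4, 5, 7], [0, 1, 6, 7]]
  tab := [
    (0, [1, 2, 3, 4], 1, [(2, [(0, 1, 2)], [[1, 2]]), (3, [(0, 1, 3)], [[1, 3], [2, 3]]), (4, [(0, 2, 4), (0, 3, 4)], [[1, 4], [2, 4], [3, 4]])]),
    (0, [0, 1, 2, 5], 0, [(1, [(1, 0, 1)], [[0, 1]]), (5, [(1, 0, 5), (0, 1, 5)], [[1, 5]])]),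
    (0, [0, 1, 3, 5], 0, [(1, [(1, 0, 1)], [[0, 1]]), (5, [(1, 0, 5), (0, 1, 5)], [[1, 5]])]),
    (0, [1, 3, 5, 6], 0, [(1, [(1, 0, 1)], []), (5, [(1, 0, 5), (0, 1, 5)], [[1, 5]])]),
    (0, [3, 4, 5, 6], 0, [(5, [(1, 0, 5)], []), (7, [(1, 0, 7)], []), (6, [(3, 0, 6), (0, 7, 6)], [[5, 6]]), (3, [(3, 0, 3), (0, 5, 3)], [[3, 6]]), (4, [(3, 0, 4), (0, 3, 4)], [[3, 4], [4, 5], [4, 6]])]),
    (0, [0, 1, 3, 4, 7], 0, [(1, [(1, 0, 1)], [[0, 1]]), (7, [(1, 0, 7)], [[1, 7]])]),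
    (0, [0, 2, 5, 7], 0, [(5, [(1, 0, 5)], []), (7, [(1, 0, 7)], [[5, 7]])]),
    (0, [0, 3, 4, 5, 7], 0, [(5, [(1, 0, 5)], []), (7, [(1, 0, 7)], [[5, 7]])]),
    (0, [0, 1, 6, 7], 0, [(1, [(1, 0, 1)], [[0, 1]]), (7, [(1, 0, 7)], [[1, 7]])]),
    (1, [1, 2, 3, 4], 1, [(2, [(1, 1, 2)], [[1, 2]]), (3, [(1, 1, 3)], [[1, 3], [2, 3]])]),
    (1, [0, 1, 2, 5], 1, [(2, [(1, 1, 2)], [[1, 2]]), (5, [(1, 1, 5)], [[2, 5]])]),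
    (1, [0, 1, 3, 5], 0, [(1, [(1, 1, 0)], [[0, 1]]), (3, [(1, 1, 3)], [[0, 3], [1, 3]])]),
    (1, [1, 3, 5, 6], 1, [(6, [(1, 1, 6)], [[1, 6]]), (5, [(1, 1, 5)], [[5, 6]])]),
    (1, [3, 4, 5, 6], 1, [(5, [(1, 1, 5)], []), (6, [(1, 1, 6)], [[5, 6]])]),
    (1, [0, 1, 3, 4, 7], 0, [(1, [(1, 1, 0)], [[0, 1]]), (3, [(1, 1, 3)], [[0, 3], [1, 3]])]),
    (1, [0, 2, 5, 7], 1, [(2, [(1, 1, 2)], []), (5, [(1, 1, 5)], [[2, 5]])]),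
    (1, [0, 3, 4, 5, 7], 0, [(1, [(1, 1, 0)], []), (3, [(1, 1, 3)], [[0, 3]])]),
    (1, [0, 1, 6, 7], 0, [(1, [(1, 1, 0)], [[0, 1]]), (6, [(1, 1, 6)], [[0, 6], [1, 6]])]),
    (2, [1, 2, 3, 4], 1, [(2, [(1, 2, 1)], [[1, 2]]), (4, [(1, 2, 4)], [[1, 4]])]),
    (2, [0, 1, 2, 5], 0, [(1, [(0, 0, 1)], [[0, 1]]), (5, [(0, 0, 5), (0, 1, 5)], [[0, 5], [1, 5]])]),
    (2, [0, 1, 3, 5], 1, [(3, [(0, 1, 3)], [[1, 3]]), (5, [(0, 1, 5), (0, 3, 5)], [[1, 5], [3, 5]])]),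
    (2, [1, 3, 5, 6], 1, [(2, [(1, 2, 1)], []), (6, [(0, 1, 6), (1, 2, 6)], [[1, 6]])]),
    (2, [3, 4, 5, 6], 1, [(2, [(1, 2, 1)], []), (6, [(0, 1, 6), (1, 2, 6)], []), (3, [(0, 1, 3), (3, 2, 3)], [[3, 6]]), (5, [(0, 1, 5), (3, 2, 5), (0, 3, 5)], [[3, 5], [5, 6]])]),
    (2, [0, 1, 3, 4, 7], 1, [(2, [(1, 2, 1)], []), (4, [(1, 2, 4)], [[1, 4]])]),
    (2, [0, 2, 5, 7], 1, [(2, [(1, 2, 1)], []), (6, [(0, 1, 6), (1, 2, 6)], []), (0, [(0, 1, 0), (3, 2, 0)], [[0, 2]]), (5, [(0, 1, 5), (3, 2, 5), (0, 0, 5)], [[0, 5], [2, 5]]), (7, [(3, 2, 7), (0, 6, 7), (0, 0, 7)], [[0, 7], [2, 7], [5, 7]])]),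
    (2, [0, 3, 4, 5, 7], 1, [(2, [(1, 2, 1)], []), (4, [(1, 2, 4)], []), (0, [(0, 1, 0), (3, 2, 0)], [[0, 4]]), (5, [(0, 1, 5), (3, 2, 5), (0, 0, 5)], [[0, 5], [4, 5]])]),
    (2, [0, 1, 6, 7], 1, [(2, [(1, 2, 1)], []), (6, [(0, 1, 6), (1, 2, 6)], [[1, 6]])]),
    (3, [1, 2, 3, 4], 1, [(3, [(1, 3, 1)], [[1, 3]]), (4, [(1, 3, 4)], [[1, 4]])]),
    (3, [0, 1, 2, 5], 1, [(3, [(1, 3, 1)], []), (5, [(0, 1, 5), (1, 3, 5)], [[1, 5]])]),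
    (3, [0, 1, 3, 5], 1, [(3, [(1, 3, 1)], [[1, 3]]), (5, [(0, 1, 5), (1, 3, 5)], [[1, 5]])]),
    (3, [1, 3, 5, 6], 1, [(3, [(1, 3, 1)], [[1, 3]]), (5, [(0, 1, 5), (1, 3, 5)], [[1, 5]])]),
    (3, [3, 4, 5, 6], 3, [(4, [(1, 3, 4)], []), (5, [(1, 3, 5)], [[4, 5]])]),
    (3, [0, 1, 3, 4, 7], 1, [(3, [(1, 3, 1)], [[1, 3]]), (4, [(1, 3, 4)], [[1, 4]])]),
    (3, [0, 2, 5, 7], 3, [(4, [(1, 3, 4)], []), (5, [(1, 3, 5)], []), (2, [(3, 3, 2), (0, 4, 2)], [[2, 5]]), (0, [(3, 3, 0), (0, 5, 0)], [[0, 2]]), (7, [(3, 3, 7), (0, 0, 7)], [[0, 7], [2, 7], [5, 7]])]),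
    (3, [0, 3, 4, 5, 7], 3, [(4, [(1, 3, 4)], []), (5, [(1, 3, 5)], [[4, 5]])]),
    (3, [0, 1, 6, 7], 0, [(1, [(0, 0, 1)], [[0, 1]]), (6, [(0, 1, 6)], [[0, 6], [1, 6]]), (7, [(0, 0, 7), (0, 6, 7)], [[0, 7], [1, 7], [6, 7]])]),
    (4, [1, 2, 3, 4], 2, [(4, [(1, 4, 2)], []), (3, [(1, 4, 3)], [[2, 3]])]),
    (4, [0, 1, 2, 5], 0, [(1, [(0, 0, 1)], [[0, 1]]), (5, [(0, 0, 5), (0, 1, 5)], [[0, 5], [1, 5]])]),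
    (4, [0, 1, 3, 5], 1, [(3, [(0, 1, 3)], [[1, 3]]), (5, [(0, 1, 5), (0, 3, 5)], [[1, 5], [3, 5]])]),
    (4, [1, 3, 5, 6], 1, [(3, [(0, 1, 3)], [[1, 3]]), (5, [(0, 1, 5), (0, 3, 5)], [[1, 5], [3, 5]])]),
    (4, [3, 4, 5, 6], 2, [(4, [(1, 4, 2)], []), (3, [(1, 4, 3)], []), (5, [(3, 4, 5), (0, 3, 5)], [[3, 5], [4, 5]]), (6, [(0, 2, 6), (3, 4, 6)], [[3, 6], [5, 6]])]),
    (4, [0, 1, 3, 4, 7], 2, [(4, [(1, 4, 2)], []), (3, [(1, 4, 3)], []), (1, [(0, 2, 1), (3, 4, 1), (0, 3, 1)], [[1, 3], [1, 4]]), (6, [(0, 2, 6), (3, 4, 6), (0, 1, 6)], []), (0, [(3, 4, 0), (0, 1, 0)], [[0, 1], [0, 3], [0, 4]]), (7, [(3, 4, 7), (0, 6, 7), (0, 0, 7)], [[0, 7], [1, 7], [3, 7]])]),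
    (4, [0, 2, 5, 7], 2, [(4, [(1, 4, 2)], []), (3, [(1, 4, 3)], []), (5, [(3, 4, 5), (0, 3, 5)], [[2, 5]]), (0, [(3, 4, 0), (0, 5, 0)], [[0, 2], [0, 5]]), (7, [(3, 4, 7), (0, 0, 7)], [[0, 7], [2, 7], [5, 7]]), (6, [(0, 2, 6), (3, 4, 6), (0, 7, 6)], [])]),
    (4, [0, 3, 4, 5, 7], 2, [(4, [(1, 4, 2)], []), (3, [(1, 4, 3)], []), (5, [(3, 4, 5), (0, 3, 5)], [[3, 5], [4, 5]]), (0, [(3, 4, 0), (0, 5, 0)], [[0, 3], [0, 4], [0, 5]]), (7, [(3, 4, 7), (0, 0, 7)], [[0, 7], [3, 7], [5, 7]]), (6, [(0, 2, 6), (3, 4, 6), (0, 7, 6)], [])]),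
    (4, [0, 1, 6, 7], 0, [(1, [(0, 0, 1)], [[0, 1]]), (6, [(0, 1, 6)], [[0, 6], [1, 6]]), (7, [(0, 0, 7), (0, 6, 7)], [[0, 7], [1, 7], [6, 7]])]),
    (5, [1, 2, 3, 4], 1, [(5, [(1, 5, 1)], []), (3, [(0, 1, 3), (1, 5, 3)], [[1, 3]])]),
    (5, [0, 1, 2, 5], 0, [(5, [(1, 5, 0)], []), (1, [(0, 0, 1), (1, 5, 1)], [[0, 1]])]),
    (5, [0, 1, 3, 5], 1, [(5, [(1, 5, 1)], []), (3, [(0, 1, 3), (1, 5, 3)], [[1, 3]])]),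
    (5, [1, 3, 5, 6], 1, [(5, [(1, 5, 1)], []), (3, [(0, 1, 3), (1, 5, 3)], [[1, 3]])]),
    (5, [3, 4, 5, 6], 1, [(5, [(1, 5, 1)], []), (3, [(0, 1, 3), (1, 5, 3)], []), (4, [(3, 5, 4), (0, 3, 4)], [[3, 4], [4, 5]]), (6, [(0, 1, 6), (3, 5, 6)], [[3, 6], [4, 6], [5, 6]])]),
    (5, [0, 1, 3, 4, 7], 1, [(5, [(1, 5, 1)], []), (3, [(0, 1, 3), (1, 5, 3)], [[1, 3]])]),
    (5, [0, 2, 5, 7], 0, [(5, [(1, 5, 0)], []), (1, [(0, 0, 1), (1, 5, 1)], []), (2, [(3, 5, 2), (0, 1, 2)], [[0, 2], [2, 5]]), (7, [(0, 0, 7), (3, 5, 7)], [[0, 7], [2, 7], [5, 7]])]),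
    (5, [0, 3, 4, 5, 7], 0, [(5, [(1, 5, 0)], []), (3, [(1, 5, 3)], [[0, 3]])]),
    (5, [0, 1, 6, 7], 0, [(5, [(1, 5, 0)], []), (1, [(0, 0, 1), (1, 5, 1)], [[0, 1]])]),
    (6, [1, 2, 3, 4], 1, [(6, [(1, 6, 1)], []), (2, [(0, 1, 2), (1, 6, 2)], [[1, 2]])]),
    (6, [0, 1, 2, 5], 1, [(6, [(1, 6, 1)], []), (2, [(0, 1, 2), (1, 6, 2)], [[1, 2]])]),
    (6, [0, 1, 3, 5], 1, [(3, [(0, 1, 3)], [[1, 3]]), (5, [(0, 1, 5), (0, 3, 5)], [[1, 5], [3, 5]])]),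
    (6, [1, 3, 5, 6], 1, [(3, [(0, 1, 3)], [[1, 3]]), (5, [(0, 1, 5), (0, 3, 5)], [[1, 5], [3, 5]])]),
    (6, [3, 4, 5, 6], 1, [(6, [(1, 6, 1)], []), (2, [(0, 1, 2), (1, 6, 2)], []), (3, [(0, 1, 3), (3, 6, 3)], [[3, 6]]), (4, [(3, 6, 4), (0, 2, 4), (0, 3, 4)], [[3, 4], [4, 6]]), (5, [(0, 1, 5), (3, 6, 5), (0, 3, 5)], [[3, 5], [4, 5], [5, 6]])]),
    (6, [0, 1, 3, 4, 7], 1, [(6, [(1, 6, 1)], []), (7, [(1, 6, 7)], [[1, 7]])]),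
    (6, [0, 2, 5, 7], 1, [(6, [(1, 6, 1)], []), (2, [(0, 1, 2), (1, 6, 2)], []), (0, [(0, 1, 0), (3, 6, 0)], [[0, 2]]), (5, [(0, 1, 5), (3, 6, 5), (0, 0, 5)], [[0, 5], [2, 5]])]),
    (6, [0, 3, 4, 5, 7], 1, [(6, [(1, 6, 1)], []), (7, [(1, 6, 7)], []), (3, [(0, 1, 3), (3, 6, 3)], [[3, 7]]), (5, [(0, 1, 5), (3, 6, 5), (0, 3, 5)], [[3, 5], [5, 7]])]),
    (6, [0, 1, 6, 7], 1, [(6, [(1, 6, 1)], [[1, 6]]), (7, [(1, 6, 7)], [[1, 7]])]),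
    (7, [1, 2, 3, 4], 1, [(2, [(0, 1, 2)], [[1, 2]]), (3, [(0, 1, 3)], [[1, 3], [2, 3]]), (4, [(0, 2, 4), (0, 3, 4)], [[1, 4], [2, 4], [3, 4]])]),
    (7, [0, 1, 2, 5], 0, [(1, [(0, 0, 1)], [[0, 1]]), (5, [(0, 0, 5), (0, 1, 5)], [[0, 5], [1, 5]])]),
    (7, [0, 1, 3, 5], 1, [(3, [(0, 1, 3)], [[1, 3]]), (5, [(0, 1, 5), (0, 3, 5)], [[1, 5], [3, 5]])]),
    (7, [1, 3, 5, 6], 1, [(3, [(0, 1, 3)], [[1, 3]]), (5, [(0, 1, 5), (0, 3, 5)], [[1, 5], [3, 5]])]),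
    (7, [3, 4, 5, 6], 0, [(7, [(1, 7, 0)], []), (6, [(1, 7, 6)], []), (5, [(0, 0, 5), (3, 7, 5)], [[5, 6]]), (3, [(3, 7, 3), (0, 5, 3)], [[3, 5], [3, 6]]), (4, [(3, 7, 4), (0, 3, 4)], [[3, 4], [4, 5], [4, 6]]), (2, [(3, 7, 2), (0, 6, 2), (0, 4, 2)], [])]),
    (7, [0, 1, 3, 4, 7], 0, [(7, [(1, 7, 0)], []), (6, [(1, 7, 6)], []), (1, [(0, 0, 1), (3, 7, 1), (0, 6, 1)], [[0, 1], [1, 7]]), (2, [(3, 7, 2), (0, 6, 2), (0, 1, 2)], []), (3, [(3, 7, 3), (0, 1, 3)], [[0, 3], [1, 3], [3, 7]]), (4, [(3, 7, 4), (0, 2, 4), (0, 3, 4)], [[0, 4], [1, 4], [3, 4]])]),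
    (7, [0, 2, 5, 7], 0, [(7, [(1, 7, 0)], []), (6, [(1, 7, 6)], []), (5, [(0, 0, 5), (3, 7, 5)], [[0, 5], [5, 7]]), (2, [(3, 7, 2), (0, 6, 2)], [[0, 2], [2, 5]])]),
    (7, [0, 3, 4, 5, 7], 0, [(7, [(1, 7, 0)], []), (6, [(1, 7, 6)], []), (5, [(0, 0, 5), (3, 7, 5)], [[0, 5], [5, 7]]), (3, [(3, 7, 3), (0, 5, 3)], [[0, 3], [3, 5], [3, 7]]), (4, [(3, 7, 4), (0, 3, 4)], [[0, 4], [3, 4], [4, 5]]), (2, [(3, 7, 2), (0, 6, 2), (0, 4, 2)], [])]),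
    (7, [0, 1, 6, 7], 0, [(7, [(1, 7, 0)], []), (6, [(1, 7, 6)], [[0, 6]])]),
    (8, [1, 2, 3, 4], 1, [(2, [(0, 1, 2)], [[1, 2]]), (3, [(0, 1, 3)], [[1, 3], [2, 3]]), (4, [(0, 2, 4), (0, 3, 4)], [[1, 4], [2, 4], [3, 4]])]),
    (8, [0, 1, 2, 5], 0, [(1, [(0, 0, 1)], [[0, 1]]), (5, [(0, 0, 5), (0, 1, 5)], [[0, 5], [1, 5]])]),
    (8, [0, 1, 3, 5], 1, [(3, [(0, 1, 3)], [[1, 3]]), (5, [(0, 1, 5), (0, 3, 5)], [[1, 5], [3, 5]])]),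
    (8, [1, 3, 5, 6], 1, [(3, [(0, 1, 3)], [[1, 3]]), (5, [(0, 1, 5), (0, 3, 5)], [[1, 5], [3, 5]])]),
    (8, [3, 4, 5, 6], 3, [(4, [(0, 3, 4)], [[3, 4]]), (5, [(0, 3, 5)], [[3, 5], [4, 5]]), (1, [(0, 3, 1), (0, 5, 1)], []), (2, [(0, 4, 2), (0, 1, 2)], []), (6, [(0, 1, 6), (0, 2, 6)], [[3, 6], [4, 6], [5, 6]])]),
    (8, [0, 1, 3, 4, 7], 0, [(1, [(0, 0, 1)], [[0, 1]]), (3, [(0, 1, 3)], [[0, 3], [1, 3]]), (4, [(0, 3, 4)], [[0, 4], [1, 4], [3, 4]]), (2, [(0, 1, 2), (0, 4, 2)], []), (6, [(0, 1, 6), (0, 2, 6)], []), (7, [(0, 0, 7), (0, 6, 7)], [[0, 7], [1, 7], [3, 7]])]),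
    (8, [0, 2, 5, 7], 7, [(0, [(0, 7, 0)], [[0, 7]]), (5, [(0, 0, 5)], [[0, 5], [5, 7]]), (1, [(0, 0, 1), (0, 5, 1)], []), (6, [(0, 7, 6), (0, 1, 6)], []), (2, [(0, 1, 2), (0, 6, 2)], [[0, 2], [2, 5], [2, 7]])]),
    (8, [0, 3, 4, 5, 7], 7, [(0, [(0, 7, 0)], [[0, 7]]), (5, [(0, 0, 5)], [[0, 5], [5, 7]]), (3, [(0, 5, 3)], [[0, 3], [3, 5], [3, 7]]), (4, [(0, 3, 4)], [[0, 4], [3, 4], [4, 5]]), (2, [(0, 4, 2)], []), (6, [(0, 7, 6), (0, 2, 6)], [])]),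
    (8, [0, 1, 6, 7], 0, [(1, [(0, 0, 1)], [[0, 1]]), (6, [(0, 1, 6)], [[0, 6], [1, 6]]), (7, [(0, 0, 7), (0, 6, 7)], [[0, 7], [1, 7], [6, 7]])])]

def c58 : Cert where
  n := 9
  E := [(0, 1), (0, 5), (0, 7), (1, 2), (1, 3), (1, 5), (1, 6), (2, 4), (2, 6), (3, 4), (3, 5), (5, 8)]
  non := []
  t5 := false
  g61 := false
  fam := [[1, 2, 3, 4], [0, 1, 5], [1, 3, 5], [2, 3, 4, 5], [0, 1, 3, 6], [0, 1, 3, 4, 8], [0, 3, 5, 8]]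
  tab := [
    (0, [1, 2, 3, 4], 1, [(2, [(0, 1, 2)], [[1, 2]]), (3, [(0, 1, 3)], [[1, 3], [2, 3]]), (4, [(0, 2, 4), (0, 3, 4)], [[1, 4], [2, 4], [3, 4]])]),
    (0, [0, 1, 5], 0, [(1, [(1, 0, 1)], [[0, 1]]), (5, [(1, 0, 5), (0, 1, 5)], [[0, 5], [1, 5]])]),
    (0, [1, 3, 5], 0, [(1, [(1, 0, 1)], []), (5, [(1, 0, 5), (0, 1, 5)], [[1, 5]])]),
    (0, [2, 3, 4, 5], 0, [(1, [(1, 0, 1)], []), (5, [(1, 0, 5), (0, 1, 5)], []), (3, [(3, 0, 3), (0, 1, 3), (0, 5, 3)], [[3, 5]]), (2, [(3, 0, 2), (0, 1, 2)], [[2, 3], [2, 5]])]),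
    (0, [0, 1, 3, 6], 0, [(1, [(1, 0, 1)], [[0, 1]]), (3, [(3, 0, 3), (0, 1, 3)], [[0, 3], [1, 3]]), (6, [(3, 0, 6), (0, 1, 6)], [[1, 6], [3, 6]])]),
    (0, [0, 1, 3, 4, 8], 0, [(1, [(1, 0, 1)], [[0, 1]]), (5, [(1, 0, 5), (0, 1, 5)], []), (3, [(3, 0, 3), (0, 1, 3), (0, 5, 3)], [[0, 3], [1, 3]]), (8, [(3, 0, 8), (0, 5, 8)], [[1, 8], [3, 8]])]),
    (0, [0, 3, 5, 8], 0, [(5, [(1, 0, 5)], [[0, 5]]), (3, [(3, 0, 3), (0, 5, 3)], [[0, 3], [3, 5]]), (8, [(3, 0, 8), (0, 5, 8)], [[3, 8], [5, 8]])]),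
    (1, [1, 2, 3, 4], 1, [(2, [(1, 1, 2)], [[1, 2]]), (3, [(1, 1, 3)], [[1, 3], [2, 3]])]),
    (1, [0, 1, 5], 0, [(1, [(1, 1, 0)], []), (5, [(0, 0, 5), (1, 1, 5)], [[0, 5], [1, 5]])]),
    (1, [1, 3, 5], 1, [(3, [(1, 1, 3)], [[1, 3]]), (5, [(1, 1, 5), (0, 3, 5)], [[1, 5], [3, 5]])]),
    (1, [2, 3, 4, 5], 1, [(3, [(1, 1, 3)], []), (5, [(1, 1, 5), (0, 3, 5)], [[3, 5]])]),
    (1, [0, 1, 3, 6], 1, [(3, [(1, 1, 3)], [[1, 3]]), (6, [(1, 1, 6)], [[3, 6]])]),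
    (1, [0, 1, 3, 4, 8], 0, [(1, [(1, 1, 0)], []), (5, [(0, 0, 5), (1, 1, 5)], []), (3, [(1, 1, 3), (0, 5, 3)], [[1, 3]]), (4, [(3, 1, 4), (0, 3, 4)], [[0, 4], [1, 4], [3, 4]]), (8, [(3, 1, 8), (0, 5, 8)], [[1, 8], [4, 8], [0, 3, 8]])]),
    (1, [0, 3, 5, 8], 1, [(3, [(1, 1, 3)], []), (5, [(1, 1, 5), (0, 3, 5)], [[3, 5]])]),
    (2, [1, 2, 3, 4], 1, [(2, [(1, 2, 1)], [[1, 2]]), (4, [(1, 2, 4)], [[1, 4]])]),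
    (2, [0, 1, 5], 0, [(1, [(0, 0, 1)], [[0, 1]]), (5, [(0, 0, 5), (0, 1, 5)], [[0, 5], [1, 5]])]),
    (2, [1, 3, 5], 1, [(3, [(0, 1, 3)], [[1, 3]]), (5, [(0, 1, 5), (0, 3, 5)], [[1, 5], [3, 5]])]),
    (2, [2, 3, 4, 5], 1, [(2, [(1, 2, 1)], []), (4, [(1, 2, 4)], []), (3, [(0, 1, 3), (3, 2, 3), (0, 4, 3)], [[2, 3], [3, 4]]), (5, [(0, 1, 5), (3, 2, 5), (0, 3, 5)], [[2, 5], [3, 5], [4, 5]])]),
    (2, [0, 1, 3, 6], 1, [(2, [(1, 2, 1)], []), (6, [(0, 1, 6), (1, 2, 6)], [[1, 6]])]),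
    (2, [0, 1, 3, 4, 8], 1, [(2, [(1, 2, 1)], []), (4, [(1, 2, 4)], [[1, 4]])]),
    (2, [0, 3, 5, 8], 0, [(5, [(0, 0, 5)], [[0, 5]]), (8, [(0, 5, 8)], [[0, 8], [5, 8]]), (3, [(0, 5, 3)], [[0, 3], [3, 5], [3, 8]])]),
    (3, [1, 2, 3, 4], 1, [(3, [(1, 3, 1)], [[1, 3]]), (4, [(1, 3, 4)], [[1, 4]])]),
    (3, [0, 1, 5], 1, [(3, [(1, 3, 1)], []), (5, [(0, 1, 5), (1, 3, 5)], [[1, 5]])]),
    (3, [1, 3, 5], 1, [(3, [(1, 3, 1)], [[1, 3]]), (5, [(0, 1, 5), (1, 3, 5)], [[1, 5], [3, 5]])]),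
    (3, [2, 3, 4, 5], 3, [(5, [(1, 3, 5)], [[3, 5]]), (4, [(1, 3, 4)], [[4, 5]])]),
    (3, [0, 1, 3, 6], 1, [(3, [(1, 3, 1)], [[1, 3]]), (0, [(0, 1, 0), (3, 3, 0)], [[0, 1], [0, 3]]), (6, [(0, 1, 6), (3, 3, 6)], [[0, 6], [1, 6]])]),
    (3, [0, 1, 3, 4, 8], 1, [(3, [(1, 3, 1)], [[1, 3]]), (4, [(1, 3, 4)], [[1, 4]])]),
    (3, [0, 3, 5, 8], 3, [(5, [(1, 3, 5)], [[3, 5]]), (0, [(3, 3, 0), (0, 5, 0)], [[0, 3], [0, 5]]), (8, [(3, 3, 8), (0, 5, 8)], [[0, 8], [5, 8]])]),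
    (4, [1, 2, 3, 4], 2, [(4, [(1, 4, 2)], []), (3, [(1, 4, 3)], [[2, 3], [3, 4]])]),
    (4, [0, 1, 5], 0, [(1, [(0, 0, 1)], [[0, 1]]), (5, [(0, 0, 5), (0, 1, 5)], [[0, 5], [1, 5]])]),
    (4, [1, 3, 5], 1, [(3, [(0, 1, 3)], [[1, 3]]), (5, [(0, 1, 5), (0, 3, 5)], [[1, 5], [3, 5]])]),
    (4, [2, 3, 4, 5], 2, [(4, [(1, 4, 2)], []), (3, [(1, 4, 3)], [[2, 3], [3, 4]])]),
    (4, [0, 1, 3, 6], 3, [(4, [(1, 4, 3)], []), (1, [(0, 3, 1), (3, 4, 1)], [[1, 3]]), (0, [(3, 4, 0), (0, 1, 0)], [[0, 1], [0, 3]]), (6, [(3, 4, 6), (0, 1, 6)], [[0, 6], [1, 6], [3, 6]])]),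
    (4, [0, 1, 3, 4, 8], 3, [(4, [(1, 4, 3)], [[3, 4]]), (1, [(0, 3, 1), (3, 4, 1)], [[1, 3], [1, 4]]), (5, [(0, 3, 5), (3, 4, 5), (0, 1, 5)], []), (0, [(3, 4, 0), (0, 1, 0), (0, 5, 0)], [[0, 1], [0, 3], [0, 4]]), (8, [(3, 4, 8), (0, 5, 8)], [[0, 8], [1, 8], [3, 8]])]),
    (4, [0, 3, 5, 8], 3, [(4, [(1, 4, 3)], []), (5, [(0, 3, 5), (3, 4, 5)], [[3, 5]]), (0, [(3, 4, 0), (0, 5, 0)], [[0, 3], [0, 5]]), (8, [(3, 4, 8), (0, 5, 8)], [[0, 8], [3, 8], [5, 8]])]),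
    (5, [1, 2, 3, 4], 1, [(5, [(1, 5, 1)], []), (3, [(0, 1, 3), (1, 5, 3)], [[1, 3]])]),
    (5, [0, 1, 5], 0, [(5, [(1, 5, 0)], []), (1, [(0, 0, 1), (1, 5, 1)], [[0, 1], [1, 5]])]),
    (5, [1, 3, 5], 1, [(5, [(1, 5, 1)], [[1, 5]]), (3, [(0, 1, 3), (1, 5, 3)], [[1, 3], [3, 5]])]),
    (5, [2, 3, 4, 5], 1, [(5, [(1, 5, 1)], []), (3, [(0, 1, 3), (1, 5, 3)], [[3, 5]]), (2, [(0, 1, 2), (3, 5, 2)], [[2, 3], [2, 5]]), (4, [(3, 5, 4), (0, 3, 4), (0, 2, 4)], [[2, 4], [3, 4], [4, 5]])]),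
    (5, [0, 1, 3, 6], 1, [(5, [(1, 5, 1)], []), (3, [(0, 1, 3), (1, 5, 3)], [[1, 3]])]),
    (5, [0, 1, 3, 4, 8], 8, [(5, [(1, 5, 8)], []), (1, [(1, 5, 1)], [[1, 8]])]),
    (5, [0, 3, 5, 8], 0, [(5, [(1, 5, 0)], []), (3, [(1, 5, 3)], [[3, 5]]), (8, [(1, 5, 8)], [[0, 3, 8]])]),
    (6, [1, 2, 3, 4], 1, [(6, [(1, 6, 1)], []), (2, [(0, 1, 2), (1, 6, 2)], [[1, 2]])]),
    (6, [0, 1, 5], 0, [(1, [(0, 0, 1)], [[0, 1]]), (5, [(0, 0, 5), (0, 1, 5)], [[0, 5], [1, 5]])]),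
    (6, [1, 3, 5], 1, [(3, [(0, 1, 3)], [[1, 3]]), (5, [(0, 1, 5), (0, 3, 5)], [[1, 5], [3, 5]])]),
    (6, [2, 3, 4, 5], 1, [(6, [(1, 6, 1)], []), (2, [(0, 1, 2), (1, 6, 2)], []), (4, [(3, 6, 4), (0, 2, 4)], [[2, 4]]), (5, [(0, 1, 5), (3, 6, 5)], [[2, 5], [4, 5]])]),
    (6, [0, 1, 3, 6], 1, [(6, [(1, 6, 1)], [[1, 6]]), (0, [(0, 1, 0), (3, 6, 0)], [[0, 1], [0, 6]]), (3, [(0, 1, 3), (3, 6, 3)], [[0, 3], [1, 3], [3, 6]])]),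
    (6, [0, 1, 3, 4, 8], 1, [(6, [(1, 6, 1)], []), (0, [(0, 1, 0), (3, 6, 0)], [[0, 1]]), (3, [(0, 1, 3), (3, 6, 3)], [[0, 3], [1, 3]])]),
    (6, [0, 3, 5, 8], 0, [(5, [(0, 0, 5)], [[0, 5]]), (8, [(0, 5, 8)], [[0, 8], [5, 8]]), (3, [(0, 5, 3)], [[0, 3], [3, 5], [3, 8]])]),
    (7, [1, 2, 3, 4], 1, [(2, [(0, 1, 2)], [[1, 2]]), (3, [(0, 1, 3)], [[1, 3], [2, 3]]), (4, [(0, 2, 4), (0, 3, 4)], [[1, 4], [2, 4], [3, 4]])]),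
    (7, [0, 1, 5], 0, [(1, [(0, 0, 1)], [[0, 1]]), (5, [(0, 0, 5), (0, 1, 5)], [[0, 5], [1, 5]])]),
    (7, [1, 3, 5], 1, [(3, [(0, 1, 3)], [[1, 3]]), (5, [(0, 1, 5), (0, 3, 5)], [[1, 5], [3, 5]])]),
    (7, [2, 3, 4, 5], 2, [(4, [(0, 2, 4)], [[2, 4]]), (3, [(0, 4, 3)], [[2, 3], [3, 4]]), (1, [(0, 2, 1), (0, 3, 1)], []), (5, [(0, 3, 5), (0, 1, 5)], [[2, 5], [3, 5], [4, 5]])]),
    (7, [0, 1, 3, 6], 0, [(7, [(1, 7, 0)], []), (1, [(0, 0, 1), (3, 7, 1)], [[0, 1]]), (3, [(3, 7, 3), (0, 1, 3)], [[0, 3], [1, 3]]), (6, [(3, 7, 6), (0, 1, 6)], [[0, 6], [1, 6], [3, 6]])]),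
    (7, [0, 1, 3, 4, 8], 7, [(0, [(1, 7, 0)], []), (1, [(3, 7, 1), (0, 0, 1)], [[0, 1]]), (3, [(3, 7, 3), (0, 1, 3)], [[0, 3], [1, 3]]), (4, [(3, 7, 4), (0, 3, 4)], [[0, 4], [1, 4], [3, 4]]), (8, [(3, 7, 8)], [[0, 8], [1, 8], [3, 8], [4, 8]])]),
    (7, [0, 3, 5, 8], 0, [(7, [(1, 7, 0)], []), (5, [(0, 0, 5), (3, 7, 5)], [[0, 5]]), (3, [(3, 7, 3), (0, 5, 3)], [[0, 3], [3, 5]]), (8, [(3, 7, 8), (0, 5, 8)], [[0, 8], [3, 8], [5, 8]])]),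
    (8, [1, 2, 3, 4], 1, [(2, [(0, 1, 2)], [[1, 2]]), (3, [(0, 1, 3)], [[1, 3], [2, 3]]), (4, [(0, 2, 4), (0, 3, 4)], [[1, 4], [2, 4], [3, 4]])]),
    (8, [0, 1, 5], 0, [(1, [(0, 0, 1)], [[0, 1]]), (5, [(0, 0, 5), (0, 1, 5)], [[0, 5], [1, 5]])]),
    (8, [1, 3, 5], 1, [(3, [(0, 1, 3)], [[1, 3]]), (5, [(0, 1, 5), (0, 3, 5)], [[1, 5], [3, 5]])]),
    (8, [2, 3, 4, 5], 5, [(8, [(1, 8, 5)], []), (3, [(0, 5, 3), (3, 8, 3)], [[3, 5]]), (1, [(0, 5, 1), (3, 8, 1), (0, 3, 1)], []), (2, [(3, 8, 2), (0, 1, 2)], [[2, 3], [2, 5]]), (4, [(3, 8, 4), (0, 3, 4), (0, 2, 4)], [[2, 4], [3, 4], [4, 5]])]),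
    (8, [0, 1, 3, 6], 0, [(1, [(0, 0, 1)], [[0, 1]]), (3, [(0, 1, 3)], [[0, 3], [1, 3]]), (6, [(0, 1, 6)], [[0, 6], [1, 6], [3, 6]])]),
    (8, [0, 1, 3, 4, 8], 5, [(8, [(1, 8, 5)], []), (0, [(0, 5, 0), (3, 8, 0)], [[0, 8]]), (1, [(0, 5, 1), (3, 8, 1), (0, 0, 1)], [[0, 1], [1, 8]]), (3, [(0, 5, 3), (3, 8, 3), (0, 1, 3)], [[0, 3], [1, 3], [3, 8]])]),
    (8, [0, 3, 5, 8], 8, [(5, [(1, 8, 5)], [[5, 8]]), (0, [(3, 8, 0), (0, 5, 0)], [[0, 5], [0, 8]]), (3, [(3, 8, 3), (0, 5, 3)], [[0, 3], [3, 5], [3, 8]])]),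
    (9, [1, 2, 3, 4], 1, [(2, [(0, 1, 2)], [[1, 2]]), (3, [(0, 1, 3)], [[1, 3], [2, 3]]), (4, [(0, 2, 4), (0, 3, 4)], [[1, 4], [2, 4], [3, 4]])]),
    (9, [0, 1, 5], 0, [(1, [(0, 0, 1)], [[0, 1]]), (5, [(0, 0, 5), (0, 1, 5)], [[0, 5], [1, 5]])]),
    (9, [1, 3, 5], 1, [(3, [(0, 1, 3)], [[1, 3]]), (5, [(0, 1, 5), (0, 3, 5)], [[1, 5], [3, 5]])]),
    (9, [2, 3, 4, 5], 2, [(4, [(0, 2, 4)], [[2, 4]]), (3, [(0, 4, 3)], [[2, 3], [3, 4]]), (1, [(0, 2, 1), (0, 3, 1)], []), (5, [(0, 3, 5), (0, 1, 5)], [[2, 5], [3, 5], [4, 5]])]),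
    (9, [0, 1, 3, 6], 0, [(1, [(0, 0, 1)], [[0, 1]]), (3, [(0, 1, 3)], [[0, 3], [1, 3]]), (6, [(0, 1, 6)], [[0, 6], [1, 6], [3, 6]])]),
    (9, [0, 1, 3, 4, 8], 0, [(1, [(0, 0, 1)], [[0, 1]]), (5, [(0, 0, 5), (0, 1, 5)], []), (3, [(0, 1, 3), (0, 5, 3)], [[0, 3], [1, 3]]), (8, [(0, 5, 8)], [[0, 8], [1, 8], [3, 8]])]),
    (9, [0, 3, 5, 8], 0, [(5, [(0, 0, 5)], [[0, 5]]), (8, [(0, 5, 8)], [[0, 8], [5, 8]]), (3, [(0, 5, 3)], [[0, 3], [3, 5], [3, 8]])])]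

def c28 : Cert where
  n := 9
  E := [(0, 1), (0, 5), (0, 7), (1, 2), (1, 3), (1, 5), (1, 6), (2, 4), (2, 6), (3, 4), (3, 5), (6, 8), (2, 8)]
  non := [(1, 7), (2, 3), (3, 7), (5, 2), (5, 4), (5, 6), (5, 7), (5, 8)]
  t5 := true
  g61 := false
  fam := [[0, 1, 2, 3], [0, 2, 3, 4], [1, 2, 4, 5], [1, 2, 6], [0, 1, 3, 6], [1, 3, 4, 6], [0, 1, 3, 4, 5, 7], [1, 2, 4, 8], [2, 4, 6, 8]]
  tab := [
    (0, [0, 1, 2, 3], 0, [(1, [(1, 0, 1)], [[0, 1]]), (2, [(3, 0, 2), (0, 1, 2)], [[0, 2], [1, 2]]), (3, [(3, 0, 3), (0, 1, 3)], [[1, 3], [2, 3]])]),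
    (0, [0, 2, 3, 4], 0, [(1, [(1, 0, 1)], []), (2, [(3, 0, 2), (0, 1, 2)], [[0, 2]]), (4, [(3, 0, 4), (0, 2, 4)], [[0, 4], [2, 4]]), (3, [(3, 0, 3), (0, 1, 3), (0, 4, 3)], [[2, 3], [3, 4]])]),
    (0, [1, 2, 4, 5], 0, [(1, [(1, 0, 1)], []), (5, [(1, 0, 5), (0, 1, 5)], [[1, 5]])]),
    (0, [1, 2, 6], 1, [(2, [(0, 1, 2)], [[1, 2]]), (6, [(0, 1, 6), (0, 2, 6)], [[1, 6], [2, 6]])]),
    (0, [0, 1, 3, 6], 0, [(1, [(1, 0, 1)], [[0, 1]]), (6, [(3, 0, 6), (0, 1, 6)], [[0, 6], [1, 6]]), (3, [(3, 0, 3), (0, 1, 3)], [[1, 3], [3, 6]])]),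
    (0, [1, 3, 4, 6], 0, [(1, [(1, 0, 1)], []), (3, [(3, 0, 3), (0, 1, 3)], [[1, 3]]), (6, [(3, 0, 6), (0, 1, 6)], [[1, 6], [3, 6]])]),
    (0, [0, 1, 3, 4, 5, 7], 0, [(1, [(1, 0, 1)], [[0, 1]]), (7, [(1, 0, 7)], [[1, 7]])]),
    (0, [1, 2, 4, 8], 8, [(2, [(0, 8, 2)], [[2, 8]]), (1, [(0, 2, 1)], [[1, 2], [1, 8]]), (4, [(0, 2, 4)], [[1, 4], [2, 4], [4, 8]])]),
    (0, [2, 4, 6, 8], 8, [(2, [(0, 8, 2)], [[2, 8]]), (6, [(0, 8, 6), (0, 2, 6)], [[2, 6], [6, 8]])]),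
    (1, [0, 1, 2, 3], 1, [(2, [(1, 1, 2)], [[1, 2]]), (3, [(1, 1, 3)], [[1, 3], [2, 3]])]),
    (1, [0, 2, 3, 4], 1, [(2, [(1, 1, 2)], []), (3, [(1, 1, 3)], [[2, 3]])]),
    (1, [1, 2, 4, 5], 1, [(2, [(1, 1, 2)], [[1, 2]]), (5, [(1, 1, 5)], [[2, 5]])]),
    (1, [1, 2, 6], 1, [(2, [(1, 1, 2)], [[1, 2]]), (6, [(1, 1, 6), (0, 2, 6)], [[2, 6]])]),
    (1, [0, 1, 3, 6], 1, [(3, [(1, 1, 3)], [[1, 3]]), (6, [(1, 1, 6)], [[3, 6]])]),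
    (1, [1, 3, 4, 6], 1, [(3, [(1, 1, 3)], [[1, 3]]), (6, [(1, 1, 6)], [[3, 6]])]),
    (1, [0, 1, 3, 4, 5, 7], 0, [(1, [(1, 1, 0)], []), (3, [(1, 1, 3)], [[1, 3]]), (4, [(3, 1, 4), (0, 3, 4)], [[0, 4], [1, 4]]), (7, [(0, 0, 7), (2, 1, 7)], [[4, 7]])]),
    (1, [1, 2, 4, 8], 1, [(2, [(1, 1, 2)], [[1, 2]]), (4, [(3, 1, 4), (0, 2, 4)], [[1, 4], [2, 4]]), (8, [(3, 1, 8), (0, 2, 8)], [[2, 8], [4, 8]])]),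
    (1, [2, 4, 6, 8], 1, [(2, [(1, 1, 2)], []), (6, [(1, 1, 6), (0, 2, 6)], [[2, 6]])]),
    (2, [0, 1, 2, 3], 1, [(2, [(1, 2, 1)], [[1, 2]]), (3, [(0, 1, 3), (2, 2, 3)], [[1, 3], [2, 3]]), (0, [(0, 1, 0), (3, 2, 0)], [[0, 1], [0, 3]])]),
    (2, [0, 2, 3, 4], 1, [(2, [(1, 2, 1)], []), (4, [(1, 2, 4)], [[2, 4]]), (3, [(0, 1, 3), (2, 2, 3), (0, 4, 3)], [[2, 3]]), (0, [(0, 1, 0), (3, 2, 0)], [[0, 3], [0, 4]])]),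
    (2, [1, 2, 4, 5], 1, [(2, [(1, 2, 1)], [[1, 2]]), (4, [(1, 2, 4)], [[1, 4], [2, 4]])]),
    (2, [1, 2, 6], 1, [(2, [(1, 2, 1)], [[1, 2]]), (6, [(0, 1, 6), (1, 2, 6)], [[1, 6]])]),
    (2, [0, 1, 3, 6], 1, [(2, [(1, 2, 1)], []), (6, [(0, 1, 6), (1, 2, 6)], [[1, 6]])]),
    (2, [1, 3, 4, 6], 2, [(4, [(1, 2, 4)], []), (6, [(1, 2, 6)], [[4, 6]])]),
    (2, [0, 1, 3, 4, 5, 7], 1, [(2, [(1, 2, 1)], []), (4, [(1, 2, 4)], [[1, 4]])]),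
    (2, [1, 2, 4, 8], 1, [(2, [(1, 2, 1)], [[1, 2]]), (4, [(1, 2, 4)], [[1, 4], [2, 4]])]),
    (2, [2, 4, 6, 8], 2, [(4, [(1, 2, 4)], [[2, 4]]), (6, [(1, 2, 6)], [[4, 6]])]),
    (3, [0, 1, 2, 3], 1, [(3, [(1, 3, 1)], [[1, 3]]), (2, [(0, 1, 2), (2, 3, 2)], [[1, 2], [2, 3]]), (0, [(0, 1, 0), (3, 3, 0)], [[0, 1], [0, 2]])]),
    (3, [0, 2, 3, 4], 3, [(4, [(1, 3, 4)], [[3, 4]]), (5, [(1, 3, 5)], []), (2, [(2, 3, 2), (0, 4, 2)], [[2, 3], [2, 4]]), (0, [(3, 3, 0), (0, 5, 0)], [[0, 2], [0, 4]])]),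
    (3, [1, 2, 4, 5], 3, [(4, [(1, 3, 4)], []), (5, [(1, 3, 5)], [[4, 5]])]),
    (3, [1, 2, 6], 1, [(2, [(0, 1, 2)], [[1, 2]]), (6, [(0, 1, 6), (0, 2, 6)], [[1, 6], [2, 6]])]),
    (3, [0, 1, 3, 6], 1, [(3, [(1, 3, 1)], [[1, 3]]), (6, [(0, 1, 6), (3, 3, 6)], [[1, 6], [3, 6]]), (0, [(0, 1, 0), (3, 3, 0)], [[0, 1], [0, 6]])]),
    (3, [1, 3, 4, 6], 1, [(3, [(1, 3, 1)], [[1, 3]]), (4, [(1, 3, 4)], [[1, 4], [3, 4]])]),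
    (3, [0, 1, 3, 4, 5, 7], 3, [(4, [(1, 3, 4)], [[3, 4]]), (5, [(1, 3, 5)], [[4, 5]])]),
    (3, [1, 2, 4, 8], 1, [(3, [(1, 3, 1)], []), (4, [(1, 3, 4)], [[1, 4]])]),
    (3, [2, 4, 6, 8], 8, [(2, [(0, 8, 2)], [[2, 8]]), (6, [(0, 8, 6), (0, 2, 6)], [[2, 6], [6, 8]])]),
    (4, [0, 1, 2, 3], 2, [(4, [(1, 4, 2)], []), (3, [(1, 4, 3)], [[2, 3]])]),
    (4, [0, 2, 3, 4], 2, [(4, [(1, 4, 2)], [[2, 4]]), (3, [(1, 4, 3)], [[2, 3]])]),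
    (4, [1, 2, 4, 5], 2, [(4, [(1, 4, 2)], [[2, 4]]), (3, [(1, 4, 3)], []), (1, [(0, 2, 1), (3, 4, 1), (0, 3, 1)], [[1, 2], [1, 4]]), (5, [(2, 4, 5), (0, 3, 5), (0, 1, 5)], [[1, 5], [2, 5], [4, 5]])]),
    (4, [1, 2, 6], 1, [(2, [(0, 1, 2)], [[1, 2]]), (6, [(0, 1, 6), (0, 2, 6)], [[1, 6], [2, 6]])]),
    (4, [0, 1, 3, 6], 2, [(4, [(1, 4, 2)], []), (3, [(1, 4, 3)], []), (1, [(0, 2, 1), (3, 4, 1), (0, 3, 1)], [[1, 3]]), (6, [(0, 2, 6), (3, 4, 6), (0, 1, 6)], [[1, 6], [3, 6]])]),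
    (4, [1, 3, 4, 6], 2, [(4, [(1, 4, 2)], []), (3, [(1, 4, 3)], []), (1, [(0, 2, 1), (3, 4, 1), (0, 3, 1)], [[1, 3], [1, 4]]), (6, [(0, 2, 6), (3, 4, 6), (0, 1, 6)], [[1, 6], [3, 6], [4, 6]])]),
    (4, [0, 1, 3, 4, 5, 7], 3, [(4, [(1, 4, 3)], []), (1, [(0, 3, 1), (3, 4, 1)], [[1, 3], [1, 4]]), (5, [(0, 3, 5), (2, 4, 5), (0, 1, 5)], [[1, 5], [4, 5]])]),
    (4, [1, 2, 4, 8], 2, [(4, [(1, 4, 2)], [[2, 4]]), (1, [(0, 2, 1), (3, 4, 1)], [[1, 2], [1, 4]]), (8, [(0, 2, 8), (3, 4, 8)], [[1, 8], [2, 8]])]),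
    (4, [2, 4, 6, 8], 8, [(2, [(0, 8, 2)], [[2, 8]]), (6, [(0, 8, 6), (0, 2, 6)], [[2, 6], [6, 8]])]),
    (5, [0, 1, 2, 3], 1, [(5, [(1, 5, 1)], []), (3, [(0, 1, 3), (1, 5, 3)], [[1, 3]])]),
    (5, [0, 2, 3, 4], 1, [(5, [(1, 5, 1)], []), (3, [(0, 1, 3), (1, 5, 3)], []), (2, [(0, 1, 2), (2, 5, 2)], [[2, 3]]), (4, [(2, 5, 4), (0, 3, 4), (0, 2, 4)], [[2, 4]])]),
    (5, [1, 2, 4, 5], 1, [(5, [(1, 5, 1)], [[1, 5]]), (3, [(0, 1, 3), (1, 5, 3)], []), (2, [(0, 1, 2), (2, 5, 2)], [[1, 2], [2, 5]]), (4, [(2, 5, 4), (0, 3, 4), (0, 2, 4)], [[1, 4], [2, 4], [4, 5]])]),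
    (5, [1, 2, 6], 1, [(2, [(0, 1, 2)], [[1, 2]]), (6, [(0, 1, 6), (0, 2, 6)], [[1, 6], [2, 6]])]),
    (5, [0, 1, 3, 6], 1, [(5, [(1, 5, 1)], []), (3, [(0, 1, 3), (1, 5, 3)], [[1, 3]])]),
    (5, [1, 3, 4, 6], 1, [(5, [(1, 5, 1)], []), (3, [(0, 1, 3), (1, 5, 3)], [[1, 3]])]),
    (5, [0, 1, 3, 4, 5, 7], 1, [(5, [(1, 5, 1)], [[1, 5]]), (3, [(0, 1, 3), (1, 5, 3)], [[1, 3]])]),
    (5, [1, 2, 4, 8], 1, [(5, [(1, 5, 1)], []), (2, [(0, 1, 2), (2, 5, 2)], [[1, 2]]), (4, [(2, 5, 4), (0, 2, 4)], [[1, 4], [2, 4]]), (8, [(2, 5, 8), (0, 2, 8)], [[1, 8], [2, 8], [4, 8]])]),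
    (5, [2, 4, 6, 8], 8, [(2, [(0, 8, 2)], [[2, 8]]), (6, [(0, 8, 6), (0, 2, 6)], [[2, 6], [6, 8]])]),
    (6, [0, 1, 2, 3], 1, [(6, [(1, 6, 1)], []), (2, [(0, 1, 2), (1, 6, 2)], [[1, 2]])]),
    (6, [0, 2, 3, 4], 1, [(6, [(1, 6, 1)], []), (2, [(0, 1, 2), (1, 6, 2)], []), (3, [(0, 1, 3), (3, 6, 3)], [[2, 3]]), (4, [(3, 6, 4), (0, 2, 4), (0, 3, 4)], [[2, 4], [3, 4]])]),
    (6, [1, 2, 4, 5], 1, [(6, [(1, 6, 1)], []), (2, [(0, 1, 2), (1, 6, 2)], [[1, 2]])]),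
    (6, [1, 2, 6], 1, [(6, [(1, 6, 1)], [[1, 6]]), (2, [(0, 1, 2), (1, 6, 2)], [[1, 2], [2, 6]])]),
    (6, [0, 1, 3, 6], 1, [(6, [(1, 6, 1)], [[1, 6]]), (3, [(0, 1, 3), (3, 6, 3)], [[1, 3], [3, 6]]), (0, [(0, 1, 0), (3, 6, 0)], [[0, 1], [0, 3]])]),
    (6, [1, 3, 4, 6], 1, [(6, [(1, 6, 1)], [[1, 6]]), (2, [(0, 1, 2), (1, 6, 2)], []), (3, [(0, 1, 3), (3, 6, 3)], [[1, 3], [3, 6]]), (4, [(3, 6, 4), (0, 2, 4), (0, 3, 4)], [[1, 4], [3, 4], [4, 6]])]),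
    (6, [0, 1, 3, 4, 5, 7], 0, [(1, [(0, 0, 1)], [[0, 1]]), (5, [(0, 0, 5), (0, 1, 5)], [[1, 5]]), (3, [(0, 1, 3), (0, 5, 3), (4, 0, 0)], [[0, 3], [1, 3]])]),
    (6, [1, 2, 4, 8], 8, [(6, [(1, 6, 8)], []), (2, [(0, 8, 2), (1, 6, 2)], [[2, 8]])]),
    (6, [2, 4, 6, 8], 8, [(6, [(1, 6, 8)], []), (2, [(0, 8, 2), (1, 6, 2)], [[2, 6], [2, 8]])]),
    (7, [0, 1, 2, 3], 0, [(7, [(1, 7, 0)], []), (1, [(0, 0, 1), (2, 7, 1)], [[0, 1]]), (2, [(3, 7, 2), (0, 1, 2)], [[0, 2], [1, 2]]), (3, [(2, 7, 3), (0, 1, 3)], [[1, 3], [2, 3]])]),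
    (7, [0, 2, 3, 4], 0, [(7, [(1, 7, 0)], []), (1, [(0, 0, 1), (2, 7, 1)], []), (2, [(3, 7, 2), (0, 1, 2)], [[0, 2]]), (4, [(3, 7, 4), (0, 2, 4)], [[0, 4], [2, 4]]), (3, [(2, 7, 3), (0, 1, 3), (0, 4, 3)], [[2, 3], [3, 4]])]),
    (7, [1, 2, 4, 5], 0, [(7, [(1, 7, 0)], []), (1, [(0, 0, 1), (2, 7, 1)], []), (5, [(0, 0, 5), (2, 7, 5), (0, 1, 5)], [[1, 5]])]),
    (7, [1, 2, 6], 1, [(2, [(0, 1, 2)], [[1, 2]]), (6, [(0, 1, 6), (0, 2, 6)], [[1, 6], [2, 6]])]),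
    (7, [0, 1, 3, 6], 0, [(7, [(1, 7, 0)], []), (1, [(0, 0, 1), (2, 7, 1)], [[0, 1]]), (6, [(3, 7, 6), (0, 1, 6)], [[0, 6], [1, 6]]), (3, [(2, 7, 3), (0, 1, 3)], [[1, 3], [3, 6]])]),
    (7, [1, 3, 4, 6], 1, [(3, [(0, 1, 3)], [[1, 3]]), (4, [(0, 3, 4)], [[1, 4], [3, 4]]), (2, [(0, 1, 2), (0, 4, 2)], []), (6, [(0, 1, 6), (0, 2, 6)], [[1, 6], [3, 6], [4, 6]])]),
    (7, [0, 1, 3, 4, 5, 7], 0, [(7, [(1, 7, 0)], []), (1, [(0, 0, 1), (2, 7, 1)], [[0, 1], [1, 7]]), (5, [(0, 0, 5), (2, 7, 5), (0, 1, 5)], [[1, 5]])]),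
    (7, [1, 2, 4, 8], 8, [(2, [(0, 8, 2)], [[2, 8]]), (1, [(0, 2, 1)], [[1, 2], [1, 8]]), (4, [(0, 2, 4)], [[1, 4], [2, 4], [4, 8]])]),
    (7, [2, 4, 6, 8], 8, [(2, [(0, 8, 2)], [[2, 8]]), (6, [(0, 8, 6), (0, 2, 6)], [[2, 6], [6, 8]])]),
    (8, [0, 1, 2, 3], 2, [(8, [(1, 8, 2)], []), (1, [(0, 2, 1), (3, 8, 1)], [[1, 2]]), (0, [(3, 8, 0), (0, 1, 0)], [[0, 1], [0, 2]]), (3, [(3, 8, 3), (0, 1, 3)], [[0, 3], [1, 3], [2, 3]])]),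
    (8, [0, 2, 3, 4], 2, [(8, [(1, 8, 2)], []), (4, [(0, 2, 4), (3, 8, 4)], [[2, 4]]), (3, [(3, 8, 3), (0, 4, 3)], [[2, 3], [3, 4]]), (1, [(0, 2, 1), (3, 8, 1), (0, 3, 1)], []), (0, [(3, 8, 0), (0, 1, 0)], [[0, 2], [0, 3], [0, 4]])]),
    (8, [1, 2, 4, 5], 8, [(2, [(1, 8, 2)], []), (1, [(3, 8, 1), (0, 2, 1)], [[1, 2]]), (4, [(3, 8, 4), (0, 2, 4)], [[1, 4], [2, 4]])]),
    (8, [1, 2, 6], 8, [(2, [(1, 8, 2)], []), (6, [(1, 8, 6), (0, 2, 6)], [[2, 6]])]),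
    (8, [0, 1, 3, 6], 6, [(8, [(1, 8, 6)], []), (1, [(0, 6, 1), (3, 8, 1)], [[1, 6]]), (0, [(3, 8, 0), (0, 1, 0)], [[0, 1], [0, 6]]), (3, [(3, 8, 3), (0, 1, 3)], [[0, 3], [1, 3], [3, 6]])]),
    (8, [1, 3, 4, 6], 2, [(8, [(1, 8, 2)], []), (6, [(0, 2, 6), (1, 8, 6)], []), (1, [(0, 2, 1), (3, 8, 1), (0, 6, 1)], [[1, 6]]), (4, [(0, 2, 4), (3, 8, 4)], [[1, 4], [4, 6]])]),
    (8, [0, 1, 3, 4, 5, 7], 0, [(1, [(0, 0, 1)], [[0, 1]]), (5, [(0, 0, 5), (0, 1, 5)], [[1, 5]]), (3, [(0, 1, 3), (0, 5, 3), (4, 0, 0)], [[0, 3], [1, 3]])]),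
    (8, [1, 2, 4, 8], 8, [(2, [(1, 8, 2)], [[2, 8]]), (1, [(3, 8, 1), (0, 2, 1)], [[1, 2], [1, 8]]), (4, [(3, 8, 4), (0, 2, 4)], [[1, 4], [2, 4]])]),
    (8, [2, 4, 6, 8], 8, [(2, [(1, 8, 2)], [[2, 8]]), (6, [(1, 8, 6), (0, 2, 6)], [[2, 6], [6, 8]])]),
    (9, [0, 1, 2, 3], 0, [(1, [(0, 0, 1)], [[0, 1]]), (2, [(0, 1, 2)], [[0, 2], [1, 2]]), (3, [(0, 1, 3)], [[0, 3], [1, 3], [2, 3]])]),
    (9, [0, 2, 3, 4], 2, [(4, [(0, 2, 4)], [[2, 4]]), (3, [(0, 4, 3)], [[2, 3], [3, 4]]), (1, [(0, 2, 1), (0, 3, 1)], []), (0, [(0, 1, 0)], [[0, 2], [0, 3], [0, 4]])]),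
    (9, [1, 2, 4, 5], 1, [(2, [(0, 1, 2)], [[1, 2]]), (4, [(0, 2, 4)], [[1, 4], [2, 4]]), (3, [(0, 1, 3), (0, 4, 3)], []), (5, [(0, 1, 5), (0, 3, 5)], [[1, 5], [2, 5], [4, 5]])]),
    (9, [1, 2, 6], 1, [(2, [(0, 1, 2)], [[1, 2]]), (6, [(0, 1, 6), (0, 2, 6)], [[1, 6], [2, 6]])]),
    (9, [0, 1, 3, 6], 0, [(1, [(0, 0, 1)], [[0, 1]]), (3, [(0, 1, 3)], [[0, 3], [1, 3]]), (6, [(0, 1, 6)], [[0, 6], [1, 6], [3, 6]])]),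
    (9, [1, 3, 4, 6], 1, [(3, [(0, 1, 3)], [[1, 3]]), (4, [(0, 3, 4)], [[1, 4], [3, 4]]), (2, [(0, 1, 2), (0, 4, 2)], []), (6, [(0, 1, 6), (0, 2, 6)], [[1, 6], [3, 6], [4, 6]])]),
    (9, [0, 1, 3, 4, 5, 7], 0, [(1, [(0, 0, 1)], [[0, 1]]), (5, [(0, 0, 5), (0, 1, 5)], [[1, 5]]), (3, [(0, 1, 3), (0, 5, 3), (4, 0, 0)], [[0, 3], [1, 3]])]),
    (9, [1, 2, 4, 8], 8, [(2, [(0, 8, 2)], [[2, 8]]), (1, [(0, 2, 1)], [[1, 2], [1, 8]]), (4, [(0, 2, 4)], [[1, 4], [2, 4], [4, 8]])]),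
    (9, [2, 4, 6, 8], 8, [(2, [(0, 8, 2)], [[2, 8]]), (6, [(0, 8, 6), (0, 2, 6)], [[2, 6], [6, 8]])])]

def c48 : Cert where
  n := 9
  E := [(0, 1), (0, 5), (0, 7), (1, 2), (1, 3), (1, 5), (1, 6), (2, 4), (2, 6), (3, 4), (3, 5), (6, 8), (4, 8)]
  non := [(1, 7), (2, 3), (3, 7), (5, 2), (5, 4), (5, 6), (5, 7), (5, 8)]
  t5 := true
  g61 := false
  fam := [[0, 1, 2, 3], [1, 2, 3, 4], [1, 2, 6], [0, 1, 3, 6], [2, 3, 4, 6], [0, 1, 3, 4, 5, 7], [1, 2, 4, 8], [1, 3, 4, 8], [2, 3, 4, 8], [1, 3, 6, 8], [2, 4, 6, 8], [3, 4, 6, 8]]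
  tab := [
    (0, [0, 1, 2, 3], 0, [(1, [(1, 0, 1)], [[0, 1]]), (2, [(3, 0, 2), (0, 1, 2)], [[0, 2], [1, 2]]), (3, [(3, 0, 3), (0, 1, 3)], [[1, 3], [2, 3]])]),
    (0, [1, 2, 3, 4], 1, [(2, [(0, 1, 2)], [[1, 2]]), (3, [(0, 1, 3)], [[1, 3], [2, 3]]), (4, [(0, 2, 4), (0, 3, 4)], [[1, 4], [2, 4], [3, 4]])]),
    (0, [1, 2, 6], 1, [(2, [(0, 1, 2)], [[1, 2]]), (6, [(0, 1, 6), (0, 2, 6)], [[1, 6], [2, 6]])]),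
    (0, [0, 1, 3, 6], 0, [(1, [(1, 0, 1)], [[0, 1]]), (6, [(3, 0, 6), (0, 1, 6)], [[0, 6], [1, 6]]), (3, [(3, 0, 3), (0, 1, 3)], [[1, 3], [3, 6]])]),
    (0, [2, 3, 4, 6], 2, [(4, [(0, 2, 4)], [[2, 4]]), (3, [(0, 4, 3)], [[2, 3], [3, 4]]), (1, [(0, 2, 1), (0, 3, 1)], []), (6, [(0, 2, 6), (0, 1, 6)], [[2, 6], [3, 6], [4, 6]])]),
    (0, [0, 1, 3, 4, 5, 7], 0, [(1, [(1, 0, 1)], [[0, 1]]), (7, [(1, 0, 7)], [[1, 7]])]),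
    (0, [1, 2, 4, 8], 8, [(4, [(0, 8, 4)], [[4, 8]]), (2, [(0, 4, 2)], [[2, 4], [2, 8]]), (6, [(0, 8, 6), (0, 2, 6)], []), (1, [(0, 2, 1), (0, 6, 1)], [[1, 2], [1, 4], [1, 8]])]),
    (0, [1, 3, 4, 8], 1, [(3, [(0, 1, 3)], [[1, 3]]), (4, [(0, 3, 4)], [[1, 4], [3, 4]]), (8, [(0, 4, 8)], [[1, 8], [3, 8], [4, 8]]), (6, [(0, 1, 6), (0, 8, 6)], [])]),
    (0, [2, 3, 4, 8], 8, [(4, [(0, 8, 4)], [[4, 8]]), (2, [(0, 4, 2)], [[2, 4], [2, 8]]), (3, [(0, 4, 3)], [[2, 3], [3, 4], [3, 8]])]),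
    (0, [1, 3, 6, 8], 0, [(1, [(1, 0, 1)], []), (3, [(3, 0, 3), (0, 1, 3)], [[1, 3]]), (6, [(3, 0, 6), (0, 1, 6)], [[1, 6], [3, 6]])]),
    (0, [2, 4, 6, 8], 8, [(4, [(0, 8, 4)], [[4, 8]]), (2, [(0, 4, 2)], [[2, 4], [2, 8]]), (6, [(0, 8, 6), (0, 2, 6)], [[2, 6], [4, 6], [6, 8]])]),
    (0, [3, 4, 6, 8], 3, [(4, [(0, 3, 4)], [[3, 4]]), (8, [(0, 4, 8)], [[3, 8], [4, 8]]), (6, [(0, 8, 6)], [[3, 6], [4, 6], [6, 8]]), (1, [(0, 3, 1), (0, 6, 1)], [])]),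
    (1, [0, 1, 2, 3], 1, [(2, [(1, 1, 2)], [[1, 2]]), (3, [(1, 1, 3)], [[1, 3], [2, 3]])]),
    (1, [1, 2, 3, 4], 1, [(2, [(1, 1, 2)], [[1, 2]]), (3, [(1, 1, 3)], [[1, 3], [2, 3]])]),
    (1, [1, 2, 6], 1, [(2, [(1, 1, 2)], [[1, 2]]), (6, [(1, 1, 6), (0, 2, 6)], [[2, 6]])]),
    (1, [0, 1, 3, 6], 1, [(3, [(1, 1, 3)], [[1, 3]]), (6, [(1, 1, 6)], [[3, 6]])]),
    (1, [2, 3, 4, 6], 1, [(3, [(1, 1, 3)], []), (6, [(1, 1, 6)], [[3, 6]])]),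
    (1, [0, 1, 3, 4, 5, 7], 0, [(1, [(1, 1, 0)], []), (3, [(1, 1, 3)], [[1, 3]]), (4, [(3, 1, 4), (0, 3, 4)], [[0, 4], [1, 4], [3, 4]]), (7, [(0, 0, 7), (2, 1, 7)], [[4, 7]])]),
    (1, [1, 2, 4, 8], 1, [(2, [(1, 1, 2)], [[1, 2]]), (6, [(1, 1, 6), (0, 2, 6)], []), (4, [(3, 1, 4), (0, 2, 4)], [[1, 4], [2, 4]]), (8, [(3, 1, 8), (0, 6, 8), (0, 4, 8)], [[1, 8], [2, 8], [4, 8]])]),
    (1, [1, 3, 4, 8], 1, [(3, [(1, 1, 3)], [[1, 3]]), (6, [(1, 1, 6)], []), (4, [(3, 1, 4), (0, 3, 4)], [[1, 4], [3, 4]]), (8, [(3, 1, 8), (0, 6, 8), (0, 4, 8)], [[1, 8], [3, 8], [4, 8]])]),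
    (1, [2, 3, 4, 8], 1, [(2, [(1, 1, 2)], []), (3, [(1, 1, 3)], [[2, 3]])]),
    (1, [1, 3, 6, 8], 1, [(3, [(1, 1, 3)], [[1, 3]]), (6, [(1, 1, 6)], [[3, 6]])]),
    (1, [2, 4, 6, 8], 1, [(2, [(1, 1, 2)], []), (6, [(1, 1, 6), (0, 2, 6)], [[2, 6]])]),
    (1, [3, 4, 6, 8], 1, [(3, [(1, 1, 3)], []), (6, [(1, 1, 6)], [[3, 6]])]),
    (2, [0, 1, 2, 3], 1, [(2, [(1, 2, 1)], [[1, 2]]), (0, [(0, 1, 0), (3, 2, 0)], [[0, 1]]), (3, [(0, 1, 3), (2, 2, 3)], [[0, 3], [1, 3]])]),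
    (2, [1, 2, 3, 4], 1, [(2, [(1, 2, 1)], [[1, 2]]), (4, [(1, 2, 4)], [[1, 4], [2, 4]])]),
    (2, [1, 2, 6], 1, [(2, [(1, 2, 1)], [[1, 2]]), (6, [(0, 1, 6), (1, 2, 6)], [[1, 6]])]),
    (2, [0, 1, 3, 6], 1, [(2, [(1, 2, 1)], []), (6, [(0, 1, 6), (1, 2, 6)], [[1, 6]])]),
    (2, [2, 3, 4, 6], 2, [(4, [(1, 2, 4)], [[2, 4]]), (6, [(1, 2, 6)], [[4, 6]])]),
    (2, [0, 1, 3, 4, 5, 7], 1, [(2, [(1, 2, 1)], []), (4, [(1, 2, 4)], [[1, 4]])]),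
    (2, [1, 2, 4, 8], 1, [(2, [(1, 2, 1)], [[1, 2]]), (4, [(1, 2, 4)], [[1, 4], [2, 4]])]),
    (2, [1, 3, 4, 8], 1, [(2, [(1, 2, 1)], []), (4, [(1, 2, 4)], [[1, 4]])]),
    (2, [2, 3, 4, 8], 2, [(4, [(1, 2, 4)], [[2, 4]]), (8, [(3, 2, 8), (0, 4, 8)], [[4, 8]]), (3, [(2, 2, 3), (0, 4, 3)], [[3, 4], [3, 8]])]),
    (2, [1, 3, 6, 8], 1, [(2, [(1, 2, 1)], []), (6, [(0, 1, 6), (1, 2, 6)], [[1, 6]])]),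
    (2, [2, 4, 6, 8], 2, [(4, [(1, 2, 4)], [[2, 4]]), (6, [(1, 2, 6)], [[4, 6]])]),
    (2, [3, 4, 6, 8], 2, [(4, [(1, 2, 4)], []), (6, [(1, 2, 6)], [[4, 6]])]),
    (3, [0, 1, 2, 3], 1, [(3, [(1, 3, 1)], [[1, 3]]), (2, [(0, 1, 2), (2, 3, 2)], [[1, 2], [2, 3]]), (0, [(0, 1, 0), (3, 3, 0)], [[0, 1], [0, 2]])]),
    (3, [1, 2, 3, 4], 1, [(3, [(1, 3, 1)], [[1, 3]]), (4, [(1, 3, 4)], [[1, 4], [3, 4]])]),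
    (3, [1, 2, 6], 1, [(2, [(0, 1, 2)], [[1, 2]]), (6, [(0, 1, 6), (0, 2, 6)], [[1, 6], [2, 6]])]),
    (3, [0, 1, 3, 6], 1, [(3, [(1, 3, 1)], [[1, 3]]), (6, [(0, 1, 6), (3, 3, 6)], [[1, 6], [3, 6]]), (0, [(0, 1, 0), (3, 3, 0)], [[0, 1], [0, 6]])]),
    (3, [2, 3, 4, 6], 1, [(3, [(1, 3, 1)], []), (4, [(1, 3, 4)], [[3, 4]]), (2, [(0, 1, 2), (2, 3, 2), (0, 4, 2)], [[2, 3], [2, 4]]), (6, [(0, 1, 6), (3, 3, 6), (0, 2, 6)], [[2, 6], [3, 6], [4, 6]])]),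
    (3, [0, 1, 3, 4, 5, 7], 3, [(4, [(1, 3, 4)], [[3, 4]]), (5, [(1, 3, 5)], [[4, 5]])]),
    (3, [1, 2, 4, 8], 1, [(3, [(1, 3, 1)], []), (4, [(1, 3, 4)], [[1, 4]])]),
    (3, [1, 3, 4, 8], 1, [(3, [(1, 3, 1)], [[1, 3]]), (4, [(1, 3, 4)], [[1, 4], [3, 4]])]),
    (3, [2, 3, 4, 8], 3, [(4, [(1, 3, 4)], [[3, 4]]), (2, [(2, 3, 2), (0, 4, 2)], [[2, 3], [2, 4]]), (8, [(3, 3, 8), (0, 4, 8)], [[2, 8], [4, 8]])]),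
    (3, [1, 3, 6, 8], 1, [(3, [(1, 3, 1)], [[1, 3]]), (4, [(1, 3, 4)], []), (6, [(0, 1, 6), (3, 3, 6)], [[1, 6], [3, 6]]), (8, [(3, 3, 8), (0, 4, 8), (0, 6, 8)], [[1, 8], [6, 8]])]),
    (3, [2, 4, 6, 8], 8, [(4, [(0, 8, 4)], [[4, 8]]), (2, [(0, 4, 2)], [[2, 4], [2, 8]]), (6, [(0, 8, 6), (0, 2, 6)], [[2, 6], [4, 6], [6, 8]])]),
    (3, [3, 4, 6, 8], 1, [(3, [(1, 3, 1)], []), (4, [(1, 3, 4)], [[3, 4]]), (6, [(0, 1, 6), (3, 3, 6)], [[3, 6], [4, 6]]), (8, [(3, 3, 8), (0, 4, 8), (0, 6, 8)], [[4, 8], [6, 8]])]),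
    (4, [0, 1, 2, 3], 2, [(4, [(1, 4, 2)], []), (3, [(1, 4, 3)], [[2, 3]])]),
    (4, [1, 2, 3, 4], 2, [(4, [(1, 4, 2)], [[2, 4]]), (3, [(1, 4, 3)], [[2, 3]])]),
    (4, [1, 2, 6], 1, [(2, [(0, 1, 2)], [[1, 2]]), (6, [(0, 1, 6), (0, 2, 6)], [[1, 6], [2, 6]])]),
    (4, [0, 1, 3, 6], 3, [(4, [(1, 4, 3)], []), (8, [(1, 4, 8)], []), (1, [(0, 3, 1), (3, 4, 1)], [[1, 3]]), (6, [(3, 4, 6), (0, 8, 6), (0, 1, 6)], [[1, 6], [3, 6]])]),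
    (4, [2, 3, 4, 6], 2, [(4, [(1, 4, 2)], [[2, 4]]), (3, [(1, 4, 3)], [[2, 3]])]),
    (4, [0, 1, 3, 4, 5, 7], 3, [(4, [(1, 4, 3)], []), (1, [(0, 3, 1), (3, 4, 1)], [[1, 3], [1, 4]]), (5, [(0, 3, 5), (2, 4, 5), (0, 1, 5)], [[1, 5], [4, 5]])]),
    (4, [1, 2, 4, 8], 8, [(4, [(1, 4, 8)], []), (2, [(1, 4, 2)], [[2, 4], [2, 8]])]),
    (4, [1, 3, 4, 8], 8, [(4, [(1, 4, 8)], []), (3, [(1, 4, 3)], [[3, 8]])]),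
    (4, [2, 3, 4, 8], 2, [(4, [(1, 4, 2)], [[2, 4]]), (3, [(1, 4, 3)], [[2, 3]])]),
    (4, [1, 3, 6, 8], 8, [(4, [(1, 4, 8)], []), (3, [(1, 4, 3)], [[3, 8]])]),
    (4, [2, 4, 6, 8], 8, [(4, [(1, 4, 8)], []), (2, [(1, 4, 2)], [[2, 4], [2, 8]])]),
    (4, [3, 4, 6, 8], 8, [(4, [(1, 4, 8)], []), (3, [(1, 4, 3)], [[3, 8]])]),
    (5, [0, 1, 2, 3], 1, [(5, [(1, 5, 1)], []), (3, [(0, 1, 3), (1, 5, 3)], [[1, 3]])]),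
    (5, [1, 2, 3, 4], 1, [(5, [(1, 5, 1)], []), (3, [(0, 1, 3), (1, 5, 3)], [[1, 3]])]),
    (5, [1, 2, 6], 1, [(2, [(0, 1, 2)], [[1, 2]]), (6, [(0, 1, 6), (0, 2, 6)], [[1, 6], [2, 6]])]),
    (5, [0, 1, 3, 6], 1, [(5, [(1, 5, 1)], []), (3, [(0, 1, 3), (1, 5, 3)], [[1, 3]])]),
    (5, [2, 3, 4, 6], 1, [(5, [(1, 5, 1)], []), (3, [(0, 1, 3), (1, 5, 3)], []), (4, [(2, 5, 4), (0, 3, 4)], [[3, 4]]), (6, [(0, 1, 6), (2, 5, 6)], [[3, 6], [4, 6]])]),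
    (5, [0, 1, 3, 4, 5, 7], 1, [(5, [(1, 5, 1)], [[1, 5]]), (3, [(0, 1, 3), (1, 5, 3)], [[1, 3]])]),
    (5, [1, 2, 4, 8], 3, [(5, [(1, 5, 3)], []), (4, [(0, 3, 4), (2, 5, 4)], []), (2, [(2, 5, 2), (0, 4, 2)], [[2, 4]]), (8, [(2, 5, 8), (0, 4, 8)], [[2, 8], [4, 8]])]),
    (5, [1, 3, 4, 8], 1, [(5, [(1, 5, 1)], []), (3, [(0, 1, 3), (1, 5, 3)], [[1, 3]])]),
    (5, [2, 3, 4, 8], 3, [(5, [(1, 5, 3)], []), (4, [(0, 3, 4), (2, 5, 4)], [[3, 4]]), (2, [(2, 5, 2), (0, 4, 2)], [[2, 3], [2, 4]]), (8, [(2, 5, 8), (0, 4, 8)], [[2, 8], [3, 8], [4, 8]])]),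
    (5, [1, 3, 6, 8], 1, [(5, [(1, 5, 1)], []), (3, [(0, 1, 3), (1, 5, 3)], [[1, 3]])]),
    (5, [2, 4, 6, 8], 1, [(5, [(1, 5, 1)], []), (2, [(0, 1, 2), (2, 5, 2)], []), (6, [(0, 1, 6), (2, 5, 6), (0, 2, 6)], [[2, 6]])]),
    (5, [3, 4, 6, 8], 1, [(5, [(1, 5, 1)], []), (3, [(0, 1, 3), (1, 5, 3)], []), (4, [(2, 5, 4), (0, 3, 4)], [[3, 4]]), (6, [(0, 1, 6), (2, 5, 6)], [[3, 6], [4, 6]])]),
    (6, [0, 1, 2, 3], 1, [(6, [(1, 6, 1)], []), (2, [(0, 1, 2), (1, 6, 2)], [[1, 2]])]),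
    (6, [1, 2, 3, 4], 1, [(6, [(1, 6, 1)], []), (2, [(0, 1, 2), (1, 6, 2)], [[1, 2]])]),
    (6, [1, 2, 6], 1, [(6, [(1, 6, 1)], [[1, 6]]), (2, [(0, 1, 2), (1, 6, 2)], [[1, 2], [2, 6]])]),
    (6, [0, 1, 3, 6], 1, [(6, [(1, 6, 1)], [[1, 6]]), (3, [(0, 1, 3), (3, 6, 3)], [[1, 3], [3, 6]]), (0, [(0, 1, 0), (3, 6, 0)], [[0, 1], [0, 3]])]),
    (6, [2, 3, 4, 6], 1, [(6, [(1, 6, 1)], []), (2, [(0, 1, 2), (1, 6, 2)], [[2, 6]]), (3, [(0, 1, 3), (3, 6, 3)], [[2, 3], [3, 6]]), (4, [(3, 6, 4), (0, 2, 4), (0, 3, 4)], [[2, 4], [3, 4], [4, 6]])]),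
    (6, [0, 1, 3, 4, 5, 7], 0, [(1, [(0, 0, 1)], [[0, 1]]), (5, [(0, 0, 5), (0, 1, 5)], [[1, 5]]), (3, [(0, 1, 3), (0, 5, 3), (4, 0, 0)], [[0, 3], [1, 3]])]),
    (6, [1, 2, 4, 8], 8, [(6, [(1, 6, 8)], []), (2, [(1, 6, 2)], [[2, 8]])]),
    (6, [1, 3, 4, 8], 8, [(6, [(1, 6, 8)], []), (1, [(1, 6, 1)], [[1, 8]])]),
    (6, [2, 3, 4, 8], 8, [(6, [(1, 6, 8)], []), (2, [(1, 6, 2)], [[2, 8]])]),
    (6, [1, 3, 6, 8], 8, [(6, [(1, 6, 8)], [[6, 8]]), (1, [(1, 6, 1)], [[1, 6], [1, 8]])]),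
    (6, [2, 4, 6, 8], 8, [(6, [(1, 6, 8)], [[6, 8]]), (2, [(1, 6, 2)], [[2, 6], [2, 8]])]),
    (6, [3, 4, 6, 8], 1, [(6, [(1, 6, 1)], []), (8, [(1, 6, 8)], [[6, 8]]), (3, [(0, 1, 3), (3, 6, 3)], [[3, 6], [3, 8]]), (4, [(3, 6, 4), (0, 8, 4), (0, 3, 4)], [[3, 4], [4, 6], [4, 8]])]),
    (7, [0, 1, 2, 3], 0, [(7, [(1, 7, 0)], []), (1, [(0, 0, 1), (2, 7, 1)], [[0, 1]]), (2, [(3, 7, 2), (0, 1, 2)], [[0, 2], [1, 2]]), (3, [(2, 7, 3), (0, 1, 3)], [[1, 3], [2, 3]])]),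
    (7, [1, 2, 3, 4], 1, [(2, [(0, 1, 2)], [[1, 2]]), (3, [(0, 1, 3)], [[1, 3], [2, 3]]), (4, [(0, 2, 4), (0, 3, 4)], [[1, 4], [2, 4], [3, 4]])]),
    (7, [1, 2, 6], 1, [(2, [(0, 1, 2)], [[1, 2]]), (6, [(0, 1, 6), (0, 2, 6)], [[1, 6], [2, 6]])]),
    (7, [0, 1, 3, 6], 0, [(7, [(1, 7, 0)], []), (1, [(0, 0, 1), (2, 7, 1)], [[0, 1]]), (6, [(3, 7, 6), (0, 1, 6)], [[0, 6], [1, 6]]), (3, [(2, 7, 3), (0, 1, 3)], [[1, 3], [3, 6]])]),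
    (7, [2, 3, 4, 6], 2, [(4, [(0, 2, 4)], [[2, 4]]), (3, [(0, 4, 3)], [[2, 3], [3, 4]]), (1, [(0, 2, 1), (0, 3, 1)], []), (6, [(0, 2, 6), (0, 1, 6)], [[2, 6], [3, 6], [4, 6]])]),
    (7, [0, 1, 3, 4, 5, 7], 0, [(7, [(1, 7, 0)], []), (1, [(0, 0, 1), (2, 7, 1)], [[0, 1], [1, 7]]), (5, [(0, 0, 5), (2, 7, 5), (0, 1, 5)], [[1, 5]])]),
    (7, [1, 2, 4, 8], 8, [(4, [(0, 8, 4)], [[4, 8]]), (2, [(0, 4, 2)], [[2, 4], [2, 8]]), (6, [(0, 8, 6), (0, 2, 6)], []), (1, [(0, 2, 1), (0, 6, 1)], [[1, 2], [1, 4], [1, 8]])]),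
    (7, [1, 3, 4, 8], 1, [(3, [(0, 1, 3)], [[1, 3]]), (4, [(0, 3, 4)], [[1, 4], [3, 4]]), (8, [(0, 4, 8)], [[1, 8], [3, 8], [4, 8]]), (6, [(0, 1, 6), (0, 8, 6)], [])]),
    (7, [2, 3, 4, 8], 8, [(4, [(0, 8, 4)], [[4, 8]]), (2, [(0, 4, 2)], [[2, 4], [2, 8]]), (3, [(0, 4, 3)], [[2, 3], [3, 4], [3, 8]])]),
    (7, [1, 3, 6, 8], 0, [(7, [(1, 7, 0)], []), (1, [(0, 0, 1), (2, 7, 1)], []), (3, [(2, 7, 3), (0, 1, 3)], [[1, 3]]), (6, [(3, 7, 6), (0, 1, 6)], [[1, 6], [3, 6]]), (8, [(3, 7, 8), (0, 6, 8)], [[1, 8], [3, 8], [6, 8]])]),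
    (7, [2, 4, 6, 8], 8, [(4, [(0, 8, 4)], [[4, 8]]), (2, [(0, 4, 2)], [[2, 4], [2, 8]]), (6, [(0, 8, 6), (0, 2, 6)], [[2, 6], [4, 6], [6, 8]])]),
    (7, [3, 4, 6, 8], 3, [(4, [(0, 3, 4)], [[3, 4]]), (8, [(0, 4, 8)], [[3, 8], [4, 8]]), (6, [(0, 8, 6)], [[3, 6], [4, 6], [6, 8]]), (1, [(0, 3, 1), (0, 6, 1)], [])]),
    (8, [0, 1, 2, 3], 0, [(1, [(0, 0, 1)], [[0, 1]]), (2, [(0, 1, 2)], [[0, 2], [1, 2]]), (3, [(0, 1, 3)], [[0, 3], [1, 3], [2, 3]])]),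
    (8, [1, 2, 3, 4], 8, [(4, [(1, 8, 4)], []), (2, [(3, 8, 2), (0, 4, 2)], [[2, 4]]), (3, [(3, 8, 3), (0, 4, 3)], [[2, 3], [3, 4]])]),
    (8, [1, 2, 6], 1, [(2, [(0, 1, 2)], [[1, 2]]), (6, [(0, 1, 6), (0, 2, 6)], [[1, 6], [2, 6]])]),
    (8, [0, 1, 3, 6], 6, [(8, [(1, 8, 6)], []), (1, [(0, 6, 1), (3, 8, 1)], [[1, 6]]), (0, [(3, 8, 0), (0, 1, 0)], [[0, 1], [0, 6]]), (3, [(3, 8, 3), (0, 1, 3)], [[0, 3], [1, 3], [3, 6]])]),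
    (8, [2, 3, 4, 6], 8, [(4, [(1, 8, 4)], []), (6, [(1, 8, 6)], [[4, 6]])]),
    (8, [0, 1, 3, 4, 5, 7], 4, [(8, [(1, 8, 4)], []), (6, [(1, 8, 6)], []), (1, [(3, 8, 1), (0, 6, 1)], [[1, 4]]), (3, [(0, 4, 3), (3, 8, 3), (0, 1, 3)], [[1, 3], [3, 4]])]),
    (8, [1, 2, 4, 8], 4, [(8, [(1, 8, 4)], [[4, 8]]), (6, [(1, 8, 6)], []), (2, [(0, 4, 2), (3, 8, 2), (0, 6, 2)], [[2, 4], [2, 8]]), (1, [(3, 8, 1), (0, 6, 1), (0, 2, 1)], [[1, 2], [1, 4], [1, 8]])]),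
    (8, [1, 3, 4, 8], 4, [(8, [(1, 8, 4)], [[4, 8]]), (6, [(1, 8, 6)], []), (1, [(3, 8, 1), (0, 6, 1)], [[1, 4], [1, 8]]), (3, [(0, 4, 3), (3, 8, 3), (0, 1, 3)], [[1, 3], [3, 4]])]),
    (8, [2, 3, 4, 8], 8, [(4, [(1, 8, 4)], [[4, 8]]), (2, [(3, 8, 2), (0, 4, 2)], [[2, 4], [2, 8]]), (3, [(3, 8, 3), (0, 4, 3)], [[2, 3], [3, 4]])]),
    (8, [1, 3, 6, 8], 4, [(8, [(1, 8, 4)], []), (6, [(1, 8, 6)], [[6, 8]]), (1, [(3, 8, 1), (0, 6, 1)], [[1, 6], [1, 8]]), (3, [(0, 4, 3), (3, 8, 3), (0, 1, 3)], [[1, 3], [3, 6]])]),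
    (8, [2, 4, 6, 8], 8, [(4, [(1, 8, 4)], [[4, 8]]), (6, [(1, 8, 6)], [[4, 6], [6, 8]])]),
    (8, [3, 4, 6, 8], 8, [(4, [(1, 8, 4)], [[4, 8]]), (6, [(1, 8, 6)], [[4, 6], [6, 8]])]),
    (9, [0, 1, 2, 3], 0, [(1, [(0, 0, 1)], [[0, 1]]), (2, [(0, 1, 2)], [[0, 2], [1, 2]]), (3, [(0, 1, 3)], [[0, 3], [1, 3], [2, 3]])]),
    (9, [1, 2, 3, 4], 1, [(2, [(0, 1, 2)], [[1, 2]]), (3, [(0, 1, 3)], [[1, 3], [2, 3]]), (4, [(0, 2, 4), (0, 3, 4)], [[1, 4], [2, 4], [3, 4]])]),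
    (9, [1, 2, 6], 1, [(2, [(0, 1, 2)], [[1, 2]]), (6, [(0, 1, 6), (0, 2, 6)], [[1, 6], [2, 6]])]),
    (9, [0, 1, 3, 6], 0, [(1, [(0, 0, 1)], [[0, 1]]), (3, [(0, 1, 3)], [[0, 3], [1, 3]]), (6, [(0, 1, 6)], [[0, 6], [1, 6], [3, 6]])]),
    (9, [2, 3, 4, 6], 2, [(4, [(0, 2, 4)], [[2, 4]]), (3, [(0, 4, 3)], [[2, 3], [3, 4]]), (1, [(0, 2, 1), (0, 3, 1)], []), (6, [(0, 2, 6), (0, 1, 6)], [[2, 6], [3, 6], [4, 6]])]),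
    (9, [0, 1, 3, 4, 5, 7], 0, [(1, [(0, 0, 1)], [[0, 1]]), (5, [(0, 0, 5), (0, 1, 5)], [[1, 5]]), (3, [(0, 1, 3), (0, 5, 3), (4, 0, 0)], [[0, 3], [1, 3]])]),
    (9, [1, 2, 4, 8], 8, [(4, [(0, 8, 4)], [[4, 8]]), (2, [(0, 4, 2)], [[2, 4], [2, 8]]), (6, [(0, 8, 6), (0, 2, 6)], []), (1, [(0, 2, 1), (0, 6, 1)], [[1, 2], [1, 4], [1, 8]])]),
    (9, [1, 3, 4, 8], 1, [(3, [(0, 1, 3)], [[1, 3]]), (4, [(0, 3, 4)], [[1, 4], [3, 4]]), (8, [(0, 4, 8)], [[1, 8], [3, 8], [4, 8]]), (6, [(0, 1, 6), (0, 8, 6)], [])]),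
    (9, [2, 3, 4, 8], 8, [(4, [(0, 8, 4)], [[4, 8]]), (2, [(0, 4, 2)], [[2, 4], [2, 8]]), (3, [(0, 4, 3)], [[2, 3], [3, 4], [3, 8]])]),
    (9, [1, 3, 6, 8], 1, [(3, [(0, 1, 3)], [[1, 3]]), (6, [(0, 1, 6)], [[1, 6], [3, 6]]), (8, [(0, 6, 8)], [[1, 8], [3, 8], [6, 8]]), (4, [(0, 3, 4), (0, 8, 4)], [])]),
    (9, [2, 4, 6, 8], 8, [(4, [(0, 8, 4)], [[4, 8]]), (2, [(0, 4, 2)], [[2, 4], [2, 8]]), (6, [(0, 8, 6), (0, 2, 6)], [[2, 6], [4, 6], [6, 8]])]),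
    (9, [3, 4, 6, 8], 3, [(4, [(0, 3, 4)], [[3, 4]]), (8, [(0, 4, 8)], [[3, 8], [4, 8]]), (6, [(0, 8, 6)], [[3, 6], [4, 6], [6, 8]]), (1, [(0, 3, 1), (0, 6, 1)], [])])]

def c68 : Cert where
  n := 9
  E := [(0, 1), (0, 5), (0, 7), (1, 2), (1, 3), (1, 5), (1, 6), (2, 4), (2, 6), (3, 4), (3, 5), (6, 8)]
  non := [(1, 7), (1, 8), (2, 3), (2, 8), (3, 7), (4, 8), (5, 2), (5, 4), (5, 6), (5, 7), (5, 8)]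
  t5 := true
  g61 := false
  fam := [[0, 1, 2, 3], [0, 2, 3, 4], [1, 2, 3, 4], [1, 2, 4, 5], [0, 1, 3, 6], [1, 3, 4, 6], [2, 3, 4, 6], [1, 2, 5, 6], [0, 1, 3, 4, 5, 7], [1, 2, 4, 6, 8]]
  tab := [
    (0, [0, 1, 2, 3], 0, [(1, [(1, 0, 1)], [[0, 1]]), (2, [(3, 0, 2), (0, 1, 2)], [[0, 2], [1, 2]]), (3, [(3, 0, 3), (0, 1, 3)], [[1, 3], [2, 3]])]),
    (0, [0, 2, 3, 4], 0, [(1, [(1, 0, 1)], []), (2, [(3, 0, 2), (0, 1, 2)], [[0, 2]]), (4, [(3, 0, 4), (0, 2, 4)], [[0, 4], [2, 4]]), (3, [(3, 0, 3), (0, 1, 3), (0, 4, 3)], [[2, 3], [3, 4]])]),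
    (0, [1, 2, 3, 4], 1, [(2, [(0, 1, 2)], [[1, 2]]), (3, [(0, 1, 3)], [[1, 3], [2, 3]]), (4, [(0, 2, 4), (0, 3, 4)], [[1, 4], [2, 4], [3, 4]])]),
    (0, [1, 2, 4, 5], 0, [(1, [(1, 0, 1)], []), (5, [(1, 0, 5), (0, 1, 5)], [[1, 5]])]),
    (0, [0, 1, 3, 6], 0, [(1, [(1, 0, 1)], [[0, 1]]), (6, [(3, 0, 6), (0, 1, 6)], [[0, 6], [1, 6]]), (3, [(3, 0, 3), (0, 1, 3)], [[1, 3], [3, 6]])]),
    (0, [1, 3, 4, 6], 0, [(1, [(1, 0, 1)], []), (3, [(3, 0, 3), (0, 1, 3)], [[1, 3]]), (6, [(3, 0, 6), (0, 1, 6)], [[1, 6], [3, 6]])]),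
    (0, [2, 3, 4, 6], 2, [(4, [(0, 2, 4)], [[2, 4]]), (3, [(0, 4, 3)], [[2, 3], [3, 4]]), (1, [(0, 2, 1), (0, 3, 1)], []), (6, [(0, 2, 6), (0, 1, 6)], [[2, 6], [3, 6], [4, 6]])]),
    (0, [1, 2, 5, 6], 0, [(1, [(1, 0, 1)], []), (5, [(1, 0, 5), (0, 1, 5)], [[1, 5]])]),
    (0, [0, 1, 3, 4, 5, 7], 0, [(1, [(1, 0, 1)], [[0, 1]]), (7, [(1, 0, 7)], [[1, 7]])]),
    (0, [1, 2, 4, 6, 8], 1, [(2, [(0, 1, 2)], [[1, 2]]), (6, [(0, 1, 6), (0, 2, 6)], [[1, 6], [2, 6]])]),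
    (1, [0, 1, 2, 3], 1, [(2, [(1, 1, 2)], [[1, 2]]), (3, [(1, 1, 3)], [[1, 3], [2, 3]])]),
    (1, [0, 2, 3, 4], 1, [(2, [(1, 1, 2)], []), (3, [(1, 1, 3)], [[2, 3]])]),
    (1, [1, 2, 3, 4], 1, [(2, [(1, 1, 2)], [[1, 2]]), (3, [(1, 1, 3)], [[1, 3], [2, 3]])]),
    (1, [1, 2, 4, 5], 1, [(2, [(1, 1, 2)], [[1, 2]]), (5, [(1, 1, 5)], [[2, 5]])]),
    (1, [0, 1, 3, 6], 1, [(3, [(1, 1, 3)], [[1, 3]]), (6, [(1, 1, 6)], [[3, 6]])]),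
    (1, [1, 3, 4, 6], 1, [(3, [(1, 1, 3)], [[1, 3]]), (6, [(1, 1, 6)], [[3, 6]])]),
    (1, [2, 3, 4, 6], 1, [(3, [(1, 1, 3)], []), (6, [(1, 1, 6)], [[3, 6]])]),
    (1, [1, 2, 5, 6], 1, [(2, [(1, 1, 2)], [[1, 2]]), (5, [(1, 1, 5)], [[2, 5]])]),
    (1, [0, 1, 3, 4, 5, 7], 0, [(1, [(1, 1, 0)], []), (3, [(1, 1, 3)], [[1, 3]]), (4, [(3, 1, 4), (0, 3, 4)], [[0, 4], [1, 4]]), (7, [(0, 0, 7), (2, 1, 7)], [[4, 7]])]),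
    (1, [1, 2, 4, 6, 8], 1, [(2, [(1, 1, 2)], [[1, 2]]), (6, [(1, 1, 6), (0, 2, 6)], []), (4, [(3, 1, 4), (0, 2, 4)], [[1, 4], [2, 4], [4, 6]]), (8, [(2, 1, 8), (0, 6, 8)], [[4, 8]])]),
    (2, [0, 1, 2, 3], 1, [(2, [(1, 2, 1)], [[1, 2]]), (3, [(0, 1, 3), (2, 2, 3)], [[1, 3], [2, 3]]), (0, [(0, 1, 0), (3, 2, 0)], [[0, 1], [0, 3]])]),
    (2, [0, 2, 3, 4], 1, [(2, [(1, 2, 1)], []), (4, [(1, 2, 4)], [[2, 4]]), (3, [(0, 1, 3), (2, 2, 3), (0, 4, 3)], [[2, 3]]), (0, [(0, 1, 0), (3, 2, 0)], [[0, 3], [0, 4]])]),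
    (2, [1, 2, 3, 4], 1, [(2, [(1, 2, 1)], [[1, 2]]), (4, [(1, 2, 4)], [[1, 4], [2, 4]])]),
    (2, [1, 2, 4, 5], 1, [(2, [(1, 2, 1)], [[1, 2]]), (4, [(1, 2, 4)], [[1, 4], [2, 4]])]),
    (2, [0, 1, 3, 6], 1, [(2, [(1, 2, 1)], []), (6, [(0, 1, 6), (1, 2, 6)], [[1, 6]])]),
    (2, [1, 3, 4, 6], 2, [(4, [(1, 2, 4)], []), (6, [(1, 2, 6)], [[4, 6]])]),
    (2, [2, 3, 4, 6], 2, [(4, [(1, 2, 4)], [[2, 4]]), (6, [(1, 2, 6)], [[4, 6]])]),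
    (2, [1, 2, 5, 6], 1, [(2, [(1, 2, 1)], [[1, 2]]), (6, [(0, 1, 6), (1, 2, 6)], [[1, 6]])]),
    (2, [0, 1, 3, 4, 5, 7], 1, [(2, [(1, 2, 1)], []), (4, [(1, 2, 4)], [[1, 4]])]),
    (2, [1, 2, 4, 6, 8], 2, [(4, [(1, 2, 4)], [[2, 4]]), (6, [(1, 2, 6)], [[4, 6]])]),
    (3, [0, 1, 2, 3], 1, [(3, [(1, 3, 1)], [[1, 3]]), (2, [(0, 1, 2), (2, 3, 2)], [[1, 2], [2, 3]]), (0, [(0, 1, 0), (3, 3, 0)], [[0, 1], [0, 2]])]),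
    (3, [0, 2, 3, 4], 3, [(4, [(1, 3, 4)], [[3, 4]]), (5, [(1, 3, 5)], []), (0, [(3, 3, 0), (0, 5, 0)], [[0, 4]]), (2, [(2, 3, 2), (0, 4, 2)], [[0, 2], [2, 3]])]),
    (3, [1, 2, 3, 4], 1, [(3, [(1, 3, 1)], [[1, 3]]), (4, [(1, 3, 4)], [[1, 4], [3, 4]])]),
    (3, [1, 2, 4, 5], 3, [(4, [(1, 3, 4)], []), (5, [(1, 3, 5)], [[4, 5]])]),
    (3, [0, 1, 3, 6], 1, [(3, [(1, 3, 1)], [[1, 3]]), (6, [(0, 1, 6), (3, 3, 6)], [[1, 6], [3, 6]]), (0, [(0, 1, 0), (3, 3, 0)], [[0, 1], [0, 6]])]),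
    (3, [1, 3, 4, 6], 1, [(3, [(1, 3, 1)], [[1, 3]]), (4, [(1, 3, 4)], [[1, 4], [3, 4]])]),
    (3, [2, 3, 4, 6], 1, [(3, [(1, 3, 1)], []), (4, [(1, 3, 4)], [[3, 4]]), (2, [(0, 1, 2), (2, 3, 2), (0, 4, 2)], [[2, 3]]), (6, [(0, 1, 6), (3, 3, 6), (0, 2, 6)], [[2, 6], [3, 6], [4, 6]])]),
    (3, [1, 2, 5, 6], 1, [(3, [(1, 3, 1)], []), (5, [(0, 1, 5), (1, 3, 5)], [[1, 5]])]),
    (3, [0, 1, 3, 4, 5, 7], 3, [(4, [(1, 3, 4)], [[3, 4]]), (5, [(1, 3, 5)], [[4, 5]])]),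
    (3, [1, 2, 4, 6, 8], 1, [(3, [(1, 3, 1)], []), (4, [(1, 3, 4)], [[1, 4]])]),
    (4, [0, 1, 2, 3], 2, [(4, [(1, 4, 2)], []), (3, [(1, 4, 3)], [[2, 3]])]),
    (4, [0, 2, 3, 4], 2, [(4, [(1, 4, 2)], []), (3, [(1, 4, 3)], [[2, 3]])]),
    (4, [1, 2, 3, 4], 2, [(4, [(1, 4, 2)], []), (3, [(1, 4, 3)], [[2, 3]])]),
    (4, [1, 2, 4, 5], 2, [(4, [(1, 4, 2)], []), (3, [(1, 4, 3)], []), (1, [(0, 2, 1), (3, 4, 1), (0, 3, 1)], [[1, 2], [1, 4]]), (5, [(2, 4, 5), (0, 3, 5), (0, 1, 5)], [[1, 5], [2, 5], [4, 5]])]),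
    (4, [0, 1, 3, 6], 2, [(4, [(1, 4, 2)], []), (3, [(1, 4, 3)], []), (1, [(0, 2, 1), (3, 4, 1), (0, 3, 1)], [[1, 3]]), (6, [(0, 2, 6), (3, 4, 6), (0, 1, 6)], [[1, 6], [3, 6]])]),
    (4, [1, 3, 4, 6], 2, [(4, [(1, 4, 2)], []), (3, [(1, 4, 3)], []), (1, [(0, 2, 1), (3, 4, 1), (0, 3, 1)], [[1, 3], [1, 4]]), (6, [(0, 2, 6), (3, 4, 6), (0, 1, 6)], [[1, 6], [3, 6]])]),
    (4, [2, 3, 4, 6], 2, [(4, [(1, 4, 2)], []), (3, [(1, 4, 3)], [[2, 3]])]),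
    (4, [1, 2, 5, 6], 2, [(4, [(1, 4, 2)], []), (3, [(1, 4, 3)], []), (1, [(0, 2, 1), (3, 4, 1), (0, 3, 1)], [[1, 2]]), (5, [(2, 4, 5), (0, 3, 5), (0, 1, 5)], [[1, 5], [2, 5]])]),
    (4, [0, 1, 3, 4, 5, 7], 3, [(4, [(1, 4, 3)], []), (1, [(0, 3, 1), (3, 4, 1)], [[1, 3], [1, 4]]), (5, [(0, 3, 5), (2, 4, 5), (0, 1, 5)], [[1, 5], [4, 5]])]),
    (4, [1, 2, 4, 6, 8], 2, [(4, [(1, 4, 2)], []), (1, [(0, 2, 1), (3, 4, 1)], [[1, 2], [1, 4]]), (6, [(0, 2, 6), (3, 4, 6), (0, 1, 6)], [[1, 6]]), (8, [(2, 4, 8), (0, 6, 8)], [[1, 8]])]),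
    (5, [0, 1, 2, 3], 1, [(5, [(1, 5, 1)], []), (3, [(0, 1, 3), (1, 5, 3)], [[1, 3]])]),
    (5, [0, 2, 3, 4], 1, [(5, [(1, 5, 1)], []), (3, [(0, 1, 3), (1, 5, 3)], []), (2, [(0, 1, 2), (2, 5, 2)], [[2, 3]]), (4, [(2, 5, 4), (0, 3, 4), (0, 2, 4)], [[2, 4], [3, 4]])]),
    (5, [1, 2, 3, 4], 1, [(5, [(1, 5, 1)], []), (3, [(0, 1, 3), (1, 5, 3)], [[1, 3]])]),
    (5, [1, 2, 4, 5], 1, [(5, [(1, 5, 1)], [[1, 5]]), (3, [(0, 1, 3), (1, 5, 3)], []), (2, [(0, 1, 2), (2, 5, 2)], [[1, 2], [2, 5]]), (4, [(2, 5, 4), (0, 3, 4), (0, 2, 4)], [[1, 4], [2, 4], [4, 5]])]),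
    (5, [0, 1, 3, 6], 1, [(5, [(1, 5, 1)], []), (3, [(0, 1, 3), (1, 5, 3)], [[1, 3]])]),
    (5, [1, 3, 4, 6], 1, [(5, [(1, 5, 1)], []), (3, [(0, 1, 3), (1, 5, 3)], [[1, 3]])]),
    (5, [2, 3, 4, 6], 1, [(5, [(1, 5, 1)], []), (3, [(0, 1, 3), (1, 5, 3)], []), (4, [(2, 5, 4), (0, 3, 4)], [[3, 4]]), (6, [(0, 1, 6), (2, 5, 6)], [[3, 6], [4, 6]])]),
    (5, [1, 2, 5, 6], 1, [(2, [(0, 1, 2)], [[1, 2]]), (6, [(0, 1, 6), (0, 2, 6)], [[1, 6], [2, 6]])]),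
    (5, [0, 1, 3, 4, 5, 7], 1, [(5, [(1, 5, 1)], [[1, 5]]), (3, [(0, 1, 3), (1, 5, 3)], [[1, 3]])]),
    (5, [1, 2, 4, 6, 8], 1, [(2, [(0, 1, 2)], [[1, 2]]), (6, [(0, 1, 6), (0, 2, 6)], [[1, 6], [2, 6]])]),
    (6, [0, 1, 2, 3], 1, [(6, [(1, 6, 1)], []), (2, [(0, 1, 2), (1, 6, 2)], [[1, 2]])]),
    (6, [0, 2, 3, 4], 1, [(6, [(1, 6, 1)], []), (2, [(0, 1, 2), (1, 6, 2)], []), (3, [(0, 1, 3), (3, 6, 3)], [[2, 3]]), (4, [(3, 6, 4), (0, 2, 4), (0, 3, 4)], [[2, 4], [3, 4]])]),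
    (6, [1, 2, 3, 4], 1, [(6, [(1, 6, 1)], []), (2, [(0, 1, 2), (1, 6, 2)], [[1, 2]])]),
    (6, [1, 2, 4, 5], 1, [(6, [(1, 6, 1)], []), (2, [(0, 1, 2), (1, 6, 2)], [[1, 2]])]),
    (6, [0, 1, 3, 6], 1, [(6, [(1, 6, 1)], [[1, 6]]), (3, [(0, 1, 3), (3, 6, 3)], [[1, 3], [3, 6]]), (0, [(0, 1, 0), (3, 6, 0)], [[0, 1], [0, 3]])]),
    (6, [1, 3, 4, 6], 1, [(6, [(1, 6, 1)], [[1, 6]]), (2, [(0, 1, 2), (1, 6, 2)], []), (3, [(0, 1, 3), (3, 6, 3)], [[1, 3], [3, 6]]), (4, [(3, 6, 4), (0, 2, 4), (0, 3, 4)], [[1, 4], [3, 4], [4, 6]])]),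
    (6, [2, 3, 4, 6], 1, [(6, [(1, 6, 1)], []), (2, [(0, 1, 2), (1, 6, 2)], []), (3, [(0, 1, 3), (3, 6, 3)], [[2, 3], [3, 6]]), (4, [(3, 6, 4), (0, 2, 4), (0, 3, 4)], [[2, 4], [3, 4], [4, 6]])]),
    (6, [1, 2, 5, 6], 1, [(6, [(1, 6, 1)], [[1, 6]]), (2, [(0, 1, 2), (1, 6, 2)], [[1, 2]])]),
    (6, [0, 1, 3, 4, 5, 7], 0, [(1, [(0, 0, 1)], [[0, 1]]), (5, [(0, 0, 5), (0, 1, 5)], [[1, 5]]), (3, [(0, 1, 3), (0, 5, 3), (4, 0, 0)], [[0, 3], [1, 3]])]),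
    (6, [1, 2, 4, 6, 8], 8, [(6, [(1, 6, 8)], []), (1, [(1, 6, 1)], [[1, 6], [1, 8]])]),
    (7, [0, 1, 2, 3], 0, [(7, [(1, 7, 0)], []), (1, [(0, 0, 1), (2, 7, 1)], [[0, 1]]), (2, [(3, 7, 2), (0, 1, 2)], [[0, 2], [1, 2]]), (3, [(2, 7, 3), (0, 1, 3)], [[1, 3], [2, 3]])]),
    (7, [0, 2, 3, 4], 0, [(7, [(1, 7, 0)], []), (1, [(0, 0, 1), (2, 7, 1)], []), (2, [(3, 7, 2), (0, 1, 2)], [[0, 2]]), (4, [(3, 7, 4), (0, 2, 4)], [[0, 4], [2, 4]]), (3, [(2, 7, 3), (0, 1, 3), (0, 4, 3)], [[2, 3], [3, 4]])]),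
    (7, [1, 2, 3, 4], 1, [(2, [(0, 1, 2)], [[1, 2]]), (3, [(0, 1, 3)], [[1, 3], [2, 3]]), (4, [(0, 2, 4), (0, 3, 4)], [[1, 4], [2, 4], [3, 4]])]),
    (7, [1, 2, 4, 5], 0, [(7, [(1, 7, 0)], []), (1, [(0, 0, 1), (2, 7, 1)], []), (5, [(0, 0, 5), (2, 7, 5), (0, 1, 5)], [[1, 5]])]),
    (7, [0, 1, 3, 6], 0, [(7, [(1, 7, 0)], []), (1, [(0, 0, 1), (2, 7, 1)], [[0, 1]]), (6, [(3, 7, 6), (0, 1, 6)], [[0, 6], [1, 6]]), (3, [(2, 7, 3), (0, 1, 3)], [[1, 3], [3, 6]])]),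
    (7, [1, 3, 4, 6], 1, [(3, [(0, 1, 3)], [[1, 3]]), (4, [(0, 3, 4)], [[1, 4], [3, 4]]), (2, [(0, 1, 2), (0, 4, 2)], []), (6, [(0, 1, 6), (0, 2, 6)], [[1, 6], [3, 6], [4, 6]])]),
    (7, [2, 3, 4, 6], 2, [(4, [(0, 2, 4)], [[2, 4]]), (3, [(0, 4, 3)], [[2, 3], [3, 4]]), (1, [(0, 2, 1), (0, 3, 1)], []), (6, [(0, 2, 6), (0, 1, 6)], [[2, 6], [3, 6], [4, 6]])]),
    (7, [1, 2, 5, 6], 1, [(2, [(0, 1, 2)], [[1, 2]]), (6, [(0, 1, 6), (0, 2, 6)], [[1, 6], [2, 6]])]),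
    (7, [0, 1, 3, 4, 5, 7], 0, [(7, [(1, 7, 0)], []), (1, [(0, 0, 1), (2, 7, 1)], [[0, 1], [1, 7]]), (5, [(0, 0, 5), (2, 7, 5), (0, 1, 5)], [[1, 5]])]),
    (7, [1, 2, 4, 6, 8], 1, [(2, [(0, 1, 2)], [[1, 2]]), (6, [(0, 1, 6), (0, 2, 6)], [[1, 6], [2, 6]])]),
    (8, [0, 1, 2, 3], 8, [(6, [(1, 8, 6)], []), (1, [(2, 8, 1), (0, 6, 1)], []), (2, [(2, 8, 2), (0, 6, 2), (0, 1, 2)], [[1, 2]])]),
    (8, [0, 2, 3, 4], 8, [(6, [(1, 8, 6)], []), (2, [(2, 8, 2), (0, 6, 2)], []), (4, [(2, 8, 4), (0, 2, 4)], [[2, 4]]), (3, [(3, 8, 3), (0, 4, 3)], [[2, 3], [3, 4]]), (5, [(2, 8, 5), (0, 3, 5)], []), (0, [(3, 8, 0), (0, 5, 0)], [[0, 2], [0, 3], [0, 4]])]),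
    (8, [1, 2, 3, 4], 8, [(6, [(1, 8, 6)], []), (1, [(2, 8, 1), (0, 6, 1)], []), (2, [(2, 8, 2), (0, 6, 2), (0, 1, 2)], [[1, 2]])]),
    (8, [1, 2, 4, 5], 8, [(6, [(1, 8, 6)], []), (1, [(2, 8, 1), (0, 6, 1)], []), (2, [(2, 8, 2), (0, 6, 2), (0, 1, 2)], [[1, 2]])]),
    (8, [0, 1, 3, 6], 6, [(8, [(1, 8, 6)], []), (1, [(0, 6, 1), (2, 8, 1)], [[1, 6]]), (0, [(3, 8, 0), (0, 1, 0)], [[0, 1], [0, 6]]), (3, [(3, 8, 3), (0, 1, 3)], [[0, 3], [1, 3], [3, 6]])]),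
    (8, [1, 3, 4, 6], 6, [(8, [(1, 8, 6)], []), (1, [(0, 6, 1), (2, 8, 1)], [[1, 6]]), (2, [(0, 6, 2), (2, 8, 2), (0, 1, 2)], []), (3, [(3, 8, 3), (0, 1, 3)], [[1, 3], [3, 6]]), (4, [(2, 8, 4), (0, 2, 4), (0, 3, 4)], [[1, 4], [3, 4], [4, 6]])]),
    (8, [2, 3, 4, 6], 6, [(8, [(1, 8, 6)], []), (1, [(0, 6, 1), (2, 8, 1)], []), (2, [(0, 6, 2), (2, 8, 2), (0, 1, 2)], []), (3, [(3, 8, 3), (0, 1, 3)], [[2, 3], [3, 6]]), (4, [(2, 8, 4), (0, 2, 4), (0, 3, 4)], [[2, 4], [3, 4], [4, 6]])]),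
    (8, [1, 2, 5, 6], 8, [(6, [(1, 8, 6)], []), (1, [(2, 8, 1), (0, 6, 1)], [[1, 6]]), (2, [(2, 8, 2), (0, 6, 2), (0, 1, 2)], [[1, 2]])]),
    (8, [0, 1, 3, 4, 5, 7], 0, [(1, [(0, 0, 1)], [[0, 1]]), (5, [(0, 0, 5), (0, 1, 5)], [[1, 5]]), (3, [(0, 1, 3), (0, 5, 3), (4, 0, 0)], [[0, 3], [1, 3]])]),
    (8, [1, 2, 4, 6, 8], 8, [(6, [(1, 8, 6)], []), (1, [(2, 8, 1), (0, 6, 1)], [[1, 6], [1, 8]]), (2, [(2, 8, 2), (0, 6, 2), (0, 1, 2)], [[1, 2]])]),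
    (9, [0, 1, 2, 3], 0, [(1, [(0, 0, 1)], [[0, 1]]), (2, [(0, 1, 2)], [[0, 2], [1, 2]]), (3, [(0, 1, 3)], [[0, 3], [1, 3], [2, 3]])]),
    (9, [0, 2, 3, 4], 2, [(4, [(0, 2, 4)], [[2, 4]]), (3, [(0, 4, 3)], [[2, 3], [3, 4]]), (1, [(0, 2, 1), (0, 3, 1)], []), (0, [(0, 1, 0)], [[0, 2], [0, 3], [0, 4]])]),
    (9, [1, 2, 3, 4], 1, [(2, [(0, 1, 2)], [[1, 2]]), (3, [(0, 1, 3)], [[1, 3], [2, 3]]), (4, [(0, 2, 4), (0, 3, 4)], [[1, 4], [2, 4], [3, 4]])]),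
    (9, [1, 2, 4, 5], 1, [(2, [(0, 1, 2)], [[1, 2]]), (4, [(0, 2, 4)], [[1, 4], [2, 4]]), (3, [(0, 1, 3), (0, 4, 3)], []), (5, [(0, 1, 5), (0, 3, 5)], [[1, 5], [2, 5], [4, 5]])]),
    (9, [0, 1, 3, 6], 0, [(1, [(0, 0, 1)], [[0, 1]]), (3, [(0, 1, 3)], [[0, 3], [1, 3]]), (6, [(0, 1, 6)], [[0, 6], [1, 6], [3, 6]])]),
    (9, [1, 3, 4, 6], 1, [(3, [(0, 1, 3)], [[1, 3]]), (4, [(0, 3, 4)], [[1, 4], [3, 4]]), (2, [(0, 1, 2), (0, 4, 2)], []), (6, [(0, 1, 6), (0, 2, 6)], [[1, 6], [3, 6], [4, 6]])]),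
    (9, [2, 3, 4, 6], 2, [(4, [(0, 2, 4)], [[2, 4]]), (3, [(0, 4, 3)], [[2, 3], [3, 4]]), (1, [(0, 2, 1), (0, 3, 1)], []), (6, [(0, 2, 6), (0, 1, 6)], [[2, 6], [3, 6], [4, 6]])]),
    (9, [1, 2, 5, 6], 1, [(2, [(0, 1, 2)], [[1, 2]]), (6, [(0, 1, 6), (0, 2, 6)], [[1, 6], [2, 6]])]),
    (9, [0, 1, 3, 4, 5, 7], 0, [(1, [(0, 0, 1)], [[0, 1]]), (5, [(0, 0, 5), (0, 1, 5)], [[1, 5]]), (3, [(0, 1, 3), (0, 5, 3), (4, 0, 0)], [[0, 3], [1, 3]])]),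
    (9, [1, 2, 4, 6, 8], 1, [(2, [(0, 1, 2)], [[1, 2]]), (6, [(0, 1, 6), (0, 2, 6)], [[1, 6], [2, 6]])])]

def cG : Cert where
  n := 8
  E := [(0, 1), (0, 5), (0, 7), (1, 2), (1, 3), (1, 5), (1, 6), (2, 4), (2, 6), (3, 4), (3, 5)]
  non := [(1, 7), (2, 3), (3, 7), (5, 2), (5, 4), (5, 6), (5, 7)]
  t5 := true
  g61 := true
  fam := [[0, 1, 2, 3], [0, 2, 3, 4], [1, 2, 3, 4], [1, 2, 4, 5], [0, 1, 3, 6], [1, 3, 4, 6], [0, 1, 2, 5, 6], [1, 2, 3, 5, 6], [2, 3, 4, 5, 6], [0, 1, 3, 4, 5, 7]]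
  tab := [
    (0, [0, 1, 2, 3], 0, [(1, [(1, 0, 1)], [[0, 1]]), (2, [(3, 0, 2), (0, 1, 2)], [[0, 2], [1, 2]]), (3, [(3, 0, 3), (0, 1, 3)], [[1, 3], [2, 3]])]),
    (0, [0, 2, 3, 4], 0, [(1, [(1, 0, 1)], []), (2, [(3, 0, 2), (0, 1, 2)], [[0, 2]]), (4, [(3, 0, 4), (0, 2, 4)], [[0, 4], [2, 4]]), (3, [(3, 0, 3), (0, 1, 3), (0, 4, 3)], [[2, 3], [3, 4]])]),
    (0, [1, 2, 3, 4], 1, [(2, [(0, 1, 2)], [[1, 2]]), (3, [(0, 1, 3)], [[1, 3], [2, 3]]), (4, [(0, 2, 4), (0, 3, 4)], [[1, 4], [2, 4], [3, 4]])]),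
    (0, [1, 2, 4, 5], 0, [(1, [(1, 0, 1)], []), (5, [(1, 0, 5), (0, 1, 5)], [[1, 5]])]),
    (0, [0, 1, 3, 6], 0, [(1, [(1, 0, 1)], [[0, 1]]), (3, [(3, 0, 3), (0, 1, 3)], [[1, 3]]), (6, [(3, 0, 6), (0, 1, 6), (5, 0, 0)], [[1, 6], [3, 6]])]),
    (0, [1, 3, 4, 6], 0, [(1, [(1, 0, 1)], []), (3, [(3, 0, 3), (0, 1, 3)], [[1, 3]]), (6, [(3, 0, 6), (0, 1, 6), (5, 0, 0)], [[1, 6], [3, 6]])]),
    (0, [0, 1, 2, 5, 6], 0, [(1, [(1, 0, 1)], [[0, 1]]), (5, [(1, 0, 5), (0, 1, 5)], [[1, 5]])]),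
    (0, [1, 2, 3, 5, 6], 0, [(1, [(1, 0, 1)], []), (5, [(1, 0, 5), (0, 1, 5)], [[1, 5]])]),
    (0, [2, 3, 4, 5, 6], 0, [(1, [(1, 0, 1)], []), (2, [(3, 0, 2), (0, 1, 2)], []), (3, [(3, 0, 3), (0, 1, 3)], [[2, 3]]), (4, [(3, 0, 4), (0, 2, 4), (0, 3, 4)], [[2, 4], [3, 4]])]),
    (0, [0, 1, 3, 4, 5, 7], 0, [(1, [(1, 0, 1)], [[0, 1]]), (7, [(1, 0, 7)], [[1, 7]])]),
    (1, [0, 1, 2, 3], 1, [(2, [(1, 1, 2)], [[1, 2]]), (3, [(1, 1, 3)], [[1, 3], [2, 3]])]),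
    (1, [0, 2, 3, 4], 1, [(2, [(1, 1, 2)], []), (3, [(1, 1, 3)], [[2, 3]])]),
    (1, [1, 2, 3, 4], 1, [(2, [(1, 1, 2)], [[1, 2]]), (3, [(1, 1, 3)], [[1, 3], [2, 3]])]),
    (1, [1, 2, 4, 5], 1, [(2, [(1, 1, 2)], [[1, 2]]), (5, [(1, 1, 5)], [[2, 5]])]),
    (1, [0, 1, 3, 6], 1, [(3, [(1, 1, 3)], [[1, 3]]), (6, [(1, 1, 6), (5, 0, 0)], [[3, 6]])]),
    (1, [1, 3, 4, 6], 1, [(3, [(1, 1, 3)], [[1, 3]]), (6, [(1, 1, 6), (5, 0, 0)], [[3, 6]])]),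
    (1, [0, 1, 2, 5, 6], 1, [(2, [(1, 1, 2)], [[1, 2]]), (5, [(1, 1, 5)], [[2, 5]])]),
    (1, [1, 2, 3, 5, 6], 1, [(3, [(1, 1, 3)], [[1, 3]]), (6, [(1, 1, 6), (5, 0, 0)], [[3, 6]])]),
    (1, [2, 3, 4, 5, 6], 1, [(3, [(1, 1, 3)], []), (6, [(1, 1, 6), (5, 0, 0)], [[3, 6]])]),
    (1, [0, 1, 3, 4, 5, 7], 0, [(1, [(1, 1, 0)], []), (3, [(1, 1, 3)], [[1, 3]]), (4, [(3, 1, 4), (0, 3, 4)], [[0, 4], [1, 4]]), (7, [(0, 0, 7), (2, 1, 7)], [[4, 7]])]),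
    (2, [0, 1, 2, 3], 1, [(2, [(1, 2, 1)], [[1, 2]]), (3, [(0, 1, 3), (2, 2, 3)], [[1, 3], [2, 3]]), (0, [(0, 1, 0), (3, 2, 0)], [[0, 1], [0, 3]])]),
    (2, [0, 2, 3, 4], 1, [(2, [(1, 2, 1)], []), (4, [(1, 2, 4)], [[2, 4]]), (3, [(0, 1, 3), (2, 2, 3), (0, 4, 3)], [[2, 3]]), (0, [(0, 1, 0), (3, 2, 0)], [[0, 3], [0, 4]])]),
    (2, [1, 2, 3, 4], 1, [(2, [(1, 2, 1)], [[1, 2]]), (4, [(1, 2, 4)], [[1, 4], [2, 4]])]),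
    (2, [1, 2, 4, 5], 1, [(2, [(1, 2, 1)], [[1, 2]]), (4, [(1, 2, 4)], [[1, 4], [2, 4]])]),
    (2, [0, 1, 3, 6], 1, [(2, [(1, 2, 1)], []), (6, [(0, 1, 6), (1, 2, 6), (5, 0, 0)], [[1, 6]])]),
    (2, [1, 3, 4, 6], 2, [(4, [(1, 2, 4)], []), (6, [(1, 2, 6)], [[4, 6]])]),
    (2, [0, 1, 2, 5, 6], 1, [(2, [(1, 2, 1)], [[1, 2]]), (6, [(0, 1, 6), (1, 2, 6), (5, 0, 0)], [[1, 6]])]),
    (2, [1, 2, 3, 5, 6], 1, [(2, [(1, 2, 1)], [[1, 2]]), (6, [(0, 1, 6), (1, 2, 6), (5, 0, 0)], [[1, 6]])]),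
    (2, [2, 3, 4, 5, 6], 2, [(4, [(1, 2, 4)], [[2, 4]]), (6, [(1, 2, 6)], [[4, 6]])]),
    (2, [0, 1, 3, 4, 5, 7], 1, [(2, [(1, 2, 1)], []), (4, [(1, 2, 4)], [[1, 4]])]),
    (3, [0, 1, 2, 3], 1, [(3, [(1, 3, 1)], [[1, 3]]), (2, [(0, 1, 2), (2, 3, 2)], [[1, 2], [2, 3]]), (0, [(0, 1, 0), (3, 3, 0)], [[0, 1], [0, 2]])]),
    (3, [0, 2, 3, 4], 3, [(4, [(1, 3, 4)], [[3, 4]]), (5, [(1, 3, 5)], []), (0, [(3, 3, 0), (0, 5, 0)], [[0, 4]]), (2, [(2, 3, 2), (0, 4, 2)], [[0, 2], [2, 3]])]),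
    (3, [1, 2, 3, 4], 1, [(3, [(1, 3, 1)], [[1, 3]]), (4, [(1, 3, 4)], [[1, 4], [3, 4]])]),
    (3, [1, 2, 4, 5], 3, [(4, [(1, 3, 4)], []), (5, [(1, 3, 5)], [[4, 5]])]),
    (3, [0, 1, 3, 6], 1, [(3, [(1, 3, 1)], [[1, 3]]), (6, [(0, 1, 6), (3, 3, 6), (5, 0, 0)], [[1, 6], [3, 6]]), (0, [(0, 1, 0), (3, 3, 0)], [[0, 1], [0, 6]])]),
    (3, [1, 3, 4, 6], 1, [(3, [(1, 3, 1)], [[1, 3]]), (4, [(1, 3, 4)], [[1, 4], [3, 4]])]),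
    (3, [0, 1, 2, 5, 6], 1, [(3, [(1, 3, 1)], []), (5, [(0, 1, 5), (1, 3, 5)], [[1, 5]])]),
    (3, [1, 2, 3, 5, 6], 1, [(3, [(1, 3, 1)], [[1, 3]]), (5, [(0, 1, 5), (1, 3, 5)], [[1, 5]])]),
    (3, [2, 3, 4, 5, 6], 3, [(4, [(1, 3, 4)], [[3, 4]]), (5, [(1, 3, 5)], [[4, 5]])]),
    (3, [0, 1, 3, 4, 5, 7], 3, [(4, [(1, 3, 4)], [[3, 4]]), (5, [(1, 3, 5)], [[4, 5]])]),
    (4, [0, 1, 2, 3], 2, [(4, [(1, 4, 2)], []), (3, [(1, 4, 3)], [[2, 3]])]),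
    (4, [0, 2, 3, 4], 2, [(4, [(1, 4, 2)], []), (3, [(1, 4, 3)], [[2, 3]])]),
    (4, [1, 2, 3, 4], 2, [(4, [(1, 4, 2)], []), (3, [(1, 4, 3)], [[2, 3]])]),
    (4, [1, 2, 4, 5], 2, [(4, [(1, 4, 2)], []), (3, [(1, 4, 3)], []), (1, [(0, 2, 1), (3, 4, 1), (0, 3, 1)], [[1, 2], [1, 4]]), (5, [(2, 4, 5), (0, 3, 5), (0, 1, 5)], [[1, 5], [2, 5], [4, 5]])]),
    (4, [0, 1, 3, 6], 2, [(4, [(1, 4, 2)], []), (3, [(1, 4, 3)], []), (1, [(0, 2, 1), (3, 4, 1), (0, 3, 1)], [[1, 3]]), (6, [(0, 2, 6), (3, 4, 6), (0, 1, 6), (5, 0, 0)], [[1, 6], [3, 6]])]),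
    (4, [1, 3, 4, 6], 2, [(4, [(1, 4, 2)], []), (3, [(1, 4, 3)], []), (1, [(0, 2, 1), (3, 4, 1), (0, 3, 1)], [[1, 3], [1, 4]]), (6, [(0, 2, 6), (3, 4, 6), (0, 1, 6), (5, 0, 0)], [[1, 6], [3, 6]])]),
    (4, [0, 1, 2, 5, 6], 2, [(4, [(1, 4, 2)], []), (1, [(0, 2, 1), (3, 4, 1)], [[1, 2]]), (6, [(0, 2, 6), (3, 4, 6), (0, 1, 6), (5, 0, 0)], [[1, 6]])]),
    (4, [1, 2, 3, 5, 6], 2, [(4, [(1, 4, 2)], []), (3, [(1, 4, 3)], [[2, 3]])]),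
    (4, [2, 3, 4, 5, 6], 2, [(4, [(1, 4, 2)], []), (3, [(1, 4, 3)], [[2, 3]])]),
    (4, [0, 1, 3, 4, 5, 7], 3, [(4, [(1, 4, 3)], []), (1, [(0, 3, 1), (3, 4, 1)], [[1, 3], [1, 4]]), (5, [(0, 3, 5), (2, 4, 5), (0, 1, 5)], [[1, 5], [4, 5]])]),
    (5, [0, 1, 2, 3], 1, [(5, [(1, 5, 1)], []), (3, [(0, 1, 3), (1, 5, 3)], [[1, 3]])]),
    (5, [0, 2, 3, 4], 1, [(5, [(1, 5, 1)], []), (3, [(0, 1, 3), (1, 5, 3)], []), (2, [(0, 1, 2), (2, 5, 2)], [[2, 3]]), (4, [(2, 5, 4), (0, 3, 4), (0, 2, 4)], [[2, 4], [3, 4]])]),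
    (5, [1, 2, 3, 4], 1, [(5, [(1, 5, 1)], []), (3, [(0, 1, 3), (1, 5, 3)], [[1, 3]])]),
    (5, [1, 2, 4, 5], 1, [(5, [(1, 5, 1)], [[1, 5]]), (3, [(0, 1, 3), (1, 5, 3)], []), (2, [(0, 1, 2), (2, 5, 2)], [[1, 2], [2, 5]]), (4, [(2, 5, 4), (0, 3, 4), (0, 2, 4)], [[1, 4], [2, 4], [4, 5]])]),
    (5, [0, 1, 3, 6], 1, [(5, [(1, 5, 1)], []), (3, [(0, 1, 3), (1, 5, 3)], [[1, 3]])]),
    (5, [1, 3, 4, 6], 1, [(5, [(1, 5, 1)], []), (3, [(0, 1, 3), (1, 5, 3)], [[1, 3]])]),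
    (5, [0, 1, 2, 5, 6], 0, [(5, [(1, 5, 0)], []), (1, [(0, 0, 1), (1, 5, 1)], [[0, 1], [1, 5]])]),
    (5, [1, 2, 3, 5, 6], 1, [(5, [(1, 5, 1)], [[1, 5]]), (3, [(0, 1, 3), (1, 5, 3)], [[1, 3]])]),
    (5, [2, 3, 4, 5, 6], 1, [(5, [(1, 5, 1)], []), (3, [(0, 1, 3), (1, 5, 3)], []), (4, [(2, 5, 4), (0, 3, 4)], [[3, 4], [4, 5]]), (6, [(0, 1, 6), (2, 5, 6), (5, 0, 0)], [[3, 6], [4, 6], [5, 6]])]),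
    (5, [0, 1, 3, 4, 5, 7], 1, [(5, [(1, 5, 1)], [[1, 5]]), (3, [(0, 1, 3), (1, 5, 3)], [[1, 3]])]),
    (6, [0, 1, 2, 3], 1, [(6, [(1, 6, 1)], []), (2, [(0, 1, 2), (1, 6, 2)], [[1, 2]])]),
    (6, [0, 2, 3, 4], 1, [(6, [(1, 6, 1)], []), (2, [(0, 1, 2), (1, 6, 2)], []), (3, [(0, 1, 3), (3, 6, 3)], [[2, 3]]), (4, [(3, 6, 4), (0, 2, 4), (0, 3, 4)], [[2, 4], [3, 4]])]),
    (6, [1, 2, 3, 4], 1, [(6, [(1, 6, 1)], []), (2, [(0, 1, 2), (1, 6, 2)], [[1, 2]])]),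
    (6, [1, 2, 4, 5], 1, [(6, [(1, 6, 1)], []), (2, [(0, 1, 2), (1, 6, 2)], [[1, 2]])]),
    (6, [0, 1, 3, 6], 1, [(6, [(1, 6, 1)], [[1, 6]]), (3, [(0, 1, 3), (3, 6, 3)], [[1, 3], [3, 6]]), (0, [(0, 1, 0), (3, 6, 0)], [[0, 1], [0, 3]])]),
    (6, [1, 3, 4, 6], 1, [(6, [(1, 6, 1)], [[1, 6]]), (2, [(0, 1, 2), (1, 6, 2)], []), (3, [(0, 1, 3), (3, 6, 3)], [[1, 3], [3, 6]]), (4, [(3, 6, 4), (0, 2, 4), (0, 3, 4)], [[1, 4], [3, 4], [4, 6]])]),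
    (6, [0, 1, 2, 5, 6], 1, [(6, [(1, 6, 1)], [[1, 6]]), (2, [(0, 1, 2), (1, 6, 2)], [[1, 2]])]),
    (6, [1, 2, 3, 5, 6], 1, [(6, [(1, 6, 1)], [[1, 6]]), (2, [(0, 1, 2), (1, 6, 2)], [[1, 2]])]),
    (6, [2, 3, 4, 5, 6], 1, [(6, [(1, 6, 1)], []), (2, [(0, 1, 2), (1, 6, 2)], []), (4, [(3, 6, 4), (0, 2, 4)], [[2, 4], [4, 6]]), (5, [(0, 1, 5), (2, 6, 5)], [[2, 5], [4, 5], [5, 6]])]),
    (6, [0, 1, 3, 4, 5, 7], 1, [(6, [(1, 6, 1)], []), (0, [(0, 1, 0), (3, 6, 0)], [[0, 1]]), (3, [(0, 1, 3), (3, 6, 3)], [[0, 3], [1, 3]])]),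
    (7, [0, 1, 2, 3], 0, [(7, [(1, 7, 0)], []), (1, [(0, 0, 1), (2, 7, 1)], [[0, 1]]), (2, [(3, 7, 2), (0, 1, 2)], [[0, 2], [1, 2]]), (3, [(2, 7, 3), (0, 1, 3)], [[1, 3], [2, 3]])]),
    (7, [0, 2, 3, 4], 0, [(7, [(1, 7, 0)], []), (1, [(0, 0, 1), (2, 7, 1)], []), (2, [(3, 7, 2), (0, 1, 2)], [[0, 2]]), (4, [(3, 7, 4), (0, 2, 4)], [[0, 4], [2, 4]]), (3, [(2, 7, 3), (0, 1, 3), (0, 4, 3)], [[2, 3], [3, 4]])]),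
    (7, [1, 2, 3, 4], 1, [(2, [(0, 1, 2)], [[1, 2]]), (3, [(0, 1, 3)], [[1, 3], [2, 3]]), (4, [(0, 2, 4), (0, 3, 4)], [[1, 4], [2, 4], [3, 4]])]),
    (7, [1, 2, 4, 5], 0, [(7, [(1, 7, 0)], []), (1, [(0, 0, 1), (2, 7, 1)], []), (5, [(0, 0, 5), (2, 7, 5), (0, 1, 5)], [[1, 5]])]),
    (7, [0, 1, 3, 6], 0, [(7, [(1, 7, 0)], []), (1, [(0, 0, 1), (2, 7, 1)], [[0, 1]]), (6, [(3, 7, 6), (0, 1, 6), (5, 0, 0)], [[0, 6], [1, 6]]), (3, [(2, 7, 3), (0, 1, 3)], [[1, 3], [3, 6]])]),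
    (7, [1, 3, 4, 6], 6, [(1, [(0, 6, 1), (5, 0, 0)], [[1, 6]]), (2, [(0, 6, 2), (0, 1, 2)], []), (3, [(0, 1, 3)], [[1, 3], [3, 6]]), (4, [(0, 2, 4), (0, 3, 4)], [[1, 4], [3, 4], [4, 6]])]),
    (7, [0, 1, 2, 5, 6], 0, [(7, [(1, 7, 0)], []), (1, [(0, 0, 1), (2, 7, 1)], [[0, 1]]), (5, [(0, 0, 5), (2, 7, 5), (0, 1, 5)], [[1, 5]])]),
    (7, [1, 2, 3, 5, 6], 0, [(7, [(1, 7, 0)], []), (1, [(0, 0, 1), (2, 7, 1)], []), (5, [(0, 0, 5), (2, 7, 5), (0, 1, 5)], [[1, 5]])]),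
    (7, [2, 3, 4, 5, 6], 0, [(7, [(1, 7, 0)], []), (1, [(0, 0, 1), (2, 7, 1)], []), (5, [(0, 0, 5), (2, 7, 5), (0, 1, 5)], []), (3, [(2, 7, 3), (0, 1, 3), (0, 5, 3), (4, 0, 0)], []), (2, [(3, 7, 2), (0, 1, 2)], [[2, 3], [2, 5]]), (4, [(3, 7, 4), (0, 3, 4), (0, 2, 4)], [[2, 4], [3, 4], [4, 5]])]),
    (7, [0, 1, 3, 4, 5, 7], 0, [(7, [(1, 7, 0)], []), (1, [(0, 0, 1), (2, 7, 1)], [[0, 1], [1, 7]]), (5, [(0, 0, 5), (2, 7, 5), (0, 1, 5)], [[1, 5]])]),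
    (8, [0, 1, 2, 3], 0, [(1, [(0, 0, 1)], [[0, 1]]), (2, [(0, 1, 2)], [[0, 2], [1, 2]]), (3, [(0, 1, 3)], [[0, 3], [1, 3], [2, 3]])]),
    (8, [0, 2, 3, 4], 2, [(4, [(0, 2, 4)], [[2, 4]]), (3, [(0, 4, 3)], [[2, 3], [3, 4]]), (1, [(0, 2, 1), (0, 3, 1)], []), (0, [(0, 1, 0)], [[0, 2], [0, 3], [0, 4]])]),
    (8, [1, 2, 3, 4], 1, [(2, [(0, 1, 2)], [[1, 2]]), (3, [(0, 1, 3)], [[1, 3], [2, 3]]), (4, [(0, 2, 4), (0, 3, 4)], [[1, 4], [2, 4], [3, 4]])]),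
    (8, [1, 2, 4, 5], 1, [(2, [(0, 1, 2)], [[1, 2]]), (4, [(0, 2, 4)], [[1, 4], [2, 4]]), (3, [(0, 1, 3), (0, 4, 3)], []), (5, [(0, 1, 5), (0, 3, 5)], [[1, 5], [2, 5], [4, 5]])]),
    (8, [0, 1, 3, 6], 6, [(1, [(0, 6, 1), (5, 0, 0)], [[1, 6]]), (0, [(0, 1, 0)], [[0, 1], [0, 6]]), (3, [(0, 1, 3)], [[0, 3], [1, 3], [3, 6]])]),
    (8, [1, 3, 4, 6], 6, [(1, [(0, 6, 1), (5, 0, 0)], [[1, 6]]), (2, [(0, 6, 2), (0, 1, 2)], []), (3, [(0, 1, 3)], [[1, 3], [3, 6]]), (4, [(0, 2, 4), (0, 3, 4)], [[1, 4], [3, 4], [4, 6]])]),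
    (8, [0, 1, 2, 5, 6], 6, [(1, [(0, 6, 1), (5, 0, 0)], [[1, 6]]), (0, [(0, 1, 0)], [[0, 1], [0, 6]]), (5, [(0, 1, 5), (0, 0, 5)], [[1, 5], [5, 6]]), (3, [(0, 1, 3), (0, 5, 3), (4, 0, 0)], [])]),
    (8, [1, 2, 3, 5, 6], 6, [(1, [(0, 6, 1), (5, 0, 0)], [[1, 6]]), (3, [(0, 1, 3)], [[1, 3], [3, 6]]), (5, [(0, 1, 5), (0, 3, 5)], [[1, 5], [5, 6]]), (0, [(0, 1, 0), (0, 5, 0), (4, 0, 0)], [])]),
    (8, [2, 3, 4, 5, 6], 2, [(4, [(0, 2, 4)], [[2, 4]]), (3, [(0, 4, 3)], [[2, 3], [3, 4]]), (1, [(0, 2, 1), (0, 3, 1)], []), (5, [(0, 3, 5), (0, 1, 5)], [[2, 5], [4, 5]]), (6, [(0, 2, 6), (0, 1, 6), (5, 0, 0)], [[3, 6], [4, 6], [5, 6]]), (0, [(0, 1, 0), (0, 5, 0), (4, 0, 0)], [])]),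
    (8, [0, 1, 3, 4, 5, 7], 0, [(1, [(0, 0, 1)], [[0, 1]]), (5, [(0, 0, 5), (0, 1, 5)], [[1, 5]]), (3, [(0, 1, 3), (0, 5, 3), (4, 0, 0)], [[0, 3], [1, 3]])])]

end Certs

section Forced

/-- the edges of `H` -/
def EH : List (ℕ × ℕ) :=
  [(0, 1), (0, 5), (0, 7), (1, 2), (1, 3), (1, 5), (1, 6), (2, 4), (2, 6), (3, 4), (3, 5)]

variable {V : Type*} {G : SimpleGraph V}

set_option maxRecDepth 100000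

theorem c25_ok : c25.check = true := by decide +kernel
theorem c45_ok : c45.check = true := by decide +kernel
theorem c56_ok : c56.check = true := by decide +kernel
theorem c57_ok : c57.check = true := by decide +kernel
theorem c17_ok : c17.check = true := by decide +kernel
theorem c23_ok : c23.check = true := by decide +kernel
theorem c37_ok : c37.check = true := by decide +kernel
theorem c46_ok : c46.check = true := by decide +kernel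
theorem c67_ok : c67.check = true := by decide +kernel
theorem c58_ok : c58.check = true := by decide +kernel
theorem c28_ok : c28.check = true := by decide +kernel
theorem c48_ok : c48.check = true := by decide +kernel
theorem c68_ok : c68.check = true := by decide +kernel
theorem cG_ok : cG.check = true := by decide +kernel

theorem forced (φ : ℕ → V) (hinj : ∀ i < 8, ∀ j < 8, φ i = φ j → i = j)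
    (hE : ∀ e ∈ EH, G.Adj (φ e.1) (φ e.2)) : ¬ Locatable G := by
  classical
  have e01 : G.Adj (φ 0) (φ 1) := hE (0, 1) (by decide)
  have e05 : G.Adj (φ 0) (φ 5) := hE (0, 5) (by decide)
  have e07 : G.Adj (φ 0) (φ 7) := hE (0, 7) (by decide)
  have e12 : G.Adj (φ 1) (φ 2) := hE (1, 2) (by decide)
  have e13 : G.Adj (φ 1) (φ 3) := hE (1, 3) (by decide)
  have e15 : G.Adj (φ 1) (φ 5) := hE (1, 5) (by decide)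
  have e16 : G.Adj (φ 1) (φ 6) := hE (1, 6) (by decide)
  have e24 : G.Adj (φ 2) (φ 4) := hE (2, 4) (by decide)
  have e26 : G.Adj (φ 2) (φ 6) := hE (2, 6) (by decide)
  have e34 : G.Adj (φ 3) (φ 4) := hE (3, 4) (by decide)
  have e35 : G.Adj (φ 3) (φ 5) := hE (3, 5) (by decide)
  -- internal extra edges
  have internal : ∀ (c : Cert), c.check = true → c.n = 8 → c.non = [] → c.t5 = false →
      c.g61 = false → (∀ e ∈ c.E, G.Adj (φ e.1) (φ e.2)) → ¬ Locatable G := by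
    intro c hc hn hnon h5 h6 hcE
    refine cert_sound c hc φ (by rw [hn]; exact hinj) hcE ?_ ?_ ?_
    · rw [hnon]; simp
    · rw [h5]; simp
    · rw [h6]; simp
  by_cases h17 : G.Adj (φ 1) (φ 7)
  · refine internal c17 c17_ok rfl rfl rfl rfl ?_
    simp only [c17, List.forall_mem_cons]
    simp [*]
  by_cases h23 : G.Adj (φ 2) (φ 3)
  · refine internal c23 c23_ok rfl rfl rfl rfl ?_
    simp only [c23, List.forall_mem_cons]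
    simp [*]
  by_cases h37 : G.Adj (φ 3) (φ 7)
  · refine internal c37 c37_ok rfl rfl rfl rfl ?_
    simp only [c37, List.forall_mem_cons]
    simp [*]
  by_cases h46 : G.Adj (φ 4) (φ 6)
  · refine internal c46 c46_ok rfl rfl rfl rfl ?_
    simp only [c46, List.forall_mem_cons]
    simp [*]
  by_cases h67 : G.Adj (φ 6) (φ 7)
  · refine internal c67 c67_ok rfl rfl rfl rfl ?_
    simp only [c67, List.forall_mem_cons]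
    simp [*]
  by_cases h25 : G.Adj (φ 2) (φ 5)
  · refine internal c25 c25_ok rfl rfl rfl rfl ?_
    simp only [c25, List.forall_mem_cons]
    simp [*]
  by_cases h45 : G.Adj (φ 4) (φ 5)
  · refine internal c45 c45_ok rfl rfl rfl rfl ?_
    simp only [c45, List.forall_mem_cons]
    simp [*]
  by_cases h56 : G.Adj (φ 5) (φ 6)
  · refine internal c56 c56_ok rfl rfl rfl rfl ?_
    simp only [c56, List.forall_mem_cons]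
    simp [*]
  by_cases h57 : G.Adj (φ 5) (φ 7)
  · refine internal c57 c57_ok rfl rfl rfl rfl ?_
    simp only [c57, List.forall_mem_cons]
    simp [*]
  -- one more vertex
  have ext : ∀ (w : V), (∀ i < 8, w ≠ φ i) → ∀ i < 9, ∀ j < 9,
      (fun k => if k = 8 then w else φ k) i = (fun k => if k = 8 then w else φ k) j → i = j := by
    intro w hw i hi j hj h
    simp only at h
    by_cases h1 : i = 8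
    · by_cases h2 : j = 8
      · rw [h1, h2]
      · rw [if_pos h1, if_neg h2] at h
        exact absurd h (hw j (by omega))
    · by_cases h2 : j = 8
      · rw [if_neg h1, if_pos h2] at h
        exact absurd h.symm (hw i (by omega))
      · rw [if_neg h1, if_neg h2] at h
        exact hinj i (by omega) j (by omega) h
  by_cases h5 : ∀ w, G.Adj (φ 5) w → w = φ 0 ∨ w = φ 1 ∨ w = φ 3
  swap
  · push Not at h5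
    obtain ⟨w, hw, hw0, hw1, hw3⟩ := h5
    have hout : ∀ i < 8, w ≠ φ i := by
      intro i hi h
      interval_cases i
      · exact hw0 h
      · exact hw1 h
      · rw [h] at hw; exact h25 hw.symm
      · exact hw3 h
      · rw [h] at hw; exact h45 hw.symm
      · rw [h] at hw; exact G.loopless.irrefl _ hw
      · rw [h] at hw; exact h56 hw
      · rw [h] at hw; exact h57 hw
    refine cert_sound c58 c58_ok (fun k => if k = 8 then w else φ k) (ext w hout) ?_ ?_ ?_ ?_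
    · simp only [c58, List.forall_mem_cons]
      simp [*]
    · simp [c58]
    · simp [c58]
    · simp [c58]
  by_cases h6 : ∀ w, G.Adj (φ 6) w → w = φ 1 ∨ G.Adj (φ 1) w
  swap
  · push Not at h6
    obtain ⟨w, hw, hw1, hw1'⟩ := h6
    have hout : ∀ i < 8, w ≠ φ i := by
      intro i hi h
      interval_cases i
      · rw [h] at hw1'; exact hw1' e01.symm
      · exact hw1 h
      · rw [h] at hw1'; exact hw1' e12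
      · rw [h] at hw1'; exact hw1' e13
      · rw [h] at hw; exact h46 hw.symm
      · rw [h] at hw1'; exact hw1' e15
      · rw [h] at hw; exact G.loopless.irrefl _ hw
      · rw [h] at hw; exact h67 hw
    have h58 : ¬ G.Adj (φ 5) w := by
      intro h
      rcases h5 w h with h | h | h
      · exact hout 0 (by omega) h
      · exact hout 1 (by omega) h
      · exact hout 3 (by omega) h
    have h52 : ¬ G.Adj (φ 5) (φ 2) := fun h => h25 h.symm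
    have h54 : ¬ G.Adj (φ 5) (φ 4) := fun h => h45 h.symm
    by_cases h28 : G.Adj (φ 2) w
    · refine cert_sound c28 c28_ok (fun k => if k = 8 then w else φ k) (ext w hout) ?_ ?_ ?_ ?_
      · simp only [c28, List.forall_mem_cons]
        simp [*]
      · simp only [c28, List.forall_mem_cons]
        simp [*]
      · intro _ v hv
        simpa using h5 v (by simpa using hv)
      · simp [c28]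
    by_cases h48 : G.Adj (φ 4) w
    · refine cert_sound c48 c48_ok (fun k => if k = 8 then w else φ k) (ext w hout) ?_ ?_ ?_ ?_
      · simp only [c48, List.forall_mem_cons]
        simp [*]
      · simp only [c48, List.forall_mem_cons]
        simp [*]
      · intro _ v hv
        simpa using h5 v (by simpa using hv)
      · simp [c48]
    refine cert_sound c68 c68_ok (fun k => if k = 8 then w else φ k) (ext w hout) ?_ ?_ ?_ ?_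
    · simp only [c68, List.forall_mem_cons]
      simp [*]
    · simp only [c68, List.forall_mem_cons]
      simp [*]
    · intro _ v hv
      simpa using h5 v (by simpa using hv)
    · simp [c68]
  have h52 : ¬ G.Adj (φ 5) (φ 2) := fun h => h25 h.symm
  have h54 : ¬ G.Adj (φ 5) (φ 4) := fun h => h45 h.symm
  refine cert_sound cG cG_ok φ hinj ?_ ?_ (fun _ => h5) (fun _ => h6)
  · simp only [cG, List.forall_mem_cons]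
    simp [*]
  · simp only [cG, List.forall_mem_cons]
    simp [*]

end Forced

end Pool.Agent.RobberConfined
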